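import Mathlib

/-!
# The graphs: double stars and the comb graph
-/

namespace Pool.Agent.Helper9.SpTree

open scoped Classical

section DoubleStar

variable {W X2 X1 : Type}

/-- generating relation of the double star tree with centres `c` and `v` joined through `p`:
`c` is adjacent to the members of `Y2`, `Y1`, to `p` and to all labels `≠ v`; `v` is adjacent to
all other elements. -/
inductive DSRel (v : W) (c : X2) (Y2 : X2 → Bool) (Y1 : X1 → Bool) (p : X1) :
    W ⊕ X2 ⊕ X1 → W ⊕ X2 ⊕ X1 → Prop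
  | cY2 (x : X2) (hx : x ≠ c) (h : Y2 x = true) : DSRel v c Y2 Y1 p (.inr (.inl c)) (.inr (.inl x))
  | vY2 (x : X2) (h : Y2 x = false) : DSRel v c Y2 Y1 p (.inl v) (.inr (.inl x))
  | cY1 (x : X1) (h : Y1 x = true) : DSRel v c Y2 Y1 p (.inr (.inl c)) (.inr (.inr x))
  | cp : DSRel v c Y2 Y1 p (.inr (.inl c)) (.inr (.inr p))
  | vY1 (x : X1) (h : Y1 x = false) : DSRel v c Y2 Y1 p (.inl v) (.inr (.inr x))
  | cw (w : W) (h : w ≠ v) : DSRel v c Y2 Y1 p (.inr (.inl c)) (.inl w)

/-- the double star -/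
def DS (v : W) (c : X2) (Y2 : X2 → Bool) (Y1 : X1 → Bool) (p : X1) : SimpleGraph (W ⊕ X2 ⊕ X1) :=
  SimpleGraph.fromRel (DSRel v c Y2 Y1 p)

/-- the vertex set `{v} ∪ A2 ∪ A1` -/
def US (v : W) (A2 : X2 → Bool) (A1 : X1 → Bool) : Set (W ⊕ X2 ⊕ X1) :=
  {x | x = .inl v ∨ (∃ y, A2 y = true ∧ x = .inr (.inl y)) ∨ (∃ y, A1 y = true ∧ x = .inr (.inr y))}

end DoubleStar

section Comb

variable {ι : Type}

/-- vertices of the comb graph over `ι` with `N = |ι|` ports per vertex and spacing `s` -/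
abbrev CV (ι : Type) (N s : ℕ) : Type := (ι × Fin (N * s)) ⊕ (ι × ι × Fin s)

/-- the fibre (base vertex) of a vertex of the comb graph -/
def CV.proj {N s : ℕ} : CV ι N s → ι
  | .inl (i, _) => i
  | .inr (i, _, _) => i

/-- generating relation of the lift of a graph `T` on `ι`: every base vertex `i` is replaced by a
path with `N * s` vertices, with a pendant path with `s` vertices attached at each of the `N` ports
(at distance `s` from each other); the ends of the pendant paths `(i,j)` and `(j,i)` are joined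
iff `i j` is an edge of `T`. -/
inductive LiftRel (N s : ℕ) (e : ι ≃ Fin N) (T : SimpleGraph ι) : CV ι N s → CV ι N s → Prop
  | spine (i : ι) (k k' : Fin (N * s)) (h : (k' : ℕ) = k + 1) :
      LiftRel N s e T (.inl (i, k)) (.inl (i, k'))
  | attach (i j : ι) (k : Fin (N * s)) (l : Fin s) (hk : (k : ℕ) = e j * s) (hl : (l : ℕ) = 0) :
      LiftRel N s e T (.inl (i, k)) (.inr (i, j, l))
  | pendant (i j : ι) (l l' : Fin s) (h : (l' : ℕ) = l + 1) :
      LiftRel N s e T (.inr (i, j, l)) (.inr (i, j, l'))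
  | cross (i j : ι) (l : Fin s) (hij : T.Adj i j) (h : (l : ℕ) + 1 = s) :
      LiftRel N s e T (.inr (i, j, l)) (.inr (j, i, l))

/-- the lift of `T`; `lift N s e ⊤` is the comb graph -/
def lift (N s : ℕ) (e : ι ≃ Fin N) (T : SimpleGraph ι) : SimpleGraph (CV ι N s) :=
  SimpleGraph.fromRel (LiftRel N s e T)

end Comb

end Pool.Agent.Helper9.SpTree
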