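import Mathlib

/-!
# Definitions: spanning tree polytopes, extended formulations, sparse graph classes
-/

namespace Pool.Agent.Helper9.SpTree

open scoped Classical

/-- The incidence vector `χ^T ∈ ℝ^{E(G)}` of the edge set of `T`. -/
noncomputable def incVec {V : Type} (G T : SimpleGraph V) : G.edgeSet → ℝ :=
  fun e => if (e : Sym2 V) ∈ T.edgeSet then 1 else 0

/-- The spanning tree polytope: convex hull of the incidence vectors of the spanning trees. -/
def STP {V : Type} (G : SimpleGraph V) : Set (G.edgeSet → ℝ) :=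
  convexHull ℝ {x | ∃ T : SimpleGraph V, T ≤ G ∧ T.IsTree ∧ x = incVec G T}

/-- The polyhedron in `ℝ^d` given by `r` linear inequalities `a i · q ≤ b i` and `s` linear
equations `c j · q = e j`. -/
def polyhedron {d r s : ℕ} (a : Fin r → Fin d → ℝ) (b : Fin r → ℝ)
    (c : Fin s → Fin d → ℝ) (e : Fin s → ℝ) : Set (Fin d → ℝ) :=
  {q | (∀ i, ∑ k, a i k * q k ≤ b i) ∧ (∀ j, ∑ k, c j k * q k = e j)}

/-- `P` has an extended formulation of size `r`: it is the image under an affine map of a
polytope (bounded polyhedron) given by `r` linear inequalities and some linear equations.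
The least such `r` is the extension complexity of `P`. -/
def HasExt {ι : Type} (P : Set (ι → ℝ)) (r : ℕ) : Prop :=
  ∃ (d s : ℕ) (a : Fin r → Fin d → ℝ) (b : Fin r → ℝ) (c : Fin s → Fin d → ℝ) (e : Fin s → ℝ)
    (f : (Fin d → ℝ) →ᵃ[ℝ] (ι → ℝ)),
    Bornology.IsBounded (polyhedron a b c e) ∧ f '' polyhedron a b c e = P

/-- A graph class: a set of finite graphs (on the vertex sets `Fin n`) closed under isomorphism. -/
structure GraphClass where
  mem : ∀ n : ℕ, SimpleGraph (Fin n) → Prop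
  iso : ∀ (n : ℕ) (G H : SimpleGraph (Fin n)), Nonempty (G ≃g H) → mem n G → mem n H

/-- one bound for the maximum degrees of all members -/
def BoundedDegree (𝒢 : GraphClass) : Prop :=
  ∃ Δ : ℕ, ∀ n G, 𝒢.mem n G → ∀ v : Fin n, (G.neighborSet v).ncard ≤ Δ

/-- `|E(H)| ≤ c |V(H)|` for every subgraph `H` of every member -/
def BoundedDensity (𝒢 : GraphClass) : Prop :=
  ∃ c : ℝ, ∀ n G, 𝒢.mem n G → ∀ H : G.Subgraph, (H.edgeSet.ncard : ℝ) ≤ c * H.verts.ncard

/-- `H` is obtained from a subgraph of `G` by contracting pairwise disjoint connected subgraphs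
of radius at most `r`: the vertices `w` of `H` are modelled by disjoint sets `bag w` of vertices
of `G`, each with a centre from which every vertex of the bag is reached by a walk of length
at most `r` inside the bag, and adjacent vertices of `H` have bags joined by an edge of `G`. -/
def ShallowMinor {V W : Type} (r : ℕ) (H : SimpleGraph W) (G : SimpleGraph V) : Prop :=
  ∃ bag : W → Set V,
    (∀ w w', w ≠ w' → Disjoint (bag w) (bag w')) ∧
    (∀ w, ∃ z ∈ bag w, ∀ x ∈ bag w, ∃ p : G.Walk z x, p.length ≤ r ∧ ∀ y ∈ p.support, y ∈ bag w) ∧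
    (∀ w w', H.Adj w w' → ∃ x ∈ bag w, ∃ y ∈ bag w', G.Adj x y)

/-- bounded expansion -/
def BoundedExpansion (𝒢 : GraphClass) : Prop :=
  ∃ f : ℕ → ℝ, ∀ r n G, 𝒢.mem n G → ∀ (k : ℕ) (H : SimpleGraph (Fin k)),
    ShallowMinor r H G → (H.edgeSet.ncard : ℝ) ≤ f r * k

/-- strongly sublinear separators: there are `c, ε > 0` such that every subgraph `H` of every
member has a set `S` of at most `c |V(H)|^(1-ε)` vertices such that every component of `H - S`
has at most `2/3 |V(H)|` vertices -/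
def SublinearSeparators (𝒢 : GraphClass) : Prop :=
  ∃ c ε : ℝ, 0 < c ∧ 0 < ε ∧ ∀ n G, 𝒢.mem n G → ∀ H : G.Subgraph,
    ∃ S : Set (Fin n), S ⊆ H.verts ∧ (S.ncard : ℝ) ≤ c * (H.verts.ncard : ℝ) ^ (1 - ε) ∧
      ∀ K : (H.deleteVerts S).coe.ConnectedComponent, (K.supp.ncard : ℝ) ≤ 2 / 3 * H.verts.ncard

/-- `xc(STP(G)) ∈ O(|V(G)|)` on the class -/
def LinearXC (𝒢 : GraphClass) : Prop :=
  ∃ C : ℝ, ∀ n G, 𝒢.mem n G → G.Connected → ∃ r : ℕ, HasExt (STP G) r ∧ (r : ℝ) ≤ C * n

end Pool.Agent.Helper9.SpTree
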