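import Pool.Agent.Helper9.STP.Defs
import Pool.Agent.Helper9.STP.Graphs

/-!
# MP_3cffc3_co, module G2: properties of the class of comb graphs
-/

namespace Pool.Agent.Helper9.STPG2

open Finset
open Pool.Agent.Helper9.SpTree
open scoped Classical

/-! ## Transfer along isomorphisms -/

/-- transfer of the notions along graph isomorphisms -/
theorem ShallowMinor.of_iso {V V' W : Type} {r : ℕ} {H : SimpleGraph W} {G : SimpleGraph V}
    {G' : SimpleGraph V'} (φ : G ≃g G') (h : ShallowMinor r H G) : ShallowMinor r H G' := by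
  obtain ⟨bag, h1, h2, h3⟩ := h
  refine ⟨fun w => φ '' bag w, ?_, ?_, ?_⟩
  · intro w w' hw
    exact Set.disjoint_image_of_injective φ.injective (h1 w w' hw)
  · intro w
    obtain ⟨z, hz, hz2⟩ := h2 w
    refine ⟨φ z, ⟨z, hz, rfl⟩, ?_⟩
    rintro _ ⟨x, hx, rfl⟩
    obtain ⟨p, hp, hps⟩ := hz2 x hx
    refine ⟨p.map φ.toHom, by simpa using hp, ?_⟩
    intro y hy
    rw [SimpleGraph.Walk.support_map] at hy
    obtain ⟨y', hy', rfl⟩ := List.mem_map.1 hy
    exact ⟨y', hps y' hy', rfl⟩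
  · intro w w' hw
    obtain ⟨x, hx, y, hy, hxy⟩ := h3 w w' hw
    exact ⟨φ x, ⟨x, hx, rfl⟩, φ y, ⟨y, hy, rfl⟩, φ.map_adj_iff.2 hxy⟩

theorem image_incVec {V V' : Type} {G : SimpleGraph V} {G' : SimpleGraph V'} (φ : G ≃g G')
    (T : SimpleGraph V) :
    (LinearMap.funLeft ℝ ℝ φ.mapEdgeSet.symm) (incVec G T) =
      incVec G' (T.comap φ.symm) := by
  funext e
  obtain ⟨e, he⟩ := e
  induction e with
  | _ a b =>
    simp only [LinearMap.funLeft_apply, incVec]
    have : ((φ.mapEdgeSet.symm ⟨s(a, b), he⟩ : G.edgeSet) : Sym2 V) = s(φ.symm a, φ.symm b) := by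
      rfl
    rw [this]
    simp only [SimpleGraph.mem_edgeSet, SimpleGraph.comap_adj]

theorem image_STP {V V' : Type} {G : SimpleGraph V} {G' : SimpleGraph V'} (φ : G ≃g G') :
    (LinearMap.funLeft ℝ ℝ φ.mapEdgeSet.symm) '' (STP G) = STP G' := by
  unfold STP
  rw [LinearMap.image_convexHull]
  congr 1
  ext x
  constructor
  · rintro ⟨_, ⟨T, hT, hT', rfl⟩, rfl⟩
    refine ⟨T.comap φ.symm, ?_, ?_, image_incVec φ T⟩
    · intro a b hab
      have := hT hab
      exact φ.symm.map_adj_iff.1 this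
    · exact (SimpleGraph.Iso.isTree_iff (SimpleGraph.Iso.comap φ.symm.toEquiv T)).2 hT'
  · rintro ⟨T, hT, hT', rfl⟩
    refine ⟨incVec G (T.comap φ), ⟨T.comap φ, ?_, ?_, rfl⟩, ?_⟩
    · intro a b hab
      exact φ.map_adj_iff.1 (hT hab)
    · exact (SimpleGraph.Iso.isTree_iff (SimpleGraph.Iso.comap φ.toEquiv T)).2 hT'
    · rw [image_incVec]
      congr 1
      ext a b
      simp

theorem HasExt.of_iso {V V' : Type} {r : ℕ} {G : SimpleGraph V}
    {G' : SimpleGraph V'} (φ : G ≃g G') (h : HasExt (STP G) r) : HasExt (STP G') r := by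
  obtain ⟨d, s, a, b, c, e, f, hb, hf⟩ := h
  refine ⟨d, s, a, b, c, e,
    (LinearMap.funLeft ℝ ℝ φ.mapEdgeSet.symm).toAffineMap.comp f, hb, ?_⟩
  rw [AffineMap.coe_comp, Set.image_comp, hf]
  exact image_STP φ

/-! ## Density -/

theorem density_of_degree {n Δ : ℕ} (G : SimpleGraph (Fin n))
    (h : ∀ v, (G.neighborSet v).ncard ≤ Δ) (H : G.Subgraph) :
    2 * H.edgeSet.ncard ≤ Δ * H.verts.ncard := by
  have h1 : H.edgeSet.ncard ≤ H.coe.edgeSet.ncard := by
    rw [← SimpleGraph.Subgraph.image_coe_edgeSet_coe]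
    exact Set.ncard_image_le (Set.toFinite _)
  have h2 := H.coe.sum_degrees_eq_twice_card_edges
  have h3 : H.coe.edgeSet.ncard = #H.coe.edgeFinset := by
    rw [← SimpleGraph.coe_edgeFinset, Set.ncard_coe_finset]
  have h4 : ∀ v : H.verts, ∀ inst : Fintype (H.coe.neighborSet v), 
      @SimpleGraph.degree _ H.coe v inst ≤ Δ := by
    intro v inst
    refine le_trans ?_ (h v)
    rw [← SimpleGraph.card_neighborSet_eq_degree, ← Nat.card_eq_fintype_card]
    rw [Nat.card_coe_set_eq]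
    refine Set.ncard_le_ncard_of_injOn (fun x => (x : Fin n)) ?_ ?_ (Set.toFinite _)
    · intro x hx
      exact H.adj_sub hx
    · intro x _ y _ hxy
      exact Subtype.ext hxy
  have h6 : 2 * #H.coe.edgeFinset ≤ Δ * H.verts.ncard := by
    rw [← h2]
    refine le_trans (Finset.sum_le_sum (g := fun _ => Δ) fun v _ => ?_) ?_
    · exact h4 v _
    · rw [Finset.sum_const, smul_eq_mul, Finset.card_univ, mul_comm, ← Nat.card_eq_fintype_card,
        Nat.card_coe_set_eq]
  rw [← h3] at h6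
  omega

/-! ## The comb graph -/

section Comb

variable {ι : Type} {N s : ℕ}

theorem lift_adj {e : ι ≃ Fin N} {T : SimpleGraph ι} {x y : CV ι N s} :
    (lift N s e T).Adj x y ↔ x ≠ y ∧ (LiftRel N s e T x y ∨ LiftRel N s e T y x) :=
  SimpleGraph.fromRel_adj _ _ _

/-- branch vertices -/
def Br (N s : ℕ) (e : ι ≃ Fin N) : Set (CV ι N s) :=
  {x | ∃ (i : ι) (k : Fin (N * s)) (j : ι), (k : ℕ) = e j * s ∧ x = .inl (i, k)}

theorem subs_ncard {α : Type} {A : Set α} (h : A.Subsingleton) : A.ncard ≤ 1 := by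
  rcases h.eq_empty_or_singleton with h | ⟨a, h⟩ <;> simp [h]

/-- neighbours of a spine vertex -/
theorem nbr_inl (e : ι ≃ Fin N) (T : SimpleGraph ι) (i : ι) (k : Fin (N * s)) :
    (lift N s e T).neighborSet (.inl (i, k)) ⊆
      {y | ∃ k' : Fin (N * s), (k' : ℕ) = k + 1 ∧ y = .inl (i, k')} ∪
      ({y | ∃ k' : Fin (N * s), (k : ℕ) = k' + 1 ∧ y = .inl (i, k')} ∪
       {y | ∃ (j : ι) (l : Fin s), (k : ℕ) = e j * s ∧ (l : ℕ) = 0 ∧ y = .inr (i, j, l)}) := by
  intro y hy
  rw [SimpleGraph.mem_neighborSet, lift_adj] at hy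
  obtain ⟨_, h | h⟩ := hy
  · cases h with
    | spine _ _ k' h => exact Or.inl ⟨k', h, rfl⟩
    | attach _ j _ l hk hl => exact Or.inr (Or.inr ⟨j, l, hk, hl, rfl⟩)
  · cases h with
    | spine _ k' _ h => exact Or.inr (Or.inl ⟨k', h, rfl⟩)

theorem sub1 (i : ι) (k : ℕ) :
    ({y | ∃ k' : Fin (N * s), (k' : ℕ) = k + 1 ∧ y = .inl (i, k')} : Set (CV ι N s)).Subsingleton := by
  rintro _ ⟨k1, h1, rfl⟩ _ ⟨k2, h2, rfl⟩
  have : k1 = k2 := Fin.ext (by omega)
  rw [this]

theorem sub2 (i : ι) (k : ℕ) :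
    ({y | ∃ k' : Fin (N * s), k = (k' : ℕ) + 1 ∧ y = .inl (i, k')} : Set (CV ι N s)).Subsingleton := by
  rintro _ ⟨k1, h1, rfl⟩ _ ⟨k2, h2, rfl⟩
  have : k1 = k2 := Fin.ext (by omega)
  rw [this]

theorem sub3 (e : ι ≃ Fin N) (i : ι) (k : ℕ) :
    ({y | ∃ (j : ι) (l : Fin s), k = e j * s ∧ (l : ℕ) = 0 ∧ y = .inr (i, j, l)} :
      Set (CV ι N s)).Subsingleton := by
  rintro _ ⟨j1, l1, h1, h1', rfl⟩ _ ⟨j2, l2, h2, h2', rfl⟩
  have hs : 0 < s := by have := l1.2; omega
  have : l1 = l2 := Fin.ext (by omega)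
  have h3 : (e j1 : ℕ) * s = e j2 * s := by omega
  have h4 : j1 = j2 := e.injective (Fin.ext (Nat.eq_of_mul_eq_mul_right hs h3))
  rw [this, h4]

/-- neighbours of a pendant vertex -/
theorem nbr_inr (e : ι ≃ Fin N) (T : SimpleGraph ι) (i j : ι) (l : Fin s) :
    (lift N s e T).neighborSet (.inr (i, j, l)) ⊆
      {y | (∃ l' : Fin s, (l' : ℕ) = l + 1 ∧ y = .inr (i, j, l')) ∨
        ((l : ℕ) + 1 = s ∧ y = .inr (j, i, l))} ∪
      {y | (∃ l' : Fin s, (l : ℕ) = l' + 1 ∧ y = .inr (i, j, l')) ∨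
        ((l : ℕ) = 0 ∧ ∃ k : Fin (N * s), (k : ℕ) = e j * s ∧ y = .inl (i, k))} := by
  intro y hy
  rw [SimpleGraph.mem_neighborSet, lift_adj] at hy
  obtain ⟨_, h | h⟩ := hy
  · cases h with
    | pendant _ _ _ l' h => exact Or.inl (Or.inl ⟨l', h, rfl⟩)
    | cross _ _ _ hij h => exact Or.inl (Or.inr ⟨h, rfl⟩)
  · cases h with
    | attach _ _ k _ hk hl => exact Or.inr (Or.inr ⟨hl, k, hk, rfl⟩)
    | pendant _ _ l' _ h => exact Or.inr (Or.inl ⟨l', h, rfl⟩)
    | cross _ _ _ hij h => exact Or.inl (Or.inr ⟨h, rfl⟩)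

theorem sub4 (i j : ι) (l : Fin s) :
    ({y | (∃ l' : Fin s, (l' : ℕ) = l + 1 ∧ y = .inr (i, j, l')) ∨
        ((l : ℕ) + 1 = s ∧ y = .inr (j, i, l))} : Set (CV ι N s)).Subsingleton := by
  rintro _ (⟨l1, h1, rfl⟩ | ⟨h1, rfl⟩) _ (⟨l2, h2, rfl⟩ | ⟨h2, rfl⟩)
  · have : l1 = l2 := Fin.ext (by omega)
    rw [this]
  · have := l1.2
    omega
  · have := l2.2
    omega
  · rfl

theorem sub5 (e : ι ≃ Fin N) (i j : ι) (l : Fin s) :
    ({y | (∃ l' : Fin s, (l : ℕ) = l' + 1 ∧ y = .inr (i, j, l')) ∨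
        ((l : ℕ) = 0 ∧ ∃ k : Fin (N * s), (k : ℕ) = e j * s ∧ y = .inl (i, k))} :
        Set (CV ι N s)).Subsingleton := by
  rintro _ (⟨l1, h1, rfl⟩ | ⟨h1, k1, h1', rfl⟩) _ (⟨l2, h2, rfl⟩ | ⟨h2, k2, h2', rfl⟩)
  · have : l1 = l2 := Fin.ext (by omega)
    rw [this]
  · omega
  · omega
  · have : k1 = k2 := Fin.ext (by omega)
    rw [this]

variable [Finite ι]

theorem comb_degree (e : ι ≃ Fin N) (T : SimpleGraph ι) (x : CV ι N s) :
    ((lift N s e T).neighborSet x).ncard ≤ 3 := by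
  rcases x with ⟨i, k⟩ | ⟨i, j, l⟩
  · refine (Set.ncard_le_ncard (nbr_inl e T i k) (Set.toFinite _)).trans ?_
    refine (Set.ncard_union_le _ _).trans ?_
    have h1 := subs_ncard (sub1 (N := N) (s := s) i k)
    have h2 := Set.ncard_union_le
      {y : CV ι N s | ∃ k' : Fin (N * s), (k : ℕ) = k' + 1 ∧ y = .inl (i, k')}
      {y : CV ι N s | ∃ (j : ι) (l : Fin s), (k : ℕ) = e j * s ∧ (l : ℕ) = 0 ∧ y = .inr (i, j, l)}
    have h3 := subs_ncard (sub2 (N := N) (s := s) i k)
    have h4 := subs_ncard (sub3 (N := N) (s := s) e i k)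
    omega
  · refine (Set.ncard_le_ncard (nbr_inr e T i j l) (Set.toFinite _)).trans ?_
    refine (Set.ncard_union_le _ _).trans ?_
    have h1 := subs_ncard (sub4 (N := N) i j l)
    have h2 := subs_ncard (sub5 (N := N) e i j l)
    omega

/-- a vertex which is not a branch vertex has at most two neighbours -/
theorem degree_le_two (e : ι ≃ Fin N) (T : SimpleGraph ι) (x : CV ι N s) (hx : x ∉ Br N s e) :
    ((lift N s e T).neighborSet x).ncard ≤ 2 := by
  rcases x with ⟨i, k⟩ | ⟨i, j, l⟩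
  · refine (Set.ncard_le_ncard (nbr_inl e T i k) (Set.toFinite _)).trans ?_
    refine (Set.ncard_union_le _ _).trans ?_
    have h1 := subs_ncard (sub1 (N := N) (s := s) i k)
    have h2 := Set.ncard_union_le
      {y : CV ι N s | ∃ k' : Fin (N * s), (k : ℕ) = k' + 1 ∧ y = .inl (i, k')}
      {y : CV ι N s | ∃ (j : ι) (l : Fin s), (k : ℕ) = e j * s ∧ (l : ℕ) = 0 ∧ y = .inr (i, j, l)}
    have h3 := subs_ncard (sub2 (N := N) (s := s) i k)
    have h4 : {y : CV ι N s | ∃ (j : ι) (l : Fin s), (k : ℕ) = e j * s ∧ (l : ℕ) = 0 ∧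
        y = .inr (i, j, l)} = ∅ := by
      rw [Set.eq_empty_iff_forall_notMem]
      rintro _ ⟨j, l, h, _, _⟩
      exact hx ⟨i, k, j, h, rfl⟩
    rw [h4, Set.ncard_empty] at h2
    rw [h4]
    omega
  · refine (Set.ncard_le_ncard (nbr_inr e T i j l) (Set.toFinite _)).trans ?_
    refine (Set.ncard_union_le _ _).trans ?_
    have h1 := subs_ncard (sub4 (N := N) i j l)
    have h2 := subs_ncard (sub5 (N := N) e i j l)
    omega

/-! ### Distances between branch vertices -/

/-- the truncated distance from the branch vertex `(i0, e j0 * s)` -/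
noncomputable def phi (N s : ℕ) (e : ι ≃ Fin N) (i0 j0 : ι) : CV ι N s → ℕ
  | .inl (i, k) => if i = i0 then min ((k - e j0 * s) + (e j0 * s - k)) s else s
  | .inr (i, j, l) => if i = i0 ∧ j = j0 then l + 1 else s

theorem dist_mul {a b s : ℕ} (h : a ≠ b) : s ≤ (a * s - b * s) + (b * s - a * s) := by
  rcases Nat.lt_or_gt_of_ne h with h | h
  · have : (a + 1) * s ≤ b * s := Nat.mul_le_mul_right _ h
    have h2 : (a + 1) * s = a * s + s := by ring
    omega
  · have : (b + 1) * s ≤ a * s := Nat.mul_le_mul_right _ h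
    have h2 : (b + 1) * s = b * s + s := by ring
    omega

omit [Finite ι] in
theorem phi_rel (e : ι ≃ Fin N) (T : SimpleGraph ι) (i0 j0 : ι) {x y : CV ι N s}
    (h : LiftRel N s e T x y) :
    phi N s e i0 j0 x ≤ phi N s e i0 j0 y + 1 ∧ phi N s e i0 j0 y ≤ phi N s e i0 j0 x + 1 := by
  cases h with
  | spine i k k' h =>
    simp only [phi]
    split_ifs
    · omega
    · omega
  | attach i j k l hk hl =>
    simp only [phi]
    have hl2 := l.2
    by_cases hi : i = i0
    · by_cases hj : j = j0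
      · subst hi hj
        simp only [hk, true_and, if_true]
        simp
        omega
      · have : (e j : ℕ) ≠ e j0 := fun h => hj (e.injective (Fin.ext h))
        have h2 := dist_mul (s := s) this
        simp only [hi, hj, and_false, if_true, if_false, hk]
        omega
    · simp [hi]
  | pendant i j l l' h =>
    have := l.2
    have := l'.2
    simp only [phi]
    split_ifs <;> omega
  | cross i j l hij h =>
    simp only [phi]
    split_ifs <;> omega

omit [Finite ι] in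
theorem phi_walk (e : ι ≃ Fin N) (T : SimpleGraph ι) (i0 j0 : ι) {x y : CV ι N s}
    (p : (lift N s e T).Walk x y) :
    phi N s e i0 j0 y ≤ phi N s e i0 j0 x + p.length := by
  induction p with
  | nil => simp
  | @cons u v w h p ih =>
    have h2 : phi N s e i0 j0 v ≤ phi N s e i0 j0 u + 1 := by
      obtain ⟨_, h | h⟩ := lift_adj.1 h
      · exact (phi_rel e T i0 j0 h).2
      · exact (phi_rel e T i0 j0 h).1
    rw [SimpleGraph.Walk.length_cons]
    omega

/-- distinct branch vertices are at distance at least `s` -/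
theorem branch_dist (e : ι ≃ Fin N) (T : SimpleGraph ι) {x y : CV ι N s}
    (hx : x ∈ Br N s e) (hy : y ∈ Br N s e) (hxy : x ≠ y) (p : (lift N s e T).Walk x y) :
    s ≤ p.length := by
  obtain ⟨i, k, j, hk, rfl⟩ := hx
  obtain ⟨i', k', j', hk', rfl⟩ := hy
  have h := phi_walk e T i j p
  have h1 : phi N s e i j (.inl (i, k)) = 0 := by
    simp [phi, hk]
  have h2 : phi N s e i j (.inl (i', k')) = s := by
    simp only [phi]
    split_ifs with hi
    · have hj : j' ≠ j := by
        rintro rfl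
        apply hxy
        have : k = k' := Fin.ext (by omega)
        rw [this, hi]
      have : (e j' : ℕ) ≠ e j := fun h => hj (e.injective (Fin.ext h))
      have h2 := dist_mul (s := s) this
      rw [hk']
      omega
    · rfl
  omega

/-! ### Connectedness of the comb graph -/

omit [Finite ι] in
theorem reach_spine (e : ι ≃ Fin N) (T : SimpleGraph ι) (i : ι) (k : ℕ) (hk : k < N * s) :
    (lift N s e T).Reachable (.inl (i, ⟨0, by omega⟩)) (.inl (i, ⟨k, hk⟩)) := by
  induction k with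
  | zero => exact SimpleGraph.Reachable.refl _
  | succ k ih =>
    refine (ih (by omega)).trans (SimpleGraph.Adj.reachable ?_)
    rw [lift_adj]
    refine ⟨?_, Or.inl (LiftRel.spine _ _ _ rfl)⟩
    simp

omit [Finite ι] in
theorem port_lt (hs : 0 < s) (e : ι ≃ Fin N) (j : ι) : (e j : ℕ) * s < N * s :=
  Nat.mul_lt_mul_of_pos_right (e j).2 hs

omit [Finite ι] in
theorem reach_pendant (hs : 0 < s) (e : ι ≃ Fin N) (T : SimpleGraph ι) (i j : ι) (l : ℕ)
    (hl : l < s) :
    (lift N s e T).Reachable (.inl (i, ⟨e j * s, port_lt hs e j⟩)) (.inr (i, j, ⟨l, hl⟩)) := by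
  induction l with
  | zero =>
    refine SimpleGraph.Adj.reachable ?_
    rw [lift_adj]
    exact ⟨by simp, Or.inl (LiftRel.attach _ _ _ _ rfl rfl)⟩
  | succ l ih =>
    refine (ih (by omega)).trans (SimpleGraph.Adj.reachable ?_)
    rw [lift_adj]
    exact ⟨by simp, Or.inl (LiftRel.pendant _ _ _ _ rfl)⟩

omit [Finite ι] in
theorem comb_connected' (hs : 0 < s) (hN : 0 < N) (e : ι ≃ Fin N) :
    (lift N s e (⊤ : SimpleGraph ι)).Connected := by
  have hNs : 0 < N * s := Nat.mul_pos hN hs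
  have key : ∀ x : CV ι N s,
      (lift N s e (⊤ : SimpleGraph ι)).Reachable (.inl (CV.proj x, ⟨0, hNs⟩)) x := by
    rintro (⟨i, k⟩ | ⟨i, j, l⟩)
    · exact reach_spine e ⊤ i k.1 k.2
    · exact (reach_spine e ⊤ i _ (port_lt hs e j)).trans (reach_pendant hs e ⊤ i j l.1 l.2)
  have key2 : ∀ i j : ι, (lift N s e (⊤ : SimpleGraph ι)).Reachable (.inl (i, ⟨0, hNs⟩))
      (.inl (j, ⟨0, hNs⟩)) := by
    intro i j
    by_cases hij : i = j
    · subst hij; exact SimpleGraph.Reachable.refl _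
    · have h1 := key (.inr (i, j, ⟨s - 1, by omega⟩))
      have h2 := key (.inr (j, i, ⟨s - 1, by omega⟩))
      refine h1.trans (SimpleGraph.Reachable.trans (SimpleGraph.Adj.reachable ?_) h2.symm)
      rw [lift_adj]
      refine ⟨?_, Or.inl (LiftRel.cross _ _ _ hij (by simp; omega))⟩
      simp [hij]
  have : Nonempty (CV ι N s) := ⟨.inl (e.symm ⟨0, hN⟩, ⟨0, hNs⟩)⟩
  rw [SimpleGraph.connected_iff]
  refine ⟨fun x y => ?_, this⟩
  exact ((key x).symm.trans (key2 _ _)).trans (key y)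

theorem comb_connected {N s : ℕ} (hs : 0 < s) (hN : 0 < N) (e : ι ≃ Fin N) :
    (lift N s e (⊤ : SimpleGraph ι)).Connected :=
  comb_connected' hs hN e

end Comb

/-! ### Bags with small degrees -/

/-- a bag all of whose vertices have at most two neighbours has at most two neighbours in the
minor -/
theorem bag_degree {V : Type} [Finite V] (G : SimpleGraph V) {k : ℕ} (H : SimpleGraph (Fin k))
    (bag : Fin k → Set V) (hd : ∀ w w', w ≠ w' → Disjoint (bag w) (bag w')) (w : Fin k)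
    (hc : ∃ z ∈ bag w, ∀ x ∈ bag w, ∃ p : G.Walk z x, ∀ y ∈ p.support, y ∈ bag w)
    (ha : ∀ w', H.Adj w w' → ∃ x ∈ bag w, ∃ y ∈ bag w', G.Adj x y)
    (h2 : ∀ x ∈ bag w, (G.neighborSet x).ncard ≤ 2) :
    H.degree w ≤ 2 := by
  have : Fintype V := Fintype.ofFinite V
  obtain ⟨z, hz, hzw⟩ := hc
  have hconn : (G.induce (bag w)).Connected := by
    have hne : Nonempty (bag w) := ⟨⟨z, hz⟩⟩
    rw [SimpleGraph.connected_iff]
    refine ⟨?_, hne⟩
    have hr : ∀ x : bag w, (G.induce (bag w)).Reachable ⟨z, hz⟩ x := by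
      rintro ⟨x, hx⟩
      obtain ⟨p, hp⟩ := hzw x hx
      exact ⟨p.induce (bag w) hp⟩
    intro x y
    exact (hr x).symm.trans (hr y)
  have hcard := hconn.card_vert_le_card_edgeSet_add_one
  have hsum : ∑ v, (G.induce (bag w)).degree v = 2 * Nat.card (G.induce (bag w)).edgeSet := by
    rw [Nat.card_eq_fintype_card, ← SimpleGraph.edgeFinset_card]
    exact (G.induce (bag w)).sum_degrees_eq_twice_card_edges
  -- outer neighbours
  have hO : ∀ x : bag w, (G.induce (bag w)).degree x +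
      Nat.card {y : V // G.Adj x y ∧ y ∉ bag w} ≤ 2 := by
    intro x
    refine le_trans ?_ (h2 x x.2)
    have e1 : (G.induce (bag w)).degree x = {y : V | G.Adj x y ∧ y ∈ bag w}.ncard := by
      rw [← SimpleGraph.card_neighborSet_eq_degree, ← Nat.card_eq_fintype_card,
        Nat.card_coe_set_eq]
      refine Set.ncard_congr (fun y _ => (y : V)) ?_ ?_ ?_
      · intro a ha
        exact ⟨ha, a.2⟩
      · intro a b _ _ hab
        exact Subtype.ext hab
      · rintro b ⟨hb, hb'⟩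
        exact ⟨⟨b, hb'⟩, hb, rfl⟩
    have e2 : Nat.card {y : V // G.Adj x y ∧ y ∉ bag w} =
        {y : V | G.Adj x y ∧ y ∉ bag w}.ncard := rfl
    rw [e1, e2, ← Set.ncard_union_eq]
    · refine Set.ncard_le_ncard ?_ (Set.toFinite _)
      rintro y (hy | hy)
      · exact hy.1
      · exact hy.1
    · rw [Set.disjoint_left]
      rintro y hy hy'
      exact hy'.2 hy.2
  have hOsum : ∑ x : bag w, Nat.card {y : V // G.Adj x y ∧ y ∉ bag w} ≤ 2 := by
    have h3 : ∑ x : bag w, ((G.induce (bag w)).degree x +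
        Nat.card {y : V // G.Adj x y ∧ y ∉ bag w}) ≤ ∑ _x : bag w, 2 :=
      Finset.sum_le_sum fun x _ => hO x
    rw [Finset.sum_add_distrib, hsum, Finset.sum_const, Finset.card_univ, smul_eq_mul,
      ← Nat.card_eq_fintype_card] at h3
    omega
  refine le_trans ?_ hOsum
  -- the injection
  have hch : ∀ w' : H.neighborSet w, ∃ q : Σ x : bag w, {y : V // G.Adj x y ∧ y ∉ bag w},
      (q.2 : V) ∈ bag w' := by
    rintro ⟨w', hw'⟩
    obtain ⟨x, hx, y, hy, hxy⟩ := ha w' hw'
    have hne : w ≠ w' := H.ne_of_adj hw'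
    refine ⟨⟨⟨x, hx⟩, ⟨y, hxy, ?_⟩⟩, hy⟩
    intro hyw
    exact Set.disjoint_left.1 (hd w w' hne) hyw hy
  choose f hf using hch
  have hinj : Function.Injective f := by
    intro a b hab
    by_contra hne
    have hne' : (a : Fin k) ≠ b := fun h => hne (Subtype.ext h)
    have h1 := hf a
    have h2 := hf b
    rw [hab] at h1
    exact Set.disjoint_left.1 (hd _ _ hne') h1 h2
  have := Fintype.card_le_of_injective f hinj
  rw [Fintype.card_sigma, SimpleGraph.card_neighborSet_eq_degree] at this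
  refine this.trans (le_of_eq ?_)
  refine Finset.sum_congr rfl fun x _ => ?_
  rw [Nat.card_eq_fintype_card]

/-- if every edge has an end in `S` and all members of `S` have degree at most two, then there
are at most `2 k` edges -/
theorem edges_le {k : ℕ} (H : SimpleGraph (Fin k)) (S : Set (Fin k))
    (h : ∀ a b, H.Adj a b → a ∈ S ∨ b ∈ S) (hd : ∀ a ∈ S, H.degree a ≤ 2) :
    H.edgeSet.ncard ≤ 2 * k := by
  have h1 : H.edgeSet.ncard = #H.edgeFinset := by
    rw [← SimpleGraph.coe_edgeFinset, Set.ncard_coe_finset]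
  have h2 : H.edgeFinset ⊆ (univ.filter (fun a => a ∈ S)).biUnion
      (fun a => H.incidenceFinset a) := by
    intro e he
    rw [SimpleGraph.mem_edgeFinset] at he
    induction e with
    | _ a b =>
      rw [Finset.mem_biUnion]
      rcases h a b he with h | h
      · refine ⟨a, by simp [h], ?_⟩
        rw [SimpleGraph.mem_incidenceFinset]
        exact ⟨he, by simp⟩
      · refine ⟨b, by simp [h], ?_⟩
        rw [SimpleGraph.mem_incidenceFinset]
        exact ⟨he, by simp⟩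
  rw [h1]
  refine (Finset.card_le_card h2).trans (Finset.card_biUnion_le.trans ?_)
  calc ∑ a ∈ univ.filter (fun a => a ∈ S), #(H.incidenceFinset a)
      ≤ ∑ a ∈ univ.filter (fun a => a ∈ S), 2 := by
        refine Finset.sum_le_sum fun a ha => ?_
        rw [SimpleGraph.card_incidenceFinset_eq_degree]
        exact hd a (Finset.mem_filter.1 ha).2
    _ ≤ 2 * k := by
        rw [Finset.sum_const, smul_eq_mul, mul_comm]
        refine Nat.mul_le_mul_left _ ?_
        refine (Finset.card_filter_le _ _).trans ?_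
        simp

theorem comb_shallow {ι : Type} [Finite ι] {N s r : ℕ} (hs : 4 * r + 2 ≤ s) (e : ι ≃ Fin N)
    (T : SimpleGraph ι)
    {k : ℕ} (H : SimpleGraph (Fin k)) (h : ShallowMinor r H (lift N s e T)) :
    H.edgeSet.ncard ≤ 2 * k := by
  obtain ⟨bag, h1, h2, h3⟩ := h
  refine edges_le H {w | ∀ x ∈ bag w, x ∉ Br N s e} ?_ ?_
  · intro w w' hw
    by_contra hcon
    rw [not_or] at hcon
    obtain ⟨ha, hb⟩ := hcon
    simp only [Set.mem_ofPred_eq, not_forall, not_not] at ha hb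
    obtain ⟨b, hb1, hb2⟩ := ha
    obtain ⟨b', hb1', hb2'⟩ := hb
    have hne : w ≠ w' := H.ne_of_adj hw
    have hbb : b ≠ b' := by
      rintro rfl
      exact Set.disjoint_left.1 (h1 w w' hne) hb1 hb1'
    obtain ⟨z, hz, hzw⟩ := h2 w
    obtain ⟨z', hz', hzw'⟩ := h2 w'
    obtain ⟨x, hx, y, hy, hxy⟩ := h3 w w' hw
    obtain ⟨p1, hp1, -⟩ := hzw b hb1
    obtain ⟨p2, hp2, -⟩ := hzw x hx
    obtain ⟨p3, hp3, -⟩ := hzw' y hy
    obtain ⟨p4, hp4, -⟩ := hzw' b' hb1'
    have := branch_dist e T hb2 hb2' hbb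
      (((p1.reverse.append p2).append (SimpleGraph.Walk.cons hxy p3.reverse)).append p4)
    simp only [SimpleGraph.Walk.length_append, SimpleGraph.Walk.length_reverse,
      SimpleGraph.Walk.length_cons] at this
    omega
  · intro w hw
    refine bag_degree (lift N s e T) H bag h1 w ?_ (fun w' hw' => h3 w w' hw') ?_
    · obtain ⟨z, hz, hzw⟩ := h2 w
      refine ⟨z, hz, fun x hx => ?_⟩
      obtain ⟨p, -, hp⟩ := hzw x hx
      exact ⟨p, hp⟩
    · intro x hx
      exact degree_le_two e T x (hw x hx)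

end Pool.Agent.Helper9.STPG2
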