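import Pool.Agent.Helper9.STP.XC
import Pool.Agent.Helper9.STP.G2
import Pool.Agent.Helper53.STPS1
import Pool.Agent.Helper71.STPS2

/-!
# The class of comb graphs
-/

namespace Pool.Agent.Helper9.SpTree

open Finset
open scoped Classical

/-- base vertex set of the comb graphs in the class -/
abbrev Base (L : ℕ) : Type := Fin (2 ^ (40 * L)) ⊕ Fin (2 ^ (40 * L)) ⊕ Fin (2 ^ (40 * L))

/-- number of base vertices -/
def NN3 (L : ℕ) : ℕ := 3 * 2 ^ (40 * L)

/-- the class of all graphs isomorphic to a comb graph over `Base L` with spacing `1`, `L ≥ L1` -/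
def combClass (L1 : ℕ) : GraphClass where
  mem m G := ∃ L : ℕ, L1 ≤ L ∧ ∃ e : Base L ≃ Fin (NN3 L),
    Nonempty (lift (NN3 L) 1 e (⊤ : SimpleGraph (Base L)) ≃g G)
  iso := by
    rintro m G H ⟨φ⟩ ⟨L, hL, e, ⟨ψ⟩⟩
    exact ⟨L, hL, e, ⟨φ.comp ψ⟩⟩

theorem base_card (L : ℕ) : Fintype.card (Base L) = NN3 L := by
  simp only [Base, Fintype.card_sum, Fintype.card_fin, NN3]
  ring

theorem nn3_pos (L : ℕ) : 0 < NN3 L := by unfold NN3; positivity

theorem comb_card (L : ℕ) : Nat.card (CV (Base L) (NN3 L) 1) = 2 * NN3 L ^ 2 := by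
  rw [Nat.card_eq_fintype_card]
  unfold CV
  rw [Fintype.card_sum, Fintype.card_prod, Fintype.card_prod, Fintype.card_prod, base_card,
    Fintype.card_fin, Fintype.card_fin]
  ring

theorem card_of_iso {L m : ℕ} {e : Base L ≃ Fin (NN3 L)} {G : SimpleGraph (Fin m)}
    (ψ : lift (NN3 L) 1 e (⊤ : SimpleGraph (Base L)) ≃g G) : m = 2 * NN3 L ^ 2 := by
  rw [← comb_card L, Nat.card_congr ψ.toEquiv, Nat.card_eq_fintype_card, Fintype.card_fin]

theorem ncard_neighborSet_iso {V V' : Type} {G : SimpleGraph V} {G' : SimpleGraph V'}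
    (φ : G ≃g G') (v : V') : (G'.neighborSet v).ncard = (G.neighborSet (φ.symm v)).ncard := by
  rw [← Nat.card_coe_set_eq, ← Nat.card_coe_set_eq]
  refine Nat.card_congr (Equiv.symm ?_)
  have h := φ.mapNeighborSet (φ.symm v)
  rw [RelIso.apply_symm_apply] at h
  exact h

theorem class_degree (L1 : ℕ) (n : ℕ) (G : SimpleGraph (Fin n)) (h : (combClass L1).mem n G)
    (v : Fin n) : (G.neighborSet v).ncard ≤ 3 := by
  obtain ⟨L, hL, e, ⟨ψ⟩⟩ := h
  rw [ncard_neighborSet_iso ψ v]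
  exact Pool.Agent.Helper9.STPG2.comb_degree e _ _

theorem class_connected (L1 : ℕ) (n : ℕ) (G : SimpleGraph (Fin n)) (h : (combClass L1).mem n G) :
    G.Connected := by
  obtain ⟨L, hL, e, ⟨ψ⟩⟩ := h
  exact ψ.connected_iff.1 (Pool.Agent.Helper9.STPG2.comb_connected one_pos (nn3_pos L) e)

theorem class_sep (L1 : ℕ) : SublinearSeparators (combClass L1) := by
  refine ⟨5, 1 / 2, by norm_num, by norm_num, ?_⟩
  rintro n G ⟨L, hL, e, ⟨ψ⟩⟩ H
  obtain ⟨φ, h1, h2⟩ := comb_map (s := 1) one_pos e (⊤ : SimpleGraph (Base L))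
  refine Pool.Agent.Helper53.STPS1.sep_of_map G (fun v => φ (ψ.symm v)) ?_ ?_ H
  · intro u v huv
    exact h1 _ _ (ψ.symm.map_rel_iff.2 huv)
  · intro p
    have h3 := h2 p
    have h4 : {v : Fin n | φ (ψ.symm v) = p} = ψ '' {v | φ v = p} := by
      ext v
      simp only [Set.mem_ofPred_eq, Set.mem_image]
      constructor
      · intro hv
        exact ⟨ψ.symm v, hv, by simp⟩
      · rintro ⟨w, hw, rfl⟩
        simpa using hw
    rw [h4]
    exact (Set.ncard_image_le (Set.toFinite _)).trans h3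

theorem class_exp (L1 : ℕ) : BoundedExpansion (combClass L1) := by
  refine ⟨fun r => ((3 * (3 + 1) ^ r : ℕ) : ℝ), ?_⟩
  intro r n G hG k H hH
  have := expansion_of_degree G (class_degree L1 n G hG) H hH
  change (H.edgeSet.ncard : ℝ) ≤ ((3 * (3 + 1) ^ r : ℕ) : ℝ) * k
  exact_mod_cast this

theorem class_density (L1 : ℕ) : BoundedDensity (combClass L1) := by
  refine ⟨3 / 2, ?_⟩
  intro n G hG H
  have := Pool.Agent.Helper9.STPG2.density_of_degree G (class_degree L1 n G hG) H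
  have h : (2 : ℝ) * H.edgeSet.ncard ≤ 3 * H.verts.ncard := by exact_mod_cast this
  linarith

theorem exists_member (L1 L : ℕ) (hL : L1 ≤ L) :
    ∃ G : SimpleGraph (Fin (2 * NN3 L ^ 2)), (combClass L1).mem _ G := by
  have e : Base L ≃ Fin (NN3 L) := Fintype.equivFinOfCardEq (base_card L)
  have f : CV (Base L) (NN3 L) 1 ≃ Fin (2 * NN3 L ^ 2) :=
    Fintype.equivFinOfCardEq (by rw [← Nat.card_eq_fintype_card]; exact comb_card L)
  exact ⟨(lift (NN3 L) 1 e (⊤ : SimpleGraph (Base L))).map f.toEmbedding, L, hL, e,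
    ⟨SimpleGraph.Iso.map f _⟩⟩

theorem main : ∃ L1 : ℕ, 1 ≤ L1 ∧ ∀ n (G : SimpleGraph (Fin n)) (r : ℕ), (combClass L1).mem n G →
    HasExt (STP G) r → (1 / 129600 : ℝ) * (n * Real.sqrt (Real.log n)) ≤ r := by
  obtain ⟨L0, hL0⟩ := numeric
  refine ⟨max L0 3, by omega, ?_⟩
  rintro n G r ⟨L, hL, e, ⟨ψ⟩⟩ hr
  obtain ⟨ε, hε0, hε, hε1⟩ := hL0 L (by omega)
  have hn := card_of_iso ψ
  have h1 := comb_xc (W := Fin (2 ^ (40 * L))) (X2 := Fin (2 ^ (40 * L)))
    (X1 := Fin (2 ^ (40 * L))) one_pos e L (by omega) (by simp) (by simp) (by simp) ε hε0 hε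
    (by rw [Fintype.card_fin]; exact hε1)
    (Pool.Agent.Helper9.STPG2.HasExt.of_iso ψ.symm hr)
  rw [Fintype.card_fin] at h1
  have hL1 : (1 : ℝ) ≤ L := by
    have : 1 ≤ L := by omega
    exact_mod_cast this
  set a : ℝ := ((2 ^ (40 * L) : ℕ) : ℝ) with ha
  have ha0 : 0 < a := by rw [ha]; positivity
  have hn' : (n : ℝ) = 18 * a ^ 2 := by
    rw [hn, ha]
    unfold NN3
    push_cast
    ring
  have hlog : Real.log n ≤ 64 * L := by
    have h2 : (n : ℝ) ≤ 2 ^ (85 * L) := by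
      rw [hn', ha]
      push_cast
      have h3 : (18 : ℝ) ≤ 2 ^ (5 * L) := by
        calc (18 : ℝ) ≤ 2 ^ (5 * 1) := by norm_num
          _ ≤ 2 ^ (5 * L) := pow_le_pow_right₀ (by norm_num) (by omega)
      calc (18 : ℝ) * (2 ^ (40 * L)) ^ 2 = 18 * 2 ^ (80 * L) := by
            rw [← pow_mul]; congr 2; ring
        _ ≤ 2 ^ (5 * L) * 2 ^ (80 * L) := mul_le_mul_of_nonneg_right h3 (by positivity)
        _ = 2 ^ (85 * L) := by rw [← pow_add]; congr 1; ring
    calc Real.log n ≤ Real.log (2 ^ (85 * L)) := Real.log_le_log (by rw [hn']; positivity) h2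
      _ = (85 * L) * Real.log 2 := by rw [Real.log_pow]; push_cast; ring
      _ ≤ 64 * L := by
          have := Real.log_two_lt_d9
          nlinarith
  have hsq : Real.sqrt (Real.log n) ≤ 8 * Real.sqrt L := by
    calc Real.sqrt (Real.log n) ≤ Real.sqrt (64 * L) := Real.sqrt_le_sqrt hlog
      _ = 8 * Real.sqrt L := by
          rw [Real.sqrt_mul (by norm_num)]
          congr 1
          rw [show (64 : ℝ) = 8 ^ 2 by norm_num]
          exact Real.sqrt_sq (by norm_num)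
  calc (1 / 129600 : ℝ) * (n * Real.sqrt (Real.log n)) ≤
      (1 / 129600 : ℝ) * (n * (8 * Real.sqrt L)) := by
        have : (0 : ℝ) ≤ n := by positivity
        gcongr
    _ = (1 / 900) * (Real.sqrt L * a * a) := by rw [hn']; ring
    _ ≤ r := by linarith

theorem result_aux : ∃ 𝒢 : GraphClass,
    SublinearSeparators 𝒢 ∧ BoundedExpansion 𝒢 ∧ BoundedDegree 𝒢 ∧ BoundedDensity 𝒢 ∧
    (∀ n G, 𝒢.mem n G → G.Connected) ∧ (∀ m : ℕ, ∃ n G, m ≤ n ∧ 𝒢.mem n G) ∧
    (∃ c : ℝ, 0 < c ∧ ∀ n G r, 𝒢.mem n G → HasExt (STP G) r →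
      c * (n * Real.sqrt (Real.log n)) ≤ r) ∧
    ¬ LinearXC 𝒢 := by
  obtain ⟨L1, hL1, hmain⟩ := main
  have hconn := class_connected L1
  refine ⟨combClass L1, class_sep L1, class_exp L1, ⟨3, class_degree L1⟩, class_density L1,
    hconn, ?_, ⟨1 / 129600, by norm_num, hmain⟩, ?_⟩
  · intro m
    obtain ⟨G, hG⟩ := exists_member L1 (max L1 m) (le_max_left _ _)
    refine ⟨_, G, ?_, hG⟩
    have h1 : m < 2 ^ m := Nat.lt_two_pow_self
    have h2 : 2 ^ m ≤ 2 ^ (40 * max L1 m) := Nat.pow_le_pow_right (by norm_num) (by omega)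
    have h3 : 2 ^ (40 * max L1 m) ≤ NN3 (max L1 m) := by unfold NN3; omega
    nlinarith
  · rintro ⟨C, hC⟩
    obtain ⟨K, hK⟩ := exists_nat_gt ((129600 * C) ^ 2)
    set L := max L1 K with hLdef
    obtain ⟨G, hG⟩ := exists_member L1 L (le_max_left _ _)
    obtain ⟨r, hr, hrC⟩ := hC _ G hG (hconn _ G hG)
    have h1 := hmain _ G r hG hr
    set n : ℕ := 2 * NN3 L ^ 2 with hn
    have hn0 : (0 : ℝ) < n := by
      have : 0 < n := by rw [hn]; have := nn3_pos L; positivity
      exact_mod_cast this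
    have h2 : Real.sqrt (Real.log n) ≤ 129600 * C := by
      have h3 : (1 / 129600 : ℝ) * (n * Real.sqrt (Real.log n)) ≤ C * n := h1.trans hrC
      have h4 : n * Real.sqrt (Real.log n) ≤ n * (129600 * C) := by linarith
      exact le_of_mul_le_mul_left h4 hn0
    have h5 : (K : ℝ) ≤ Real.log n := by
      have h6 : (2 : ℝ) ^ (80 * K) ≤ n := by
        have a1 : 2 ^ (40 * K) ≤ NN3 L := by
          unfold NN3
          have : 2 ^ (40 * K) ≤ 2 ^ (40 * L) := Nat.pow_le_pow_right (by norm_num) (by omega)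
          omega
        have a2 : (2 ^ (40 * K)) ^ 2 ≤ n := by
          have := Nat.pow_le_pow_left a1 2
          rw [hn]
          omega
        have a3 : (2 : ℕ) ^ (80 * K) ≤ n := by
          calc 2 ^ (80 * K) = (2 ^ (40 * K)) ^ 2 := by rw [← pow_mul]; congr 1; ring
            _ ≤ n := a2
        exact_mod_cast a3
      have h7 : (80 * K) * Real.log 2 ≤ Real.log n := by
        have := Real.log_le_log (by positivity) h6
        rw [Real.log_pow] at this
        push_cast at this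
        exact this
      have h8 := Real.log_two_gt_d9
      have hK0 : (0 : ℝ) ≤ K := by positivity
      nlinarith
    have h9 : (0 : ℝ) ≤ Real.sqrt (Real.log n) := Real.sqrt_nonneg _
    have hK0 : (0 : ℝ) ≤ K := by positivity
    have h10 : Real.log n ≤ (129600 * C) ^ 2 := by
      have : Real.sqrt (Real.log n) ^ 2 = Real.log n := Real.sq_sqrt (hK0.trans h5)
      rw [← this]
      exact pow_le_pow_left₀ h9 h2 2
    linarith

end Pool.Agent.Helper9.SpTree
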