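import Pool.Agent.Helper9.STP.ProbLib2

/-!
# The inner lemma
-/

namespace Pool.Agent.Helper9.SpTree

open Finset
open scoped Classical

section calculus

/-- the multi-scale weight -/
noncomputable def mm (J x : ℕ) : ℝ := min ((x : ℝ) / J) ((J : ℝ) / x)

theorem mm_nonneg (J x : ℕ) : 0 ≤ mm J x := le_min (by positivity) (by positivity)

theorem mm_le_one (J x : ℕ) : mm J x ≤ 1 := by
  unfold mm
  rcases le_total (x : ℝ) J with h | h
  · exact (min_le_left _ _).trans (div_le_one_of_le₀ h (by positivity))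
  · exact (min_le_right _ _).trans (div_le_one_of_le₀ h (by positivity))

theorem geo1 (a : ℝ) (ha : 0 < a) (L : ℕ) :
    ∑ t ∈ range L, (if (2 : ℝ) ^ t < a then (2 : ℝ) ^ t else 0) ≤ 2 * a := by
  have h : (∑ t ∈ range L, (if (2 : ℝ) ^ t < a then (2 : ℝ) ^ t else 0) ≤ 2 * a) ∧
      (∑ t ∈ range L, (if (2 : ℝ) ^ t < a then (2 : ℝ) ^ t else 0) ≤ 2 ^ L) := by
    induction L with
    | zero => simp; linarith
    | succ L ih =>
      rw [Finset.sum_range_succ]
      have h2 : (0 : ℝ) < 2 ^ L := by positivity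
      have h3 : (2 : ℝ) ^ (L + 1) = 2 * 2 ^ L := by ring
      split_ifs with hlt
      · constructor
        · linarith [ih.2]
        · rw [h3]; linarith [ih.2]
      · constructor
        · linarith [ih.1]
        · rw [h3]; linarith [ih.2]
  exact h.1

theorem geo2 (a : ℝ) (ha : 0 < a) (L : ℕ) :
    ∑ t ∈ range L, (if a ≤ (2 : ℝ) ^ t then a / (2 : ℝ) ^ t else 0) ≤ 2 := by
  have h : ∑ t ∈ range L, (if a ≤ (2 : ℝ) ^ t then a / (2 : ℝ) ^ t else 0) ≤
      max 0 (2 - 2 * a / 2 ^ L) := by
    induction L with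
    | zero => simp
    | succ L ih =>
      rw [Finset.sum_range_succ]
      have h2 : (0 : ℝ) < 2 ^ L := by positivity
      have h3 : 2 * a / (2 : ℝ) ^ (L + 1) = a / 2 ^ L := by
        rw [pow_succ]; field_simp
      have h4 : 2 * a / (2 : ℝ) ^ L = 2 * (a / 2 ^ L) := by ring
      rw [h3]
      rw [h4] at ih
      split_ifs with hle
      · have h5 : a / 2 ^ L ≤ 1 := (div_le_one h2).2 hle
        rw [max_eq_right (by linarith)] at ih
        exact le_max_of_le_right (by linarith)
      · push Not at hle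
        have h5 : 1 < a / 2 ^ L := (one_lt_div h2).2 hle
        rw [max_eq_left (by linarith)] at ih
        exact le_max_of_le_left (by linarith)
  refine h.trans ?_
  have : 0 ≤ 2 * a / 2 ^ L := by positivity
  exact max_le (by norm_num) (by linarith)

theorem sum_mm (t0 L x : ℕ) : ∑ t ∈ range L, mm (2 ^ (t0 + t)) x ≤ 4 := by
  rcases Nat.eq_zero_or_pos x with hx | hx
  · subst hx
    simp [mm]
  · have hx' : (0 : ℝ) < x := by exact_mod_cast hx
    set a : ℝ := x / 2 ^ t0 with ha
    have ha0 : 0 < a := by positivity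
    have h : ∀ t ∈ range L, mm (2 ^ (t0 + t)) x ≤
        (if a ≤ (2 : ℝ) ^ t then a / (2 : ℝ) ^ t else 0) +
        (if (2 : ℝ) ^ t < a then (2 : ℝ) ^ t else 0) / a := by
      intro t _
      unfold mm
      have e1 : (x : ℝ) / ((2 ^ (t0 + t) : ℕ) : ℝ) = a / 2 ^ t := by
        rw [ha]; push_cast; rw [pow_add]; field_simp
      have e2 : ((2 ^ (t0 + t) : ℕ) : ℝ) / (x : ℝ) = 2 ^ t / a := by
        rw [ha]; push_cast; rw [pow_add]; field_simp
      rw [e1, e2]
      by_cases hle : a ≤ 2 ^ t
      · rw [if_pos hle, if_neg (not_lt.2 hle)]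
        simpa using Or.inl le_rfl
      · rw [if_neg hle, if_pos (not_le.1 hle)]
        simpa using Or.inr le_rfl
    calc _ ≤ ∑ t ∈ range L, ((if a ≤ (2 : ℝ) ^ t then a / (2 : ℝ) ^ t else 0) +
        (if (2 : ℝ) ^ t < a then (2 : ℝ) ^ t else 0) / a) := Finset.sum_le_sum h
      _ = (∑ t ∈ range L, (if a ≤ (2 : ℝ) ^ t then a / (2 : ℝ) ^ t else 0)) +
        (∑ t ∈ range L, (if (2 : ℝ) ^ t < a then (2 : ℝ) ^ t else 0)) / a := by
          rw [Finset.sum_add_distrib, Finset.sum_div]
      _ ≤ 2 + 2 * a / a := by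
          gcongr
          · exact geo2 a ha0 L
          · exact geo1 a ha0 L
      _ = 4 := by field_simp; norm_num

theorem exp_bound (z : ℝ) (hz : 0 < z) : z * Real.exp (-(z / 4)) ≤ 32 * min z (1 / z) := by
  have h1 : Real.exp (-(z / 4)) ≤ 1 := Real.exp_le_one_iff.2 (by linarith)
  have h2 : z ^ 2 * Real.exp (-(z / 4)) ≤ 32 := by
    have h3 := Real.quadratic_le_exp_of_nonneg (x := z / 4) (by positivity)
    rw [Real.exp_neg, ← div_eq_mul_inv, div_le_iff₀ (Real.exp_pos _)]
    nlinarith [sq_nonneg z]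
  rcases le_total z (1 / z) with h | h
  · rw [min_eq_left h]
    nlinarith [Real.exp_pos (-(z / 4))]
  · rw [min_eq_right h]
    have : z * Real.exp (-(z / 4)) = (z ^ 2 * Real.exp (-(z / 4))) * (1 / z) := by
      field_simp
    rw [this]
    apply mul_le_mul_of_nonneg_right h2 (by positivity)

/-- pointwise bound for `x (1-2ρ)^k` -/
theorem point_bound (J x k t0 : ℕ) (hJ : 0 < J) (ht0 : 2 ^ t0 ≤ J) :
    (x : ℝ) * (1 - 2 * rho J) ^ k ≤ 32 * (J * mm J x) +
      (if 4 * k < x ∧ 2 ^ t0 ≤ x then (x : ℝ) else 0) := by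
  have h0 := rho_nonneg J hJ
  have h1 := rho_le_half J hJ
  have h2 := rho_lower J hJ
  have hJ' : (0 : ℝ) < J := by exact_mod_cast hJ
  have hm := mm_nonneg J x
  have hp1 : (1 - 2 * rho J) ^ k ≤ 1 := pow_le_one₀ (by linarith) (by linarith)
  have hp0 : 0 ≤ (1 - 2 * rho J) ^ k := pow_nonneg (by linarith) _
  rcases Nat.eq_zero_or_pos x with hx | hx
  · subst hx
    have : 0 ≤ 32 * ((J : ℝ) * mm J 0) := by positivity
    simp only [Nat.cast_zero, zero_mul]
    split_ifs <;> linarith
  have hx' : (0 : ℝ) < x := by exact_mod_cast hx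
  by_cases hc : 4 * k < x ∧ 2 ^ t0 ≤ x
  · rw [if_pos hc]
    have : 0 ≤ 32 * ((J : ℝ) * mm J x) := by positivity
    nlinarith
  · rw [if_neg hc, add_zero]
    rw [not_and_or, not_lt, not_le] at hc
    rcases hc with hc | hc
    · -- 4k ≥ x
      have e1 : (1 - 2 * rho J) ^ k ≤ Real.exp (-((x : ℝ) / J / 4)) := by
        have e2 : 1 - 2 * rho J ≤ Real.exp (-(1 / (J : ℝ))) := by
          have e3 : 1 / (J : ℝ) ≤ 2 * rho J := by
            rw [div_le_iff₀ hJ']; linarith
          have := Real.add_one_le_exp (-(1 / (J : ℝ)))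
          linarith
        calc (1 - 2 * rho J) ^ k ≤ Real.exp (-(1 / (J : ℝ))) ^ k :=
              pow_le_pow_left₀ (by linarith) e2 k
          _ = Real.exp (-((k : ℝ) / J)) := by
              rw [← Real.exp_nat_mul]; congr 1; ring
          _ ≤ _ := by
              apply Real.exp_le_exp.2
              have : (x : ℝ) ≤ 4 * k := by exact_mod_cast hc
              have h5 : (x : ℝ) / J / 4 ≤ k / J := by
                rw [div_div, div_le_div_iff₀ (by positivity) hJ']
                nlinarith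
              linarith
      have e4 := exp_bound ((x : ℝ) / J) (by positivity)
      have e5 : mm J x = min ((x : ℝ) / J) (1 / ((x : ℝ) / J)) := by
        unfold mm
        rw [one_div_div]
      rw [← e5] at e4
      calc (x : ℝ) * (1 - 2 * rho J) ^ k ≤ x * Real.exp (-((x : ℝ) / J / 4)) := by gcongr
        _ = J * ((x : ℝ) / J * Real.exp (-((x : ℝ) / J / 4))) := by field_simp
        _ ≤ J * (32 * mm J x) := by gcongr
        _ = _ := by ring
    · -- x < 2^t0 ≤ J
      have hxJ : (x : ℝ) ≤ J := by exact_mod_cast (hc.trans_le ht0).le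
      have e1 : mm J x = (x : ℝ) / J := by
        unfold mm
        apply min_eq_left
        rw [div_le_div_iff₀ hJ' hx']
        nlinarith
      rw [e1]
      have : (J : ℝ) * ((x : ℝ) / J) = x := by field_simp
      rw [this]
      nlinarith

end calculus

end Pool.Agent.Helper9.SpTree
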