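import Pool.Agent.Helper9.STP.Inner

/-!
# The inner lemma: the good case
-/

namespace Pool.Agent.Helper9.SpTree

open Finset
open scoped Classical

section abstractGood

variable {W X : Type} [Fintype W] [Fintype X]

/-- joint probability -/
noncomputable def QQ (D E : (X → Bool) → Prop) (J : ℕ) : ℝ :=
  ∑ B : X → Bool, ∑ Y : X → Bool, qw (rho J) B Y * (if D B ∧ E Y then 1 else 0)

theorem QQ_nonneg (D E : (X → Bool) → Prop) (J : ℕ) (hJ : 0 < J) : 0 ≤ QQ D E J := by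
  unfold QQ
  refine Finset.sum_nonneg fun B _ => Finset.sum_nonneg fun Y _ => ?_
  refine mul_nonneg (qw_nonneg (rho_nonneg J hJ) (rho_le_half J hJ) B Y) ?_
  split_ifs <;> norm_num

theorem QQ_le (D E : (X → Bool) → Prop) (J : ℕ) (hJ : 0 < J) : QQ D E J ≤ Pr (1 / 2) E := by
  unfold QQ Pr
  rw [Finset.sum_comm]
  refine Finset.sum_le_sum fun Y _ => ?_
  have hq := fun B => qw_nonneg (rho_nonneg J hJ) (rho_le_half J hJ) B Y
  calc ∑ B : X → Bool, qw (rho J) B Y * (if D B ∧ E Y then 1 else 0)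
      ≤ ∑ B : X → Bool, qw (rho J) B Y * (if E Y then 1 else 0) := by
        refine Finset.sum_le_sum fun B _ => mul_le_mul_of_nonneg_left ?_ (hq B)
        by_cases h1 : D B <;> by_cases h2 : E Y <;> simp [h1, h2]
    _ = bw (1 / 2) Y * (if E Y then 1 else 0) := by
        rw [← Finset.sum_mul, sum_qw_left]
    _ = _ := by split_ifs <;> simp

theorem sum_Pr_disj (E : W → (X → Bool) → Prop)
    (hdisj : ∀ v v' Y, E v Y → E v' Y → v = v') (G : Finset W) :
    ∑ v ∈ G, Pr (1 / 2) (E v) = Pr (1 / 2) (fun Y => ∃ v ∈ G, E v Y) := by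
  unfold Pr
  rw [Finset.sum_comm]
  refine Finset.sum_congr rfl fun Y _ => ?_
  by_cases h : ∃ v ∈ G, E v Y
  · rw [if_pos h]
    obtain ⟨v, hv, hE⟩ := h
    rw [Finset.sum_eq_single v]
    · rw [if_pos hE]
    · intro b _ hb
      rw [if_neg]
      intro hb'
      exact hb (hdisj _ _ _ hb' hE)
    · intro h'; exact absurd hv h'
  · rw [if_neg h]
    refine Finset.sum_eq_zero fun v hv => ?_
    rw [if_neg]
    intro h'
    exact h ⟨v, hv, h'⟩

theorem lemK1 (D E : W → (X → Bool) → Prop) (m : W → ℝ) (hm : ∀ v, 0 ≤ m v) (J : ℕ) (hJ : 0 < J)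
    (hdisj : ∀ v v' Y, E v Y → E v' Y → v = v') (H : Finset W) :
    (J : ℝ) * ∑ v ∈ H, m v * QQ (D v) (E v) J ≤
      Real.sqrt (∑ v ∈ H, m v ^ 2 * Pr (1 / 2) (E v)) *
        (1 + J * Pr (rho J) (fun B => ∃ v ∈ H, D v B)) := by
  have hb := bb2 J hJ (fun B : X → Bool => ∃ v ∈ H, D v B)
    (fun Y => ∑ v ∈ H, if E v Y then m v else 0)
    (fun Y => Finset.sum_nonneg fun v _ => by split_ifs; exacts [hm v, le_rfl])
  have hq := fun B Y : X → Bool => qw_nonneg (rho_nonneg J hJ) (rho_le_half J hJ) B Y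
  have h1 : ∑ v ∈ H, m v * QQ (D v) (E v) J ≤
      ∑ B : X → Bool, ∑ Y : X → Bool, qw (rho J) B Y *
        (if ∃ v ∈ H, D v B then ∑ v ∈ H, (if E v Y then m v else 0) else 0) := by
    unfold QQ
    have e1 : ∑ v ∈ H, m v * ∑ B : X → Bool, ∑ Y : X → Bool,
        qw (rho J) B Y * (if D v B ∧ E v Y then 1 else 0) =
        ∑ B : X → Bool, ∑ Y : X → Bool, ∑ v ∈ H,
          m v * (qw (rho J) B Y * (if D v B ∧ E v Y then 1 else 0)) := by
      simp_rw [Finset.mul_sum]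
      rw [Finset.sum_comm]
      refine Finset.sum_congr rfl fun B _ => ?_
      rw [Finset.sum_comm]
    rw [e1]
    refine Finset.sum_le_sum fun B _ => Finset.sum_le_sum fun Y _ => ?_
    by_cases h : ∃ v ∈ H, D v B
    · rw [if_pos h, Finset.mul_sum]
      refine Finset.sum_le_sum fun v _ => ?_
      have := mul_nonneg (hm v) (hq B Y)
      by_cases hd : D v B <;> by_cases he : E v Y <;> simp [hd, he] <;> linarith
    · rw [if_neg h, mul_zero]
      refine (Finset.sum_eq_zero fun v hv => ?_).le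
      rw [if_neg, mul_zero, mul_zero]
      intro h'
      exact h ⟨v, hv, h'.1⟩
  have h2 : ∑ Y : X → Bool, bw (1 / 2) Y * (∑ v ∈ H, if E v Y then m v else 0) ^ 2 =
      ∑ v ∈ H, m v ^ 2 * Pr (1 / 2) (E v) := by
    unfold Pr
    simp_rw [Finset.mul_sum]
    rw [Finset.sum_comm]
    refine Finset.sum_congr rfl fun Y _ => ?_
    by_cases h : ∃ v ∈ H, E v Y
    · obtain ⟨v, hv, hE⟩ := h
      rw [Finset.sum_eq_single v, Finset.sum_eq_single v]
      · rw [if_pos hE, if_pos hE]; ring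
      · intro b _ hb
        rw [if_neg, mul_zero]
        intro hb'
        exact hb (hdisj _ _ _ hb' hE)
      · intro h'; exact absurd hv h'
      · intro b _ hb
        rw [if_neg]
        intro hb'
        exact hb (hdisj _ _ _ hb' hE)
      · intro h'; exact absurd hv h'
    · have e0 : ∀ v ∈ H, ¬ E v Y := fun v hv hE => h ⟨v, hv, hE⟩
      rw [Finset.sum_eq_zero (fun v hv => if_neg (e0 v hv)),
        Finset.sum_eq_zero (fun v hv => by rw [if_neg (e0 v hv), mul_zero])]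
      simp
  rw [h2] at hb
  refine le_trans ?_ hb
  refine mul_le_mul_of_nonneg_left (h1.trans (le_of_eq ?_)) (by positivity)
  refine Finset.sum_congr rfl fun B _ => Finset.sum_congr rfl fun Y _ => ?_
  congr

theorem lemBB (D E : W → (X → Bool) → Prop) (J : ℕ) (hJ : 0 < J)
    (hdisj : ∀ v v' Y, E v Y → E v' Y → v = v')
    (hZ : ∀ v v' B Y, D v B → E v' Y → v ≠ v' → ¬ B ≤ Y) (G : Finset W) :
    ∑ v ∈ Gᶜ, Pr (1 / 2) (E v) ≤ Real.exp (-(J * Pr (rho J) (fun B => ∃ v ∈ G, D v B))) := by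
  rw [sum_Pr_disj E hdisj]
  have h := bb1 J hJ (fun B : X → Bool => ∃ v ∈ G, D v B) (fun Y => ∃ v ∈ Gᶜ, E v Y) (by
    rintro B C hBC ⟨v', hv', hE⟩ ⟨v, hv, hD⟩
    refine hZ v v' B C hD hE ?_ hBC
    rintro rfl
    exact (Finset.mem_compl.1 hv') hv)
  refine h.trans ?_
  have h0 := rho_nonneg J hJ
  have hr1 : rho J ≤ 1 := by linarith [rho_le_half J hJ]
  have hP1 := Pr_le_one h0 hr1 (fun B : X → Bool => ∃ v ∈ G, D v B)
  have e := Real.add_one_le_exp (-(Pr (rho J) (fun B : X → Bool => ∃ v ∈ G, D v B)))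
  calc (1 - Pr (rho J) (fun B : X → Bool => ∃ v ∈ G, D v B)) ^ J ≤
        Real.exp (-(Pr (rho J) (fun B : X → Bool => ∃ v ∈ G, D v B))) ^ J :=
        pow_le_pow_left₀ (by linarith) (by linarith) J
    _ = _ := by rw [← Real.exp_nat_mul]; congr 1; ring

theorem sq_exp_bound (l : ℝ) (hl : 0 ≤ l) : (1 + l) ^ 2 * Real.exp (-l) ≤ 4 := by
  have h := Real.quadratic_le_exp_of_nonneg hl
  rw [Real.exp_neg, ← div_eq_mul_inv, div_le_iff₀ (Real.exp_pos _)]
  nlinarith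

/-- sum over the scales for a set `H` of labels -/
theorem lemKS (D E : W → (X → Bool) → Prop) (x : W → ℕ) (t0 L : ℕ)
    (hdisj : ∀ v v' Y, E v Y → E v' Y → v = v') (H : Finset W) (K : ℝ)
    (hK : ∀ t < L, (∑ v ∈ H, Pr (1 / 2) (E v)) *
      (1 + ((2 ^ (t0 + t) : ℕ) : ℝ) * Pr (rho (2 ^ (t0 + t))) (fun B => ∃ v ∈ H, D v B)) ^ 2 ≤ K) :
    ∑ t ∈ range L, ((2 ^ (t0 + t) : ℕ) : ℝ) *
        ∑ v ∈ H, mm (2 ^ (t0 + t)) (x v) * QQ (D v) (E v) (2 ^ (t0 + t)) ≤
      2 * Real.sqrt (K * L) := by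
  set y : W → ℝ := fun v => Pr (1 / 2) (E v) with hy
  have hy0 : ∀ v, 0 ≤ y v := fun v => Pr_nonneg (by norm_num) (by norm_num) _
  set a : ℕ → ℝ := fun t => Real.sqrt (∑ v ∈ H, mm (2 ^ (t0 + t)) (x v) ^ 2 * y v) with ha
  set b : ℕ → ℝ := fun t => 1 + ((2 ^ (t0 + t) : ℕ) : ℝ) *
    Pr (rho (2 ^ (t0 + t))) (fun B => ∃ v ∈ H, D v B) with hb
  have hJ : ∀ t, 0 < 2 ^ (t0 + t) := fun t => by positivity
  have h1 : ∑ t ∈ range L, ((2 ^ (t0 + t) : ℕ) : ℝ) *
        ∑ v ∈ H, mm (2 ^ (t0 + t)) (x v) * QQ (D v) (E v) (2 ^ (t0 + t)) ≤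
      ∑ t ∈ range L, a t * b t :=
    Finset.sum_le_sum fun t _ => lemK1 D E _ (fun v => mm_nonneg _ _) _ (hJ t) hdisj H
  have h2 : (∑ t ∈ range L, a t * b t) ^ 2 ≤ (∑ t ∈ range L, a t ^ 2) * ∑ t ∈ range L, b t ^ 2 :=
    Finset.sum_mul_sq_le_sq_mul_sq _ _ _
  have h3 : ∑ t ∈ range L, a t ^ 2 ≤ 4 * ∑ v ∈ H, y v := by
    have e1 : ∀ t, a t ^ 2 = ∑ v ∈ H, mm (2 ^ (t0 + t)) (x v) ^ 2 * y v := by
      intro t
      rw [ha]
      exact Real.sq_sqrt (Finset.sum_nonneg fun v _ => mul_nonneg (sq_nonneg _) (hy0 v))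
    simp_rw [e1]
    rw [Finset.sum_comm, Finset.mul_sum]
    refine Finset.sum_le_sum fun v _ => ?_
    rw [← Finset.sum_mul]
    refine mul_le_mul_of_nonneg_right ?_ (hy0 v)
    refine le_trans (Finset.sum_le_sum fun t _ => ?_) (sum_mm t0 L (x v))
    have := mm_nonneg (2 ^ (t0 + t)) (x v)
    have := mm_le_one (2 ^ (t0 + t)) (x v)
    nlinarith
  have h4 : (∑ v ∈ H, y v) * ∑ t ∈ range L, b t ^ 2 ≤ K * L := by
    rw [Finset.mul_sum]
    calc ∑ t ∈ range L, (∑ v ∈ H, y v) * b t ^ 2 ≤ ∑ t ∈ range L, K :=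
          Finset.sum_le_sum fun t ht => hK t (Finset.mem_range.1 ht)
      _ = K * L := by rw [Finset.sum_const, Finset.card_range, nsmul_eq_mul]; ring
  have h5 : 0 ≤ ∑ t ∈ range L, b t ^ 2 := Finset.sum_nonneg fun t _ => sq_nonneg _
  have h6 : (∑ t ∈ range L, a t * b t) ^ 2 ≤ 4 * (K * L) := by
    calc _ ≤ _ := h2
      _ ≤ (4 * ∑ v ∈ H, y v) * ∑ t ∈ range L, b t ^ 2 := mul_le_mul_of_nonneg_right h3 h5
      _ = 4 * ((∑ v ∈ H, y v) * ∑ t ∈ range L, b t ^ 2) := by ring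
      _ ≤ _ := by linarith
  refine h1.trans ?_
  have h7 : ∑ t ∈ range L, a t * b t ≤ Real.sqrt (4 * (K * L)) := Real.le_sqrt_of_sq_le h6
  have h8 : Real.sqrt (4 * (K * L)) = 2 * Real.sqrt (K * L) := by
    rw [Real.sqrt_mul (by norm_num)]
    congr 1
    rw [show (4 : ℝ) = 2 ^ 2 by norm_num]
    exact Real.sqrt_sq (by norm_num)
  linarith

/-- the good case -/
theorem good_case (D E : W → (X → Bool) → Prop) (x : W → ℕ) (t0 L : ℕ)
    (hdisj : ∀ v v' Y, E v Y → E v' Y → v = v')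
    (hZ : ∀ v v' B Y, D v B → E v' Y → v ≠ v' → ¬ B ≤ Y)
    (hgood : ∀ v, ∀ t < L, Pr (1 / 2) (E v) ≤
      Real.exp (1 - ((2 ^ (t0 + t) : ℕ) : ℝ) * Pr (rho (2 ^ (t0 + t))) (D v))) :
    ∑ t ∈ range L, ((2 ^ (t0 + t) : ℕ) : ℝ) *
        ∑ v : W, mm (2 ^ (t0 + t)) (x v) * QQ (D v) (E v) (2 ^ (t0 + t)) ≤
      13 * Real.sqrt L := by
  set y : W → ℝ := fun v => Pr (1 / 2) (E v) with hy
  have hy0 : ∀ v, 0 ≤ y v := fun v => Pr_nonneg (by norm_num) (by norm_num) _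
  have hJ : ∀ t, 0 < 2 ^ (t0 + t) := fun t => by positivity
  set β : ℝ := ∑ v : W, y v with hβ
  have hβ0 : 0 ≤ β := Finset.sum_nonneg fun v _ => hy0 v
  -- general step
  have step : ∀ G : Finset W, (∑ v ∈ G, y v ≤ 2 * ∑ v ∈ Gᶜ, y v) →
      ∑ t ∈ range L, ((2 ^ (t0 + t) : ℕ) : ℝ) *
        ∑ v ∈ G, mm (2 ^ (t0 + t)) (x v) * QQ (D v) (E v) (2 ^ (t0 + t)) ≤
      2 * Real.sqrt (8 * L) := by
    intro G hG
    refine lemKS D E x t0 L hdisj G 8 fun t _ => ?_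
    have h1 := lemBB D E (2 ^ (t0 + t)) (hJ t) hdisj hZ G
    set l := ((2 ^ (t0 + t) : ℕ) : ℝ) * Pr (rho (2 ^ (t0 + t))) (fun B => ∃ v ∈ G, D v B) with hl
    have hl0 : 0 ≤ l := by
      rw [hl]
      refine mul_nonneg (by positivity) (Pr_nonneg (rho_nonneg _ (hJ t)) ?_ _)
      linarith [rho_le_half _ (hJ t)]
    have h2 := sq_exp_bound l hl0
    have h3 : (∑ v ∈ G, y v) ≤ 2 * Real.exp (-l) := by linarith
    calc (∑ v ∈ G, y v) * (1 + l) ^ 2 ≤ (2 * Real.exp (-l)) * (1 + l) ^ 2 :=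
          mul_le_mul_of_nonneg_right h3 (sq_nonneg _)
      _ = 2 * ((1 + l) ^ 2 * Real.exp (-l)) := by ring
      _ ≤ 8 := by linarith
  have s8 : Real.sqrt (8 * L) ≤ 3 * Real.sqrt L := by
    rw [Real.sqrt_mul (by norm_num)]
    apply mul_le_mul_of_nonneg_right _ (Real.sqrt_nonneg _)
    rw [Real.sqrt_le_left (by norm_num)]
    norm_num
  have s4 : Real.sqrt (9 * L) = 3 * Real.sqrt L := by
    rw [Real.sqrt_mul (by norm_num)]
    congr 1
    rw [show (9 : ℝ) = 3 ^ 2 by norm_num]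
    exact Real.sqrt_sq (by norm_num)
  have split : ∀ (G : Finset W) (t : ℕ),
      ((2 ^ (t0 + t) : ℕ) : ℝ) *
        ∑ v : W, mm (2 ^ (t0 + t)) (x v) * QQ (D v) (E v) (2 ^ (t0 + t)) =
      ((2 ^ (t0 + t) : ℕ) : ℝ) *
        ∑ v ∈ G, mm (2 ^ (t0 + t)) (x v) * QQ (D v) (E v) (2 ^ (t0 + t)) +
      ((2 ^ (t0 + t) : ℕ) : ℝ) *
        ∑ v ∈ Gᶜ, mm (2 ^ (t0 + t)) (x v) * QQ (D v) (E v) (2 ^ (t0 + t)) := by
    intro G t
    rw [← mul_add, Finset.sum_add_sum_compl]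
  have ysplit : ∀ G : Finset W, ∑ v ∈ G, y v + ∑ v ∈ Gᶜ, y v = β := fun G =>
    Finset.sum_add_sum_compl G y
  by_cases hA : ∀ v, 3 * y v ≤ 2 * β
  · -- there is a balanced set
    obtain ⟨G, hG1, hG2⟩ : ∃ G : Finset W, β ≤ 3 * ∑ v ∈ G, y v ∧ 3 * ∑ v ∈ G, y v ≤ 2 * β := by
      have hne : (univ.filter fun G : Finset W => β ≤ 3 * ∑ v ∈ G, y v).Nonempty :=
        ⟨univ, by simp only [Finset.mem_filter, Finset.mem_univ, true_and]; linarith⟩
      obtain ⟨G, hG, hmin⟩ := Finset.exists_min_image _ (fun G : Finset W => G.card) hne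
      simp only [Finset.mem_filter, Finset.mem_univ, true_and] at hG hmin
      refine ⟨G, hG, ?_⟩
      by_contra hcon
      push Not at hcon
      have hpos : ∀ v ∈ G, 3 * ∑ u ∈ G.erase v, y u < β := by
        intro v hv
        by_contra hc
        push Not at hc
        have := hmin _ hc
        rw [Finset.card_erase_of_mem hv] at this
        have := Finset.card_pos.2 ⟨v, hv⟩
        omega
      have hGne : G.Nonempty := by
        rw [Finset.nonempty_iff_ne_empty]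
        rintro rfl
        simp at hcon
        linarith
      obtain ⟨v, hv⟩ := hGne
      have e1 := Finset.add_sum_erase G y hv
      have e2 := hpos v hv
      by_cases hw : ∃ w ∈ G, w ≠ v
      · obtain ⟨w, hw, hwv⟩ := hw
        have e3 := Finset.add_sum_erase G y hw
        have e4 := hpos w hw
        have e5 : y w ≤ ∑ u ∈ G.erase v, y u :=
          Finset.single_le_sum (f := y) (fun u _ => hy0 u) (Finset.mem_erase.2 ⟨hwv, hw⟩)
        linarith
      · have e6 : G.erase v = ∅ := by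
          rw [Finset.eq_empty_iff_forall_notMem]
          intro w hw'
          rw [Finset.mem_erase] at hw'
          exact hw ⟨w, hw'.2, hw'.1⟩
        rw [e6, Finset.sum_empty] at e1
        linarith [hA v]
    have hsum := ysplit G
    have hc : Gᶜᶜ = G := compl_compl G
    have k1 := step G (by linarith)
    have k2 := step Gᶜ (by rw [hc]; linarith)
    calc _ = ∑ t ∈ range L, (((2 ^ (t0 + t) : ℕ) : ℝ) *
        ∑ v ∈ G, mm (2 ^ (t0 + t)) (x v) * QQ (D v) (E v) (2 ^ (t0 + t)) +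
      ((2 ^ (t0 + t) : ℕ) : ℝ) *
        ∑ v ∈ Gᶜ, mm (2 ^ (t0 + t)) (x v) * QQ (D v) (E v) (2 ^ (t0 + t))) :=
          Finset.sum_congr rfl fun t _ => split G t
      _ ≤ 13 * Real.sqrt L := by
          rw [Finset.sum_add_distrib]
          have := Real.sqrt_nonneg (L : ℝ)
          linarith
  · push Not at hA
    obtain ⟨v0, hv0⟩ := hA
    have hsum := ysplit {v0}
    rw [Finset.sum_singleton] at hsum
    have hcompl0 : 0 ≤ ∑ v ∈ ({v0} : Finset W)ᶜ, y v := Finset.sum_nonneg fun v _ => hy0 v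
    have k1 := step ({v0} : Finset W)ᶜ (by rw [compl_compl, Finset.sum_singleton]; linarith)
    have k2 : ∑ t ∈ range L, ((2 ^ (t0 + t) : ℕ) : ℝ) *
        ∑ v ∈ ({v0} : Finset W), mm (2 ^ (t0 + t)) (x v) * QQ (D v) (E v) (2 ^ (t0 + t)) ≤
      2 * Real.sqrt (12 * L) := by
      refine lemKS D E x t0 L hdisj {v0} 12 fun t ht => ?_
      have h1 := hgood v0 t ht
      have hex : (fun B : X → Bool => ∃ v ∈ ({v0} : Finset W), D v B) = D v0 := by
        funext B; simp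
      rw [hex, Finset.sum_singleton]
      set l := ((2 ^ (t0 + t) : ℕ) : ℝ) * Pr (rho (2 ^ (t0 + t))) (D v0) with hl
      have hl0 : 0 ≤ l := by
        rw [hl]
        refine mul_nonneg (by positivity) (Pr_nonneg (rho_nonneg _ (hJ t)) ?_ _)
        linarith [rho_le_half _ (hJ t)]
      have h2 := sq_exp_bound l hl0
      have h3 : Real.exp (1 - l) = Real.exp 1 * Real.exp (-l) := by
        rw [← Real.exp_add]; congr 1
      have h4 := Real.exp_one_lt_d9
      have h5 : 0 ≤ (1 + l) ^ 2 * Real.exp (-l) := by positivity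
      calc y v0 * (1 + l) ^ 2 ≤ Real.exp (1 - l) * (1 + l) ^ 2 :=
            mul_le_mul_of_nonneg_right h1 (sq_nonneg _)
        _ = Real.exp 1 * ((1 + l) ^ 2 * Real.exp (-l)) := by rw [h3]; ring
        _ ≤ 2.7182818286 * ((1 + l) ^ 2 * Real.exp (-l)) :=
            mul_le_mul_of_nonneg_right h4.le h5
        _ ≤ 12 := by linarith
    have s12 : Real.sqrt (12 * L) ≤ 3.5 * Real.sqrt L := by
      rw [Real.sqrt_mul (by norm_num)]
      apply mul_le_mul_of_nonneg_right _ (Real.sqrt_nonneg _)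
      rw [Real.sqrt_le_left (by norm_num)]
      norm_num
    calc _ = ∑ t ∈ range L, (((2 ^ (t0 + t) : ℕ) : ℝ) *
        ∑ v ∈ ({v0} : Finset W), mm (2 ^ (t0 + t)) (x v) * QQ (D v) (E v) (2 ^ (t0 + t)) +
      ((2 ^ (t0 + t) : ℕ) : ℝ) *
        ∑ v ∈ ({v0} : Finset W)ᶜ, mm (2 ^ (t0 + t)) (x v) * QQ (D v) (E v) (2 ^ (t0 + t))) :=
          Finset.sum_congr rfl fun t _ => split {v0} t
      _ ≤ 13 * Real.sqrt L := by
          rw [Finset.sum_add_distrib]
          have := Real.sqrt_nonneg (L : ℝ)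
          linarith

end abstractGood

end Pool.Agent.Helper9.SpTree
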