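import Pool.Agent.Helper9.STP.Inner2

/-!
# The inner lemma: reduction and final bounds
-/

namespace Pool.Agent.Helper9.SpTree

open Finset
open scoped Classical

section reduction

variable {W X : Type} [Fintype W] [Fintype X]

/-- the points used by the label `v` -/
noncomputable def NN (T : W → (X → Bool) → X → Prop) (v : W) : X → Bool :=
  fun p => decide (∃ Y, T v Y p)

/-- the active sets of the label `v` -/
def YY (T : W → (X → Bool) → X → Prop) (v : W) (Y : X → Bool) : Prop :=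
  (∃ p, T v Y p) ∧ ∀ v', v' ≠ v → ¬ ∃ p, T v' Y p

/-- the row sets of the label `v`, after resampling on the points used by `v` -/
def DD (U : W → (X → Bool) → Prop) (T : W → (X → Bool) → X → Prop) (v : W) (B : X → Bool) : Prop :=
  U v (B \ NN T v)

/-- the sum to be bounded -/
noncomputable def SS (U : W → (X → Bool) → Prop) (T : W → (X → Bool) → X → Prop) (J : ℕ) : ℝ :=
  ∑ v : W, ∑ B : X → Bool, ∑ Y : X → Bool, qw (rho J) B Y *
    (if U v B then ((univ.filter fun p => T v Y p).card : ℝ) else 0)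

variable (U : W → (X → Bool) → Prop) (T : W → (X → Bool) → X → Prop)

theorem red1 (J : ℕ) (hJ : 0 < J)
    (Z1 : ∀ v B Y p, U v B → T v Y p → B p = false)
    (Z2 : ∀ v v' B Y p, U v B → T v' Y p → v ≠ v' → ¬ B ≤ Y) :
    SS U T J ≤ ∑ v : W, ∑ B : X → Bool, ∑ Y : X → Bool, qw (rho J) B Y *
      (if U v B ∧ (∀ x, B x = true → NN T v x = false) then
        (if YY T v Y then (bcard (NN T v) : ℝ) else 0) else 0) := by
  unfold SS
  refine Finset.sum_le_sum fun v _ => Finset.sum_le_sum fun B _ => Finset.sum_le_sum fun Y _ => ?_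
  by_cases hBY : B ≤ Y
  swap
  · rw [qw_eq_zero hBY, zero_mul, zero_mul]
  refine mul_le_mul_of_nonneg_left ?_ (qw_nonneg (rho_nonneg J hJ) (rho_le_half J hJ) B Y)
  by_cases hU : U v B
  swap
  · rw [if_neg hU, if_neg (fun h => hU h.1)]
  rw [if_pos hU]
  by_cases hp : ∃ p, T v Y p
  · have h1 : ∀ x, B x = true → NN T v x = false := by
      intro x hx
      unfold NN
      rw [decide_eq_false_iff_not]
      rintro ⟨Y', hY'⟩
      rw [Z1 v B Y' x hU hY'] at hx
      exact Bool.false_ne_true hx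
    have h2 : YY T v Y := by
      refine ⟨hp, ?_⟩
      rintro v' hv' ⟨p, hp'⟩
      exact Z2 v v' B Y p hU hp' hv'.symm hBY
    rw [if_pos ⟨hU, h1⟩, if_pos h2]
    unfold bcard
    exact_mod_cast Finset.card_le_card (by
      intro p hp
      simp only [Finset.mem_filter, Finset.mem_univ, true_and] at hp ⊢
      unfold NN
      simp only [decide_eq_true_eq]
      exact ⟨Y, hp⟩)
  · have h3 : (univ.filter fun p => T v Y p) = ∅ := by
      rw [Finset.filter_eq_empty_iff]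
      intro p _ hpT
      exact hp ⟨p, hpT⟩
    rw [h3]
    simp only [Finset.card_empty, Nat.cast_zero]
    split_ifs <;> positivity

theorem exc (J t0 : ℕ) (hJ : 0 < J) (ε : ℝ) (hε0 : 0 ≤ ε)
    (hε : ∀ x : ℕ, 2 ^ t0 ≤ x → (x : ℝ) * (9 / 10) ^ x ≤ ε) (N : X → Bool) :
    ∑ B : X → Bool, ∑ Y : X → Bool, qw (rho J) B Y *
      (if 4 * bcard (Y ⊓ N) < bcard N ∧ 2 ^ t0 ≤ bcard N then (bcard N : ℝ) else 0) ≤ ε := by
  rw [Finset.sum_comm]
  have h1 : ∀ Y : X → Bool, ∑ B : X → Bool, qw (rho J) B Y *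
      (if 4 * bcard (Y ⊓ N) < bcard N ∧ 2 ^ t0 ≤ bcard N then (bcard N : ℝ) else 0) =
      bw (1 / 2) Y *
      (if 4 * bcard (Y ⊓ N) < bcard N ∧ 2 ^ t0 ≤ bcard N then (bcard N : ℝ) else 0) := by
    intro Y
    rw [← Finset.sum_mul, sum_qw_left]
  simp_rw [h1]
  by_cases h : 2 ^ t0 ≤ bcard N
  · have h2 : ∑ Y : X → Bool, bw (1 / 2) Y *
      (if 4 * bcard (Y ⊓ N) < bcard N ∧ 2 ^ t0 ≤ bcard N then (bcard N : ℝ) else 0) =
      bcard N * Pr (1 / 2) (fun Y : X → Bool => 4 * bcard (Y ⊓ N) < bcard N) := by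
      unfold Pr
      rw [Finset.mul_sum]
      refine Finset.sum_congr rfl fun Y _ => ?_
      by_cases h' : 4 * bcard (Y ⊓ N) < bcard N
      · rw [if_pos ⟨h', h⟩, if_pos h']; ring
      · rw [if_neg (fun h'' => h' h''.1), if_neg h']; ring
    rw [h2]
    calc _ ≤ (bcard N : ℝ) * (9 / 10) ^ bcard N :=
          mul_le_mul_of_nonneg_left (chernoff N) (by positivity)
      _ ≤ ε := hε _ h
  · refine le_trans (Finset.sum_nonpos fun Y _ => ?_) hε0
    rw [if_neg (fun h' => h h'.2), mul_zero]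

theorem red (J t0 : ℕ) (hJ : 0 < J) (ht0 : 2 ^ t0 ≤ J) (ε : ℝ) (hε0 : 0 ≤ ε)
    (hε : ∀ x : ℕ, 2 ^ t0 ≤ x → (x : ℝ) * (9 / 10) ^ x ≤ ε)
    (Z1 : ∀ v B Y p, U v B → T v Y p → B p = false)
    (Z2 : ∀ v v' B Y p, U v B → T v' Y p → v ≠ v' → ¬ B ≤ Y) :
    SS U T J ≤ 32 * ((J : ℝ) * ∑ v : W, mm J (bcard (NN T v)) * QQ (DD U T v) (YY T v) J) +
      Fintype.card W * ε := by
  refine (red1 U T J hJ Z1 Z2).trans ?_
  have hq := fun B Y : X → Bool => qw_nonneg (rho_nonneg J hJ) (rho_le_half J hJ) B Y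
  calc _ = ∑ v : W, ∑ B : X → Bool, ∑ Y : X → Bool, qw (rho J) B Y *
      (if U v (B \ NN T v) then (if YY T v Y then (bcard (NN T v) : ℝ) else 0) *
        (1 - 2 * rho J) ^ bcard (Y ⊓ NN T v) else 0) := by
        refine Finset.sum_congr rfl fun v _ => ?_
        exact f3 (rho J) (NN T v) (U v) (fun Y => if YY T v Y then (bcard (NN T v) : ℝ) else 0)
    _ ≤ ∑ v : W, (∑ B : X → Bool, ∑ Y : X → Bool,
          32 * ((J : ℝ) * mm J (bcard (NN T v))) *
            (qw (rho J) B Y * (if DD U T v B ∧ YY T v Y then 1 else 0)) +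
        ∑ B : X → Bool, ∑ Y : X → Bool, qw (rho J) B Y *
          (if 4 * bcard (Y ⊓ NN T v) < bcard (NN T v) ∧ 2 ^ t0 ≤ bcard (NN T v) then
            (bcard (NN T v) : ℝ) else 0)) := by
        refine Finset.sum_le_sum fun v _ => ?_
        rw [← Finset.sum_add_distrib]
        refine Finset.sum_le_sum fun B _ => ?_
        rw [← Finset.sum_add_distrib]
        refine Finset.sum_le_sum fun Y _ => ?_
        have hpb := point_bound J (bcard (NN T v)) (bcard (Y ⊓ NN T v)) t0 hJ ht0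
        have hm : 0 ≤ 32 * ((J : ℝ) * mm J (bcard (NN T v))) :=
          mul_nonneg (by norm_num) (mul_nonneg (by positivity) (mm_nonneg _ _))
        have hexc : (0 : ℝ) ≤ (if 4 * bcard (Y ⊓ NN T v) < bcard (NN T v) ∧
            2 ^ t0 ≤ bcard (NN T v) then (bcard (NN T v) : ℝ) else 0) := by
          split_ifs <;> positivity
        set exc := (if 4 * bcard (Y ⊓ NN T v) < bcard (NN T v) ∧
            2 ^ t0 ≤ bcard (NN T v) then (bcard (NN T v) : ℝ) else 0) with hexcd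
        have key : (if U v (B \ NN T v) then (if YY T v Y then (bcard (NN T v) : ℝ) else 0) *
            (1 - 2 * rho J) ^ bcard (Y ⊓ NN T v) else 0) ≤
            32 * ((J : ℝ) * mm J (bcard (NN T v))) * (if DD U T v B ∧ YY T v Y then 1 else 0) +
              exc := by
          by_cases h1 : U v (B \ NN T v)
          · have h1' : DD U T v B := h1
            by_cases h2 : YY T v Y
            · rw [if_pos h1, if_pos h2, if_pos ⟨h1', h2⟩, mul_one]
              exact hpb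
            · rw [if_pos h1, if_neg h2, if_neg (fun h => h2 h.2), mul_zero, zero_mul, zero_add]
              exact hexc
          · rw [if_neg h1, if_neg (fun h => h1 h.1), mul_zero, zero_add]
            exact hexc
        calc _ ≤ qw (rho J) B Y * (32 * ((J : ℝ) * mm J (bcard (NN T v))) *
                (if DD U T v B ∧ YY T v Y then 1 else 0) + exc) :=
              mul_le_mul_of_nonneg_left key (hq B Y)
          _ = _ := by ring
    _ ≤ ∑ v : W, (32 * ((J : ℝ) * mm J (bcard (NN T v))) * QQ (DD U T v) (YY T v) J + ε) := by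
        refine Finset.sum_le_sum fun v _ => add_le_add (le_of_eq ?_) ?_
        · unfold QQ
          simp_rw [Finset.mul_sum]
        · exact exc J t0 hJ ε hε0 hε (NN T v)
    _ = _ := by
        rw [Finset.sum_add_distrib, Finset.sum_const, nsmul_eq_mul, Finset.card_univ]
        congr 1
        simp_rw [Finset.mul_sum]
        refine Finset.sum_congr rfl fun v _ => ?_
        ring

theorem YY_disj (v v' : W) (Y : X → Bool) (h : YY T v Y) (h' : YY T v' Y) : v = v' := by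
  by_contra hne
  exact h.2 v' (Ne.symm hne) h'.1

theorem DD_Z (Z2 : ∀ v v' B Y p, U v B → T v' Y p → v ≠ v' → ¬ B ≤ Y)
    (v v' : W) (B Y : X → Bool) (h : DD U T v B) (h' : YY T v' Y) (hne : v ≠ v') : ¬ B ≤ Y := by
  intro hBY
  obtain ⟨p, hp⟩ := h'.1
  refine Z2 v v' _ Y p h hp hne ?_
  intro x
  have := hBY x
  have e : (B \ NN T v) x ≤ B x := by
    simp only [Pi.sdiff_apply]
    exact sdiff_le
  exact e.trans this

theorem inner_good (t0 L : ℕ) (hL : 1 ≤ L) (ε : ℝ) (hε0 : 0 ≤ ε)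
    (hε : ∀ x : ℕ, 2 ^ t0 ≤ x → (x : ℝ) * (9 / 10) ^ x ≤ ε)
    (hε1 : L * (Fintype.card W * ε) ≤ 1)
    (Z1 : ∀ v B Y p, U v B → T v Y p → B p = false)
    (Z2 : ∀ v v' B Y p, U v B → T v' Y p → v ≠ v' → ¬ B ≤ Y)
    (hgood : ∀ v, ∀ t < L, ∀ N : X → Bool, Pr (1 / 2) (fun Y => ∃ p, T v Y p) ≤
      Real.exp (1 - ((2 ^ (t0 + t) : ℕ) : ℝ) * Pr (rho (2 ^ (t0 + t))) (fun B => U v (B \ N)))) :
    ∑ t ∈ range L, SS U T (2 ^ (t0 + t)) ≤ 417 * Real.sqrt L := by
  have hJ : ∀ t, 0 < 2 ^ (t0 + t) := fun t => by positivity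
  have h1 := good_case (DD U T) (YY T) (fun v => bcard (NN T v)) t0 L (YY_disj T)
    (DD_Z U T Z2) (fun v t ht => by
      refine le_trans ?_ (hgood v t ht (NN T v))
      exact Pr_mono (by norm_num) (by norm_num) (fun Y hY => hY.1))
  have h2 : (1 : ℝ) ≤ Real.sqrt L := by
    rw [Real.one_le_sqrt]
    exact_mod_cast hL
  calc ∑ t ∈ range L, SS U T (2 ^ (t0 + t)) ≤ ∑ t ∈ range L,
      (32 * (((2 ^ (t0 + t) : ℕ) : ℝ) * ∑ v : W, mm (2 ^ (t0 + t)) (bcard (NN T v)) *
        QQ (DD U T v) (YY T v) (2 ^ (t0 + t))) + Fintype.card W * ε) :=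
        Finset.sum_le_sum fun t _ => red U T (2 ^ (t0 + t)) t0 (hJ t)
          (Nat.pow_le_pow_right (by norm_num) (by omega)) ε hε0 hε Z1 Z2
    _ = 32 * ∑ t ∈ range L, (((2 ^ (t0 + t) : ℕ) : ℝ) * ∑ v : W,
          mm (2 ^ (t0 + t)) (bcard (NN T v)) *
        QQ (DD U T v) (YY T v) (2 ^ (t0 + t))) + L * (Fintype.card W * ε) := by
        rw [Finset.sum_add_distrib, Finset.mul_sum, Finset.sum_const, Finset.card_range,
          nsmul_eq_mul]
    _ ≤ _ := by linarith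

theorem inner_all (t0 L : ℕ) (ε : ℝ) (hε0 : 0 ≤ ε)
    (hε : ∀ x : ℕ, 2 ^ t0 ≤ x → (x : ℝ) * (9 / 10) ^ x ≤ ε)
    (hε1 : L * (Fintype.card W * ε) ≤ 1)
    (Z1 : ∀ v B Y p, U v B → T v Y p → B p = false)
    (Z2 : ∀ v v' B Y p, U v B → T v' Y p → v ≠ v' → ¬ B ≤ Y) :
    ∑ t ∈ range L, SS U T (2 ^ (t0 + t)) ≤ 33 * 2 ^ (t0 + L) := by
  have hJ : ∀ t, 0 < 2 ^ (t0 + t) := fun t => by positivity
  have h1 : ∀ t, ∑ v : W, mm (2 ^ (t0 + t)) (bcard (NN T v)) *
      QQ (DD U T v) (YY T v) (2 ^ (t0 + t)) ≤ 1 := by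
    intro t
    calc _ ≤ ∑ v : W, Pr (1 / 2) (YY T v) := by
          refine Finset.sum_le_sum fun v _ => ?_
          have e1 := QQ_le (DD U T v) (YY T v) _ (hJ t)
          have e2 := QQ_nonneg (DD U T v) (YY T v) _ (hJ t)
          have e3 := mm_le_one (2 ^ (t0 + t)) (bcard (NN T v))
          nlinarith
      _ = Pr (1 / 2) (fun Y => ∃ v ∈ (univ : Finset W), YY T v Y) := sum_Pr_disj _ (YY_disj T) _
      _ ≤ 1 := Pr_le_one (by norm_num) (by norm_num) _
  have h2 : ∑ t ∈ range L, (2 : ℝ) ^ (t0 + t) ≤ 2 ^ (t0 + L) := by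
    have : ∀ t, (2 : ℝ) ^ (t0 + t) = 2 ^ t0 * 2 ^ t := fun t => pow_add _ _ _
    simp_rw [this]
    rw [← Finset.mul_sum, geom_sum_eq (by norm_num)]
    have h0 : (0 : ℝ) < 2 ^ t0 := by positivity
    refine mul_le_mul_of_nonneg_left ?_ h0.le
    norm_num
  have h3 : (1 : ℝ) ≤ 2 ^ (t0 + L) := one_le_pow₀ (by norm_num)
  calc ∑ t ∈ range L, SS U T (2 ^ (t0 + t)) ≤ ∑ t ∈ range L,
      (32 * (((2 ^ (t0 + t) : ℕ) : ℝ) * ∑ v : W, mm (2 ^ (t0 + t)) (bcard (NN T v)) *
        QQ (DD U T v) (YY T v) (2 ^ (t0 + t))) + Fintype.card W * ε) :=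
        Finset.sum_le_sum fun t _ => red U T (2 ^ (t0 + t)) t0 (hJ t)
          (Nat.pow_le_pow_right (by norm_num) (by omega)) ε hε0 hε Z1 Z2
    _ ≤ ∑ t ∈ range L, (32 * (2 : ℝ) ^ (t0 + t) + Fintype.card W * ε) := by
        refine Finset.sum_le_sum fun t _ => ?_
        have e1 := h1 t
        have e2 : (0 : ℝ) < 2 ^ (t0 + t) := by positivity
        push_cast
        have e3 := mul_le_mul_of_nonneg_left e1 e2.le
        linarith
    _ = 32 * ∑ t ∈ range L, (2 : ℝ) ^ (t0 + t) + L * (Fintype.card W * ε) := by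
        rw [Finset.sum_add_distrib, Finset.mul_sum, Finset.sum_const, Finset.card_range,
          nsmul_eq_mul]
    _ ≤ _ := by linarith

end reduction

end Pool.Agent.Helper9.SpTree
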