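import Mathlib

/-!
# Probability library (finite, by hand) for the spanning tree polytope lower bound

Subsets of a finite type `X` are Boolean functions `X → Bool` (ordered pointwise).
-/

namespace Pool.Agent.Helper9.SpTree

open Finset
open scoped Classical

/-- product weight of a Boolean vector: each coordinate is `true` with weight `p` -/
noncomputable def bw {X : Type} [Fintype X] (p : ℝ) (B : X → Bool) : ℝ :=
  ∏ x, (if B x = true then p else 1 - p)

/-- probability of an event for a `p`-random subset of `X` -/
noncomputable def Pr {X : Type} [Fintype X] (p : ℝ) (D : (X → Bool) → Prop) : ℝ :=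
  ∑ B : X → Bool, if D B then bw p B else 0

/-- joint weight of a pair `B ≤ Y`: `Y` is a `1/2`-random subset and `B` a random subset of `Y`;
each coordinate lies in `B` (and in `Y`) with weight `ρ`. -/
noncomputable def qw {X : Type} [Fintype X] (ρ : ℝ) (B Y : X → Bool) : ℝ :=
  ∏ x, (if B x = true then (if Y x = true then ρ else 0)
        else (if Y x = true then 1 / 2 - ρ else 1 / 2))

/-- the density of one of `J` independent pieces whose union is `1/2`-random -/
noncomputable def rho (J : ℕ) : ℝ := 1 - (1 / 2 : ℝ) ^ ((1 : ℝ) / (J : ℝ))

/-- cardinality of a Boolean set -/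
def bcard {X : Type} [Fintype X] (N : X → Bool) : ℕ := (univ.filter fun x => N x = true).card

end Pool.Agent.Helper9.SpTree
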