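import Pool.Agent.Helper9.STP.Prob

/-!
# Probability library: proofs
-/

namespace Pool.Agent.Helper9.SpTree

open Finset
open scoped Classical

section rho

theorem rho_pow (J : ℕ) (hJ : 0 < J) : (1 - rho J) ^ J = 1 / 2 := by
  unfold rho
  rw [sub_sub_cancel, ← Real.rpow_natCast, ← Real.rpow_mul (by norm_num)]
  have : (J : ℝ) ≠ 0 := by exact_mod_cast hJ.ne'
  rw [one_div_mul_cancel this, Real.rpow_one]

theorem rho_nonneg (J : ℕ) (hJ : 0 < J) : 0 ≤ rho J := by
  unfold rho
  rw [sub_nonneg]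
  exact Real.rpow_le_one (by norm_num) (by norm_num) (by positivity)

theorem rho_le_half (J : ℕ) (hJ : 0 < J) : rho J ≤ 1 / 2 := by
  have h : (1 / 2 : ℝ) ^ (1 : ℝ) ≤ (1 / 2 : ℝ) ^ ((1 : ℝ) / (J : ℝ)) := by
    apply Real.rpow_le_rpow_of_exponent_ge (by norm_num) (by norm_num)
    rw [div_le_one (by exact_mod_cast hJ)]
    exact_mod_cast hJ
  rw [Real.rpow_one] at h
  unfold rho
  linarith

theorem rho_lower (J : ℕ) (hJ : 0 < J) : 1 ≤ 2 * J * rho J := by
  have h := one_add_mul_le_pow (a := -rho J) (by linarith [rho_le_half J hJ]) J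
  have h2 := rho_pow J hJ
  rw [sub_eq_add_neg] at h2
  rw [h2] at h
  linarith

theorem rho_upper (J : ℕ) (hJ : 0 < J) : J * rho J ≤ 1 := by
  have h0 := rho_nonneg J hJ
  have h1 := rho_le_half J hJ
  have h := one_add_mul_le_pow (a := rho J) (by linarith) J
  have h2 := rho_pow J hJ
  have h3 : ((1 - rho J) * (1 + rho J)) ^ J ≤ 1 := by
    apply pow_le_one₀
    · apply mul_nonneg <;> linarith
    · nlinarith
  rw [mul_pow, h2] at h3
  nlinarith

end rho

section basic

variable {X S T : Type} [Fintype X] [Fintype S] [Fintype T]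

theorem sum_prod {X S : Type} [Fintype X] [DecidableEq X] [Fintype S] (f : X → S → ℝ) : ∑ φ : X → S, ∏ x, f x (φ x) = ∏ x, ∑ s, f x s := by
  rw [Finset.prod_univ_sum]
  simp

/-- push-forward of a product measure under a coordinatewise map -/
theorem sum_prod_comp (u : X → S → ℝ) (h : X → S → T) (F : (X → T) → ℝ) :
    ∑ φ : X → S, (∏ x, u x (φ x)) * F (fun x => h x (φ x)) =
      ∑ ψ : X → T, (∏ x, ∑ s, if h x s = ψ x then u x s else 0) * F ψ := by
  have h1 : ∀ ψ : X → T, (∏ x, ∑ s, if h x s = ψ x then u x s else 0) =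
      ∑ φ : X → S, if (fun x => h x (φ x)) = ψ then ∏ x, u x (φ x) else 0 := by
    intro ψ
    rw [← sum_prod]
    refine Finset.sum_congr rfl fun φ _ => ?_
    by_cases hφ : (fun x => h x (φ x)) = ψ
    · rw [if_pos hφ]
      refine Finset.prod_congr rfl fun x _ => ?_
      rw [if_pos (congrFun hφ x)]
    · rw [if_neg hφ]
      obtain ⟨x, hx⟩ : ∃ x, h x (φ x) ≠ ψ x := by
        by_contra hcon
        push Not at hcon
        exact hφ (funext hcon)
      exact Finset.prod_eq_zero (Finset.mem_univ x) (if_neg hx)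
  simp_rw [h1, Finset.sum_mul]
  rw [Finset.sum_comm]
  refine Finset.sum_congr rfl fun φ _ => ?_
  simp [ite_mul]

theorem bw_nonneg {p : ℝ} (h0 : 0 ≤ p) (h1 : p ≤ 1) (B : X → Bool) : 0 ≤ bw p B := by
  unfold bw
  refine Finset.prod_nonneg fun x _ => ?_
  split_ifs <;> linarith

theorem sum_bw (p : ℝ) : ∑ B : X → Bool, bw p B = 1 := by
  unfold bw
  rw [sum_prod (fun _ b => if b = true then p else 1 - p)]
  simp

theorem qw_nonneg {ρ : ℝ} (h0 : 0 ≤ ρ) (h1 : ρ ≤ 1 / 2) (B Y : X → Bool) : 0 ≤ qw ρ B Y := by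
  unfold qw
  refine Finset.prod_nonneg fun x _ => ?_
  split_ifs <;> linarith

theorem qw_eq_zero {ρ : ℝ} {B Y : X → Bool} (h : ¬ B ≤ Y) : qw ρ B Y = 0 := by
  obtain ⟨x, hx⟩ : ∃ x, ¬ B x ≤ Y x := by
    by_contra hcon
    push Not at hcon
    exact h hcon
  unfold qw
  refine Finset.prod_eq_zero (Finset.mem_univ x) ?_
  cases hb : B x <;> cases hy : Y x <;> simp_all

theorem sum_qw_left (ρ : ℝ) (Y : X → Bool) : ∑ B : X → Bool, qw ρ B Y = bw (1 / 2) Y := by
  unfold qw bw
  rw [sum_prod (fun x b => if b = true then (if Y x = true then ρ else 0)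
        else (if Y x = true then 1 / 2 - ρ else 1 / 2))]
  refine Finset.prod_congr rfl fun x _ => ?_
  cases Y x <;> norm_num

theorem sum_qw_right (ρ : ℝ) (B : X → Bool) : ∑ Y : X → Bool, qw ρ B Y = bw ρ B := by
  unfold qw bw
  rw [sum_prod (fun x y => if B x = true then (if y = true then ρ else 0)
        else (if y = true then 1 / 2 - ρ else 1 / 2))]
  refine Finset.prod_congr rfl fun x _ => ?_
  cases B x <;> norm_num
  ring

theorem Pr_nonneg {p : ℝ} (h0 : 0 ≤ p) (h1 : p ≤ 1) (D : (X → Bool) → Prop) : 0 ≤ Pr p D := by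
  unfold Pr
  refine Finset.sum_nonneg fun B _ => ?_
  split_ifs
  · exact bw_nonneg h0 h1 B
  · exact le_rfl

theorem Pr_mono {p : ℝ} (h0 : 0 ≤ p) (h1 : p ≤ 1) {D D' : (X → Bool) → Prop}
    (h : ∀ B, D B → D' B) : Pr p D ≤ Pr p D' := by
  unfold Pr
  refine Finset.sum_le_sum fun B _ => ?_
  by_cases hB : D B
  · rw [if_pos hB, if_pos (h B hB)]
  · rw [if_neg hB]
    split_ifs
    · exact bw_nonneg h0 h1 B
    · exact le_rfl

theorem Pr_le_one {p : ℝ} (h0 : 0 ≤ p) (h1 : p ≤ 1) (D : (X → Bool) → Prop) : Pr p D ≤ 1 := by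
  calc Pr p D ≤ Pr p (fun _ => True) := Pr_mono h0 h1 (fun _ _ => trivial)
    _ = 1 := by unfold Pr; simp [sum_bw]

theorem Pr_not (p : ℝ) (D : (X → Bool) → Prop) : Pr p (fun B => ¬ D B) = 1 - Pr p D := by
  have h : Pr p (fun B => ¬ D B) + Pr p D = 1 := by
    unfold Pr
    rw [← Finset.sum_add_distrib, ← sum_bw (X := X) p]
    refine Finset.sum_congr rfl fun B _ => ?_
    by_cases hB : D B <;> simp [hB]
  linarith

theorem Pr_or_le {p : ℝ} (h0 : 0 ≤ p) (h1 : p ≤ 1) (D D' : (X → Bool) → Prop) :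
    Pr p (fun B => D B ∨ D' B) ≤ Pr p D + Pr p D' := by
  unfold Pr
  rw [← Finset.sum_add_distrib]
  refine Finset.sum_le_sum fun B _ => ?_
  have := bw_nonneg h0 h1 B
  by_cases h : D B <;> by_cases h' : D' B <;> simp [h, h', this]

theorem Pr_exists_le {p : ℝ} (h0 : 0 ≤ p) (h1 : p ≤ 1) (D : S → (X → Bool) → Prop) :
    Pr p (fun B => ∃ s, D s B) ≤ ∑ s, Pr p (D s) := by
  unfold Pr
  rw [Finset.sum_comm]
  refine Finset.sum_le_sum fun B _ => ?_
  have hb := bw_nonneg h0 h1 B
  by_cases h : ∃ s, D s B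
  · obtain ⟨s, hs⟩ := h
    rw [if_pos ⟨s, hs⟩]
    calc bw p B = (if D s B then bw p B else 0) := by rw [if_pos hs]
      _ ≤ _ := Finset.single_le_sum (f := fun s => if D s B then bw p B else 0)
          (fun s _ => by split_ifs <;> linarith) (Finset.mem_univ s)
  · rw [if_neg h]
    exact Finset.sum_nonneg fun s _ => by split_ifs <;> linarith

/-- splitting off one coordinate -/
theorem sum_bw_update (p : ℝ) (x : X) (F : (X → Bool) → ℝ) :
    ∑ B : X → Bool, bw p B * F B =
      p * ∑ B : X → Bool, bw p B * F (Function.update B x true) +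
      (1 - p) * ∑ B : X → Bool, bw p B * F (Function.update B x false) := by
  have key : ∀ c : Bool, ∑ B : X → Bool, bw p B * F (Function.update B x c) =
      ∑ B : X → Bool, ((if B x = c then 1 else 0) *
        ∏ y ∈ univ.erase x, (if B y = true then p else 1 - p)) * F B := by
    intro c
    have h := sum_prod_comp (X := X) (fun _ b => if b = true then p else 1 - p)
      (fun y b => if y = x then c else b) F
    have h1 : ∀ B : X → Bool, (fun y => if y = x then c else B y) = Function.update B x c := by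
      intro B
      funext y
      by_cases hy : y = x
      · subst hy; simp
      · simp [hy]
    simp_rw [h1] at h
    unfold bw
    rw [h]
    refine Finset.sum_congr rfl fun B _ => ?_
    congr 1
    rw [← Finset.mul_prod_erase univ _ (Finset.mem_univ x)]
    congr 1
    · by_cases hc : c = B x
      · simp [hc]
      · simp [hc, Ne.symm hc]
    · refine Finset.prod_congr rfl fun y hy => ?_
      have hy' : y ≠ x := Finset.ne_of_mem_erase hy
      simp only [if_neg hy']
      cases B y <;> simp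
  rw [key true, key false, Finset.mul_sum, Finset.mul_sum, ← Finset.sum_add_distrib]
  refine Finset.sum_congr rfl fun B _ => ?_
  have : bw p B = (if B x = true then p else 1 - p) *
      ∏ y ∈ univ.erase x, (if B y = true then p else 1 - p) := by
    unfold bw
    rw [← Finset.mul_prod_erase univ _ (Finset.mem_univ x)]
  rw [this]
  cases B x <;> simp <;> ring

/-- complement symmetry of the uniform measure -/
theorem Pr_compl (D : (X → Bool) → Prop) :
    Pr (1 / 2) (fun Y => D (fun x => !(Y x))) = Pr (1 / 2) D := by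
  unfold Pr
  let φ : (X → Bool) ≃ (X → Bool) :=
    ⟨fun Y x => !(Y x), fun Y x => !(Y x), fun Y => by funext x; simp, fun Y => by funext x; simp⟩
  refine Fintype.sum_equiv φ _ _ fun Y => ?_
  have h : bw (1 / 2) (φ Y) = bw (1 / 2) Y := by
    unfold bw
    refine Finset.prod_congr rfl fun x _ => ?_
    show (if (!(Y x)) = true then (1 / 2 : ℝ) else 1 - 1 / 2) = _
    cases Y x <;> norm_num
  show (if D (φ Y) then bw (1 / 2) Y else 0) = _
  rw [h]

/-- the union of a `p`-random and a `q`-random set is `p + q - p q`-random -/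
theorem sum_union (p q : ℝ) (F : (X → Bool) → ℝ) :
    ∑ A : X → Bool, ∑ B : X → Bool, bw p A * bw q B * F (A ⊔ B) =
      ∑ C : X → Bool, bw (p + q - p * q) C * F C := by
  have h := sum_prod_comp (X := X) (S := Bool × Bool)
    (fun _ s => (if s.1 = true then p else 1 - p) * (if s.2 = true then q else 1 - q))
    (fun _ s => s.1 ⊔ s.2) F
  have h3 : ∑ A : X → Bool, ∑ B : X → Bool, bw p A * bw q B * F (A ⊔ B) =
      ∑ φ : X → Bool × Bool, (∏ x, (if (φ x).1 = true then p else 1 - p) *
        (if (φ x).2 = true then q else 1 - q)) * F (fun x => (φ x).1 ⊔ (φ x).2) := by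
    rw [← Fintype.sum_prod_type']
    refine Fintype.sum_equiv
      (Equiv.arrowProdEquivProdArrow X (fun _ => Bool) (fun _ => Bool)).symm _ _ ?_
    rintro ⟨A, B⟩
    unfold bw
    rw [← Finset.prod_mul_distrib]
    rfl
  rw [h3]
  refine h.trans ?_
  refine Finset.sum_congr rfl fun C _ => ?_
  congr 1
  unfold bw
  refine Finset.prod_congr rfl fun x _ => ?_
  rw [Fintype.sum_prod_type]
  cases C x <;> simp <;> ring

/-- **BB1** -/
theorem bb1 (J : ℕ) (hJ : 0 < J) (D Y : (X → Bool) → Prop)
    (h : ∀ B C, B ≤ C → Y C → ¬ D B) :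
    Pr (1 / 2) Y ≤ (1 - Pr (rho J) D) ^ J := by
  have h0 := rho_nonneg J hJ
  have h1 := rho_le_half J hJ
  have hr1 : rho J ≤ 1 := by linarith
  set ρ := rho J with hρ
  have ha : Pr ρ D ≤ 1 := Pr_le_one h0 hr1 D
  have main : ∀ j : ℕ, ∀ Z : (X → Bool) → Prop, (∀ B C, B ≤ C → Z C → ¬ D B) →
      Pr (1 - (1 - ρ) ^ j) Z ≤ (1 - Pr ρ D) ^ j := by
    intro j
    induction j with
    | zero =>
      intro Z _
      simp only [pow_zero]
      apply Pr_le_one <;> norm_num
    | succ j ih =>
      intro Z hZ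
      have hq0 : 0 ≤ 1 - (1 - ρ) ^ j := by
        have : (1 - ρ) ^ j ≤ 1 := pow_le_one₀ (by linarith) (by linarith)
        linarith
      have hq1 : 1 - (1 - ρ) ^ j ≤ 1 := by
        have : 0 ≤ (1 - ρ) ^ j := pow_nonneg (by linarith) _
        linarith
      have e1 : 1 - (1 - ρ) ^ (j + 1) = ρ + (1 - (1 - ρ) ^ j) - ρ * (1 - (1 - ρ) ^ j) := by ring
      have e2 : Pr (1 - (1 - ρ) ^ (j + 1)) Z =
          ∑ A : X → Bool, ∑ B : X → Bool, bw ρ A * bw (1 - (1 - ρ) ^ j) B *
            (if Z (A ⊔ B) then 1 else 0) := by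
        rw [sum_union ρ (1 - (1 - ρ) ^ j) (fun C => if Z C then 1 else 0), ← e1]
        unfold Pr
        simp
      rw [e2]
      have e3 : ∀ A : X → Bool, ∑ B : X → Bool, bw ρ A * bw (1 - (1 - ρ) ^ j) B *
            (if Z (A ⊔ B) then 1 else 0) ≤
          (if ¬ D A then bw ρ A else 0) * (1 - Pr ρ D) ^ j := by
        intro A
        have e4 : ∑ B : X → Bool, bw ρ A * bw (1 - (1 - ρ) ^ j) B *
            (if Z (A ⊔ B) then 1 else 0) =
            bw ρ A * Pr (1 - (1 - ρ) ^ j) (fun B => Z (A ⊔ B)) := by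
          unfold Pr
          rw [Finset.mul_sum]
          refine Finset.sum_congr rfl fun B _ => ?_
          split_ifs <;> ring
        rw [e4]
        by_cases hA : D A
        · rw [if_neg (not_not.mpr hA)]
          have : Pr (1 - (1 - ρ) ^ j) (fun B => Z (A ⊔ B)) = 0 := by
            unfold Pr
            refine Finset.sum_eq_zero fun B _ => ?_
            rw [if_neg]
            intro hzz
            exact hZ A (A ⊔ B) le_sup_left hzz hA
          rw [this]
          simp
        · rw [if_pos hA]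
          apply mul_le_mul_of_nonneg_left _ (bw_nonneg h0 hr1 A)
          apply ih
          intro B C hBC hC
          exact hZ B (A ⊔ C) (le_trans hBC le_sup_right) hC
      calc _ ≤ ∑ A : X → Bool, (if ¬ D A then bw ρ A else 0) * (1 - Pr ρ D) ^ j :=
            Finset.sum_le_sum fun A _ => e3 A
        _ = Pr ρ (fun A => ¬ D A) * (1 - Pr ρ D) ^ j := by
            rw [← Finset.sum_mul]
            congr 1
            unfold Pr
            refine Finset.sum_congr rfl fun A _ => ?_
            by_cases hA : D A <;> simp [hA]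
        _ = (1 - Pr ρ D) ^ (j + 1) := by
            rw [Pr_not]
            ring
  have := main J Y h
  rw [rho_pow J hJ] at this
  norm_num at this
  norm_num
  exact this

end basic

end Pool.Agent.Helper9.SpTree
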