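import Pool.Agent.Helper9.STP.ProbLib

/-!
# Probability library, part 2: pieces, second moments, conditional independence
-/

namespace Pool.Agent.Helper9.SpTree

open Finset
open scoped Classical

section pieces

variable {X : Type} [Fintype X]

/-- union of the pieces -/
noncomputable def unionP {J : ℕ} (ω : Fin J → X → Bool) : X → Bool :=
  fun x => decide (∃ s, ω s x = true)

/-- weight of a family of independent pieces -/
noncomputable def Wt {J : ℕ} (ρ : ℝ) (ω : Fin J → X → Bool) : ℝ := ∏ s, bw ρ (ω s)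

theorem colsum (J : ℕ) (ρ : ℝ) (s0 : Fin J) (b : Bool) :
    ∑ col : Fin J → Bool, (if col s0 = b then ∏ s, (if col s = true then ρ else 1 - ρ) else 0) =
      if b = true then ρ else 1 - ρ := by
  have h := sum_prod (X := Fin J) (S := Bool) (fun s c => if s = s0 then
    (if c = b then (if c = true then ρ else 1 - ρ) else 0) else (if c = true then ρ else 1 - ρ))
  have h1 : ∀ col : Fin J → Bool,
      (if col s0 = b then ∏ s, (if col s = true then ρ else 1 - ρ) else 0) =
      ∏ s, (if s = s0 then (if col s = b then (if col s = true then ρ else 1 - ρ) else 0)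
        else (if col s = true then ρ else 1 - ρ)) := by
    intro col
    by_cases hb : col s0 = b
    · rw [if_pos hb]
      refine Finset.prod_congr rfl fun s _ => ?_
      by_cases hs : s = s0
      · subst hs; simp [hb]
      · simp [hs]
    · rw [if_neg hb]
      symm
      refine Finset.prod_eq_zero (Finset.mem_univ s0) ?_
      simp [hb]
  rw [Finset.sum_congr rfl (fun col _ => h1 col)]
  refine h.trans ?_
  rw [← Finset.mul_prod_erase univ _ (Finset.mem_univ s0)]
  have h2 : ∏ x ∈ univ.erase s0, ∑ c : Bool, (if x = s0 then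
      (if c = b then (if c = true then ρ else 1 - ρ) else 0)
        else (if c = true then ρ else 1 - ρ)) = 1 := by
    refine Finset.prod_eq_one fun x hx => ?_
    have hx' : x ≠ s0 := Finset.ne_of_mem_erase hx
    simp [hx']
  rw [h2]
  cases b <;> simp

theorem colsum_false (J : ℕ) (ρ : ℝ) :
    ∑ col : Fin J → Bool, (if ∀ s, col s = false then
      ∏ s, (if col s = true then ρ else 1 - ρ) else 0) = (1 - ρ) ^ J := by
  rw [Finset.sum_eq_single (fun _ => false)]
  · simp
  · intro col _ hcol
    rw [if_neg]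
    intro h
    exact hcol (funext h)
  · simp

theorem joint (J : ℕ) (hJ : 0 < J) (s0 : Fin J) (f : (X → Bool) → (X → Bool) → ℝ) :
    ∑ ω : Fin J → X → Bool, Wt (rho J) ω * f (ω s0) (unionP ω) =
      ∑ B : X → Bool, ∑ Y : X → Bool, qw (rho J) B Y * f B Y := by
  set ρ := rho J with hρ
  have h := sum_prod_comp (X := X) (S := Fin J → Bool) (T := Bool × Bool)
    (fun _ col => ∏ s, (if col s = true then ρ else 1 - ρ))
    (fun _ col => (col s0, decide (∃ s, col s = true)))
    (fun ψ => f (fun x => (ψ x).1) (fun x => (ψ x).2))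
  have hL : ∑ ω : Fin J → X → Bool, Wt ρ ω * f (ω s0) (unionP ω) =
      ∑ φ : X → Fin J → Bool, (∏ x, ∏ s, (if φ x s = true then ρ else 1 - ρ)) *
        f (fun x => φ x s0) (fun x => decide (∃ s, φ x s = true)) := by
    refine Fintype.sum_equiv (Equiv.piComm _) _ _ fun ω => ?_
    congr 1
    unfold Wt bw
    rw [Finset.prod_comm]
    rfl
  rw [hL]
  refine h.trans ?_
  have hR : ∑ B : X → Bool, ∑ Y : X → Bool, qw ρ B Y * f B Y =
      ∑ ψ : X → Bool × Bool, qw ρ (fun x => (ψ x).1) (fun x => (ψ x).2) *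
        f (fun x => (ψ x).1) (fun x => (ψ x).2) := by
    rw [← Fintype.sum_prod_type']
    refine Fintype.sum_equiv
      (Equiv.arrowProdEquivProdArrow X (fun _ => Bool) (fun _ => Bool)).symm _ _ ?_
    rintro ⟨A, B⟩
    rfl
  rw [hR]
  refine Finset.sum_congr rfl fun ψ _ => ?_
  congr 1
  unfold qw
  refine Finset.prod_congr rfl fun x _ => ?_
  have hpow := rho_pow J hJ
  rw [← hρ] at hpow
  have hcf := colsum_false J ρ
  have hc1 := colsum J ρ s0 true
  have hc0 := colsum J ρ s0 false
  have key : ∀ b y : Bool, (∑ col : Fin J → Bool,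
      if (col s0, decide (∃ s, col s = true)) = (b, y) then
        ∏ s, (if col s = true then ρ else 1 - ρ) else 0) =
      if b = true then (if y = true then ρ else 0) else (if y = true then 1 / 2 - ρ else 1 / 2) := by
    intro b y
    have hF : (∑ col : Fin J → Bool, if (∀ s, col s = false) then
        ∏ s, (if col s = true then ρ else 1 - ρ) else 0) = 1 / 2 := hcf.trans hpow
    cases b <;> cases y
    · -- all false
      simp only [Bool.false_eq_true, if_false]
      refine Eq.trans (Finset.sum_congr rfl fun col _ => ?_) hF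
      by_cases hall : ∀ s, col s = false
      · rw [if_pos, if_pos hall]
        simp [hall]
      · rw [if_neg, if_neg hall]
        intro hcon
        apply hall
        simp only [Prod.mk.injEq, decide_eq_false_iff_not, not_exists,
          Bool.not_eq_true] at hcon
        exact hcon.2
    · simp only [Bool.false_eq_true, if_false, if_true]
      have e1 : (1 : ℝ) / 2 - ρ = (1 - ρ) - 1 / 2 := by ring
      have e0 : (if false = true then ρ else 1 - ρ) = 1 - ρ := by simp
      rw [e0] at hc0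
      rw [e1]
      refine Eq.trans ?_ (congrArg₂ (fun a b : ℝ => a - b) hc0 hF)
      refine Eq.trans ?_ (Finset.sum_sub_distrib _ _)
      refine Finset.sum_congr rfl fun col _ => ?_
      by_cases hall : ∀ s, col s = false
      · rw [if_neg, if_pos (hall s0), if_pos hall]
        · ring
        · simp [hall]
      · rw [if_neg hall]
        by_cases h0 : col s0 = false
        · rw [if_pos h0, if_pos]
          · ring
          · push Not at hall
            simp only [h0, Prod.mk.injEq, decide_eq_true_eq, true_and]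
            simpa using hall
        · rw [if_neg h0, if_neg]
          · ring
          · simp [h0]
    · simp only [if_true, Bool.false_eq_true, if_false]
      refine Finset.sum_eq_zero fun col _ => ?_
      rw [if_neg]
      intro hcon
      simp only [Prod.mk.injEq, decide_eq_false_iff_not, not_exists,
          Bool.not_eq_true] at hcon
      have := hcon.2 s0
      rw [hcon.1] at this
      exact absurd this (by decide)
    · simp only [if_true]
      have e0 : (if true = true then ρ else 1 - ρ) = ρ := by simp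
      rw [e0] at hc1
      refine Eq.trans (Finset.sum_congr rfl fun col _ => ?_) hc1
      by_cases h0 : col s0 = true
      · rw [if_pos h0, if_pos]
        simp only [h0, Prod.mk.injEq, decide_eq_true_eq, true_and]
        exact ⟨s0, h0⟩
      · rw [if_neg h0, if_neg]
        simp [h0]
  refine Eq.trans (Finset.sum_congr rfl fun col _ => ?_) (key (ψ x).1 (ψ x).2)
  by_cases hc : (col s0, decide (∃ s, col s = true)) = ψ x
  · rw [if_pos hc, if_pos (by rw [hc])]
  · rw [if_neg hc, if_neg (by simpa using hc)]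

theorem sum_Wt (J : ℕ) (ρ : ℝ) : ∑ ω : Fin J → X → Bool, Wt ρ ω = 1 := by
  unfold Wt
  rw [sum_prod (fun _ B => bw ρ B)]
  simp [sum_bw]

theorem Wt_nonneg {J : ℕ} {ρ : ℝ} (h0 : 0 ≤ ρ) (h1 : ρ ≤ 1) (ω : Fin J → X → Bool) :
    0 ≤ Wt ρ ω := Finset.prod_nonneg fun s _ => bw_nonneg h0 h1 _

theorem sum_Wt_pair (J : ℕ) (ρ : ℝ) (D : (X → Bool) → Prop) (S : Finset (Fin J)) :
    ∑ ω : Fin J → X → Bool, Wt ρ ω * (if ∀ s ∈ S, D (ω s) then 1 else 0) = Pr ρ D ^ S.card := by
  have h : ∀ ω : Fin J → X → Bool, Wt ρ ω * (if ∀ s ∈ S, D (ω s) then 1 else 0) =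
      ∏ s, (bw ρ (ω s) * (if s ∈ S then (if D (ω s) then 1 else 0) else 1)) := by
    intro ω
    unfold Wt
    rw [Finset.prod_mul_distrib]
    congr 1
    by_cases hS : ∀ s ∈ S, D (ω s)
    · rw [if_pos hS]
      symm
      refine Finset.prod_eq_one fun s _ => ?_
      by_cases hs : s ∈ S
      · rw [if_pos hs, if_pos (hS s hs)]
      · rw [if_neg hs]
    · rw [if_neg hS]
      push Not at hS
      obtain ⟨s, hs, hD⟩ := hS
      symm
      refine Finset.prod_eq_zero (Finset.mem_univ s) ?_
      rw [if_pos hs, if_neg hD]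
  rw [Finset.sum_congr rfl (fun ω _ => h ω)]
  rw [sum_prod (fun s B => bw ρ B * (if s ∈ S then (if D B then 1 else 0) else 1))]
  have h2 : ∀ s : Fin J, ∑ B : X → Bool, bw ρ B * (if s ∈ S then (if D B then 1 else 0) else 1) =
      if s ∈ S then Pr ρ D else 1 := by
    intro s
    by_cases hs : s ∈ S
    · simp only [if_pos hs]
      unfold Pr
      refine Finset.sum_congr rfl fun B _ => ?_
      split_ifs <;> ring
    · simp only [if_neg hs, mul_one, sum_bw]
  simp_rw [h2]
  rw [Finset.prod_ite_mem]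
  simp

/-- **BB2** -/
theorem bb2 (J : ℕ) (hJ : 0 < J) (D : (X → Bool) → Prop) (g : (X → Bool) → ℝ)
    (hg : ∀ Y, 0 ≤ g Y) :
    (J : ℝ) * ∑ B : X → Bool, ∑ Y : X → Bool, qw (rho J) B Y * (if D B then g Y else 0) ≤
      Real.sqrt (∑ Y : X → Bool, bw (1 / 2) Y * g Y ^ 2) * (1 + J * Pr (rho J) D) := by
  have h0 := rho_nonneg J hJ
  have hr1 : rho J ≤ 1 := by linarith [rho_le_half J hJ]
  set ρ := rho J with hρ
  set a := Pr ρ D with ha
  have ha0 : 0 ≤ a := Pr_nonneg h0 hr1 D
  have hW := fun ω : Fin J → X → Bool => Wt_nonneg h0 hr1 ω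
  -- left side
  have e1 : (J : ℝ) * ∑ B : X → Bool, ∑ Y : X → Bool, qw ρ B Y * (if D B then g Y else 0) =
      ∑ ω : Fin J → X → Bool, (Real.sqrt (Wt ρ ω) * g (unionP ω)) *
        (Real.sqrt (Wt ρ ω) * ∑ s : Fin J, if D (ω s) then 1 else 0) := by
    have : ∀ s : Fin J, ∑ B : X → Bool, ∑ Y : X → Bool, qw ρ B Y * (if D B then g Y else 0) =
        ∑ ω : Fin J → X → Bool, Wt ρ ω * (if D (ω s) then g (unionP ω) else 0) := by
      intro s
      rw [hρ, ← joint J hJ s (fun B Y => if D B then g Y else 0)]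
    calc (J : ℝ) * ∑ B : X → Bool, ∑ Y : X → Bool, qw ρ B Y * (if D B then g Y else 0)
        = ∑ s : Fin J, ∑ ω : Fin J → X → Bool, Wt ρ ω * (if D (ω s) then g (unionP ω) else 0) := by
          rw [Finset.sum_congr rfl (fun s _ => (this s).symm)]
          simp
      _ = _ := by
          rw [Finset.sum_comm]
          refine Finset.sum_congr rfl fun ω _ => ?_
          have hs : Real.sqrt (Wt ρ ω) * Real.sqrt (Wt ρ ω) = Wt ρ ω := Real.mul_self_sqrt (hW ω)
          rw [mul_mul_mul_comm, hs, Finset.mul_sum, Finset.mul_sum]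
          refine Finset.sum_congr rfl fun s _ => ?_
          split_ifs <;> ring
  have e2 : ∑ ω : Fin J → X → Bool, (Real.sqrt (Wt ρ ω) * g (unionP ω)) ^ 2 =
      ∑ Y : X → Bool, bw (1 / 2) Y * g Y ^ 2 := by
    have h := joint (X := X) J hJ ⟨0, hJ⟩ (fun _ Y => g Y ^ 2)
    rw [← hρ] at h
    calc _ = ∑ ω : Fin J → X → Bool, Wt ρ ω * g (unionP ω) ^ 2 := by
          refine Finset.sum_congr rfl fun ω _ => ?_
          rw [mul_pow, Real.sq_sqrt (hW ω)]
      _ = _ := h
      _ = _ := by
          rw [Finset.sum_comm]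
          refine Finset.sum_congr rfl fun Y _ => ?_
          rw [← Finset.sum_mul, sum_qw_left]
  have e3 : ∑ ω : Fin J → X → Bool, (Real.sqrt (Wt ρ ω) *
      ∑ s : Fin J, if D (ω s) then (1 : ℝ) else 0) ^ 2 ≤ (1 + J * a) ^ 2 := by
    have h1 : ∀ ω : Fin J → X → Bool, (Real.sqrt (Wt ρ ω) *
        ∑ s : Fin J, if D (ω s) then (1 : ℝ) else 0) ^ 2 =
        ∑ s : Fin J, ∑ s' : Fin J, Wt ρ ω * (if ∀ r ∈ ({s, s'} : Finset (Fin J)), D (ω r) then 1 else 0) := by
      intro ω
      rw [mul_pow, Real.sq_sqrt (hW ω), sq, Finset.sum_mul_sum, Finset.mul_sum]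
      refine Finset.sum_congr rfl fun s _ => ?_
      rw [Finset.mul_sum]
      refine Finset.sum_congr rfl fun s' _ => ?_
      congr 1
      by_cases h1 : D (ω s) <;> by_cases h2 : D (ω s') <;> simp [h1, h2]
    rw [Finset.sum_congr rfl (fun ω _ => h1 ω), Finset.sum_comm]
    have h2 : ∀ s : Fin J, ∑ ω : Fin J → X → Bool, ∑ s' : Fin J,
        Wt ρ ω * (if ∀ r ∈ ({s, s'} : Finset (Fin J)), D (ω r) then 1 else 0) ≤ a + J * a ^ 2 := by
      intro s
      rw [Finset.sum_comm]
      have h3 : ∀ s' : Fin J, ∑ ω : Fin J → X → Bool,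
          Wt ρ ω * (if ∀ r ∈ ({s, s'} : Finset (Fin J)), D (ω r) then (1 : ℝ) else 0) ≤
          (if s' = s then a else 0) + a ^ 2 := by
        intro s'
        rw [sum_Wt_pair]
        by_cases hs : s' = s
        · subst hs
          simp only [Finset.pair_eq_singleton, Finset.card_singleton, pow_one, if_true, ← ha]
          nlinarith
        · rw [if_neg hs, Finset.card_pair (Ne.symm hs)]
          simp [← ha]
      calc _ ≤ ∑ s' : Fin J, ((if s' = s then a else 0) + a ^ 2) :=
            Finset.sum_le_sum fun s' _ => h3 s'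
        _ = _ := by
            rw [Finset.sum_add_distrib]
            simp
    calc _ ≤ ∑ s : Fin J, (a + J * a ^ 2) := Finset.sum_le_sum fun s _ => h2 s
      _ = J * a + (J * a) ^ 2 := by simp; ring
      _ ≤ _ := by
          have : 0 ≤ (J : ℝ) * a := by positivity
          nlinarith
  rw [e1]
  have hCS := Finset.sum_mul_sq_le_sq_mul_sq univ
    (fun ω : Fin J → X → Bool => Real.sqrt (Wt ρ ω) * g (unionP ω))
    (fun ω : Fin J → X → Bool => Real.sqrt (Wt ρ ω) * ∑ s : Fin J, if D (ω s) then (1 : ℝ) else 0)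
  rw [e2] at hCS
  have hnn : 0 ≤ ∑ Y : X → Bool, bw (1 / 2) Y * g Y ^ 2 :=
    Finset.sum_nonneg fun Y _ => mul_nonneg (bw_nonneg (by norm_num) (by norm_num) Y) (sq_nonneg _)
  refine abs_le_of_sq_le_sq' ?_ ?_ |>.2
  · rw [mul_pow, Real.sq_sqrt hnn]
    exact hCS.trans (mul_le_mul_of_nonneg_left e3 hnn)
  · positivity

/-- **F3**: given `Y`, the parts of `B` inside and outside `N` are independent -/
theorem f3 (ρ : ℝ) (N : X → Bool) (D : (X → Bool) → Prop) (h : (X → Bool) → ℝ) :
    ∑ B : X → Bool, ∑ Y : X → Bool,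
        qw ρ B Y * (if D B ∧ (∀ x, B x = true → N x = false) then h Y else 0) =
      ∑ B : X → Bool, ∑ Y : X → Bool,
        qw ρ B Y * (if D (B \ N) then h Y * (1 - 2 * ρ) ^ bcard (Y ⊓ N) else 0) := by
  rw [Finset.sum_comm]
  conv_rhs => rw [Finset.sum_comm]
  refine Finset.sum_congr rfl fun Y _ => ?_
  -- push forward under B ↦ B \ N
  have hsd : ∀ B : X → Bool, B \ N = fun x => (B x && !(N x)) := by
    intro B
    funext x
    show B x \ N x = _
    cases B x <;> cases N x <;> rfl
  simp_rw [hsd]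
  have hp := sum_prod_comp (X := X) (S := Bool) (T := Bool)
    (fun x b => if b = true then (if Y x = true then ρ else 0)
        else (if Y x = true then 1 / 2 - ρ else 1 / 2))
    (fun x b => (b && !(N x))) (fun C => if D C then (1 : ℝ) else 0)
  have hR : ∑ B : X → Bool, qw ρ B Y * (if D (fun x => (B x && !(N x))) then
        h Y * (1 - 2 * ρ) ^ bcard (Y ⊓ N) else 0) =
      h Y * (1 - 2 * ρ) ^ bcard (Y ⊓ N) *
      ∑ C : X → Bool, (∏ x, ∑ b : Bool, if (b && !(N x)) = C x then
        (if b = true then (if Y x = true then ρ else 0)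
        else (if Y x = true then 1 / 2 - ρ else 1 / 2)) else 0) * (if D C then (1 : ℝ) else 0) := by
    have : ∑ C : X → Bool, (∏ x, ∑ b : Bool, if (b && !(N x)) = C x then
        (if b = true then (if Y x = true then ρ else 0)
        else (if Y x = true then 1 / 2 - ρ else 1 / 2)) else 0) * (if D C then (1 : ℝ) else 0) =
        ∑ B : X → Bool, qw ρ B Y * (if D (fun x => (B x && !(N x))) then 1 else 0) := by
      refine Eq.trans ?_ hp.symm
      refine Finset.sum_congr rfl fun C _ => ?_
      congr 1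
      refine Finset.prod_congr rfl fun x _ => ?_
      refine Finset.sum_congr rfl fun b _ => ?_
      by_cases hb : (b && !(N x)) = C x
      · rw [if_pos hb, if_pos hb]
      · rw [if_neg hb, if_neg hb]
    rw [this, Finset.mul_sum]
    refine Finset.sum_congr rfl fun B _ => ?_
    split_ifs <;> ring
  rw [hR, Finset.mul_sum]
  refine Finset.sum_congr rfl fun C _ => ?_
  by_cases hD : D C
  · by_cases hC : ∀ x, C x = true → N x = false
    · rw [if_pos ⟨hD, hC⟩, if_pos hD]
      have hb : bcard (Y ⊓ N) = ∑ x, if (Y x = true ∧ N x = true) then 1 else 0 := by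
        unfold bcard
        rw [Finset.card_filter]
        refine Finset.sum_congr rfl fun x _ => ?_
        have : ((Y ⊓ N) x = true) ↔ (Y x = true ∧ N x = true) := by
          simp [Pi.inf_apply]
        simp only [this]
      rw [hb, ← Finset.prod_pow_eq_pow_sum]
      unfold qw
      rw [mul_comm (h Y), mul_assoc, mul_comm (h Y), mul_one, ← mul_assoc, ← Finset.prod_mul_distrib]
      congr 1
      refine Finset.prod_congr rfl fun x _ => ?_
      have hx := hC x
      clear hp hR hsd hb
      cases hc : C x <;> cases hn : N x <;> cases hy : Y x <;> simp_all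
      ring
    · rw [if_neg (fun hh => hC hh.2), if_pos hD]
      push Not at hC
      obtain ⟨x, hx, hnx⟩ := hC
      rw [mul_zero, mul_one, Finset.prod_eq_zero (Finset.mem_univ x), mul_zero]
      refine Finset.sum_eq_zero fun b _ => ?_
      rw [if_neg]
      intro hcon
      cases hn : N x <;> cases b <;> simp_all
  · rw [if_neg (fun hh => hD hh.1), if_neg hD]
    simp

/-- Chernoff -/
theorem chernoff (N : X → Bool) :
    Pr (1 / 2) (fun Y : X → Bool => 4 * bcard (Y ⊓ N) < bcard N) ≤ (9 / 10 : ℝ) ^ bcard N := by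
  have hbY : ∀ Y : X → Bool, bcard (Y ⊓ N) = ∑ x, if (Y x = true ∧ N x = true) then 1 else 0 := by
    intro Y
    unfold bcard
    rw [Finset.card_filter]
    refine Finset.sum_congr rfl fun x _ => ?_
    have : ((Y ⊓ N) x = true) ↔ (Y x = true ∧ N x = true) := by
      simp [Pi.inf_apply]
    simp only [this]
  have hbN : bcard N = ∑ x, if N x = true then 1 else 0 := by
    unfold bcard
    rw [Finset.card_filter]
  have e1 : ∑ Y : X → Bool, bw (1 / 2) Y * (1 / 2 : ℝ) ^ bcard (Y ⊓ N) = (3 / 4 : ℝ) ^ bcard N := by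
    have h1 : ∀ Y : X → Bool, bw (1 / 2) Y * (1 / 2 : ℝ) ^ bcard (Y ⊓ N) =
        ∏ x, (if Y x = true then (if N x = true then (1 / 4 : ℝ) else 1 / 2) else 1 / 2) := by
      intro Y
      rw [hbY, ← Finset.prod_pow_eq_pow_sum]
      unfold bw
      rw [← Finset.prod_mul_distrib]
      refine Finset.prod_congr rfl fun x _ => ?_
      cases Y x <;> cases N x <;> norm_num
    rw [Finset.sum_congr rfl (fun Y _ => h1 Y),
      sum_prod (fun x b => if b = true then (if N x = true then (1 / 4 : ℝ) else 1 / 2) else 1 / 2),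
      hbN, ← Finset.prod_pow_eq_pow_sum]
    refine Finset.prod_congr rfl fun x _ => ?_
    cases N x <;> norm_num
  have e2 : ∀ Y : X → Bool, (if 4 * bcard (Y ⊓ N) < bcard N then bw (1 / 2) Y else 0) ≤
      (6 / 5 : ℝ) ^ bcard N * (bw (1 / 2) Y * (1 / 2 : ℝ) ^ bcard (Y ⊓ N)) := by
    intro Y
    have hb := bw_nonneg (p := 1 / 2) (by norm_num) (by norm_num) Y
    split_ifs with hlt
    · have h3 : (2 : ℝ) ^ bcard (Y ⊓ N) ≤ (6 / 5 : ℝ) ^ bcard N := by
        calc (2 : ℝ) ^ bcard (Y ⊓ N) ≤ ((6 / 5 : ℝ) ^ 4) ^ bcard (Y ⊓ N) :=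
              pow_le_pow_left₀ (by norm_num) (by norm_num) _
          _ = (6 / 5 : ℝ) ^ (4 * bcard (Y ⊓ N)) := by rw [← pow_mul]
          _ ≤ _ := pow_le_pow_right₀ (by norm_num) hlt.le
      have h4 : (1 : ℝ) ≤ (6 / 5 : ℝ) ^ bcard N * (1 / 2 : ℝ) ^ bcard (Y ⊓ N) := by
        calc (1 : ℝ) = (2 : ℝ) ^ bcard (Y ⊓ N) * (1 / 2 : ℝ) ^ bcard (Y ⊓ N) := by
              rw [← mul_pow]; norm_num
          _ ≤ _ := mul_le_mul_of_nonneg_right h3 (by positivity)
      calc bw (1 / 2) Y = bw (1 / 2) Y * 1 := by ring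
        _ ≤ bw (1 / 2) Y * ((6 / 5 : ℝ) ^ bcard N * (1 / 2 : ℝ) ^ bcard (Y ⊓ N)) :=
            mul_le_mul_of_nonneg_left h4 hb
        _ = _ := by ring
    · positivity
  calc Pr (1 / 2) (fun Y : X → Bool => 4 * bcard (Y ⊓ N) < bcard N)
      ≤ ∑ Y : X → Bool, (6 / 5 : ℝ) ^ bcard N * (bw (1 / 2) Y * (1 / 2 : ℝ) ^ bcard (Y ⊓ N)) :=
        Finset.sum_le_sum fun Y _ => by
          refine le_trans (le_of_eq ?_) (e2 Y)
          by_cases hh : 4 * bcard (Y ⊓ N) < bcard N <;> simp [hh]
    _ = (6 / 5 : ℝ) ^ bcard N * (3 / 4 : ℝ) ^ bcard N := by rw [← Finset.mul_sum, e1]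
    _ = _ := by rw [← mul_pow]; norm_num

end pieces

end Pool.Agent.Helper9.SpTree
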