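import Pool.Agent.Helper9.STP.Inner3
import Pool.Agent.Helper43.STPOuter

/-!
# The rectangle bound
-/

namespace Pool.Agent.Helper9.SpTree

open Finset
open scoped Classical

section rect

variable {W X2 X1 : Type} [Fintype W] [Fintype X2] [Fintype X1]

/-- the conditions for a rectangle in the slack matrix -/
structure IsRect (Uc : W → (X2 → Bool) → (X1 → Bool) → Prop)
    (Tc : W → X2 → (X2 → Bool) → (X1 → Bool) → X1 → Prop) : Prop where
  T0 : ∀ v c Y2 Y1 p, Tc v c Y2 Y1 p → Y1 p = false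
  Z1 : ∀ v c A2 A1 Y2 Y1 p, Uc v A2 A1 → Tc v c Y2 Y1 p → A2 c = true → A1 p = false
  Z2 : ∀ v v' c A2 A1 Y2 Y1 p, Uc v A2 A1 → Tc v' c Y2 Y1 p → v ≠ v' → A2 c = true → A2 ≤ Y2 →
    ¬ A1 ≤ Y1
  Z3 : ∀ v c A2 A1 Y2 Y1 p, Uc v A2 A1 → Tc v c Y2 Y1 p → (∀ x, A2 x = true → Y2 x = false) →
    ¬ (∀ x, A1 x = true → Y1 x = false)

theorem bb1_exp {X : Type} [Fintype X] (J : ℕ) (hJ : 0 < J) (D Y : (X → Bool) → Prop)
    (h : ∀ B C, B ≤ C → Y C → ¬ D B) :
    Pr (1 / 2) Y ≤ Real.exp (-(J * Pr (rho J) D)) := by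
  refine (bb1 J hJ D Y h).trans ?_
  have h0 := rho_nonneg J hJ
  have hr1 : rho J ≤ 1 := by linarith [rho_le_half J hJ]
  have hP1 := Pr_le_one h0 hr1 D
  have e := Real.add_one_le_exp (-(Pr (rho J) D))
  calc (1 - Pr (rho J) D) ^ J ≤ Real.exp (-(Pr (rho J) D)) ^ J :=
        pow_le_pow_left₀ (by linarith) (by linarith) J
    _ = _ := by rw [← Real.exp_nat_mul]; congr 1; ring

/-- outer triple is bad at scale `t` -/
def BadAt (U : W → (X1 → Bool) → Prop) (T : W → (X1 → Bool) → X1 → Prop) (J : ℕ) : Prop :=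
  ∃ v, ∃ N : X1 → Bool, Real.exp (1 - (J : ℝ) * Pr (rho J) (fun B => U v (B \ N))) <
    Pr (1 / 2) (fun Y => ∃ p, T v Y p)

theorem sdiff_le_bool {X : Type} (B N : X → Bool) : B \ N ≤ B := sdiff_le

theorem bad_outer (Uc : W → (X2 → Bool) → (X1 → Bool) → Prop)
    (Tc : W → X2 → (X2 → Bool) → (X1 → Bool) → X1 → Prop) (hR : IsRect Uc Tc)
    (e : ℕ) (he : 10 ≤ e) (hX : Fintype.card X2 = 2 ^ (10 * e)) (hW : Fintype.card W = 2 ^ (10 * e))
    (J : ℕ) (hJ : 0 < J) (θ : ℕ) :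
    ∑ c : X2, ∑ B : X2 → Bool, ∑ Y : X2 → Bool, qw (rho (2 ^ (7 * e))) B Y *
      (if ∃ v, (∃ N : X1 → Bool, (θ : ℝ) < J * Pr (rho J)
          (fun B1 => Uc v (Function.update B c true) (B1 \ N))) ∧
          Real.exp (-(θ : ℝ)) ≤ Pr (1 / 2)
            (fun Y1 => ∃ p, Tc v c (Function.update Y c true) Y1 p) then 1 else 0) ≤
      (1 / 2 : ℝ) ^ e * Fintype.card X2 := by
  have key := Pool.Agent.Helper43.STPOuter.outer e he hX hW
    (fun v A => ∃ N : X1 → Bool, (θ : ℝ) < J * Pr (rho J) (fun B1 => Uc v A (B1 \ N)))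
    (fun v c Y2 => Real.exp (-(θ : ℝ)) ≤ Pr (1 / 2) (fun Y1 => ∃ p, Tc v c Y2 Y1 p)) ?_ ?_
  · refine le_trans (le_of_eq ?_) key
    refine Finset.sum_congr rfl fun c _ => Finset.sum_congr rfl fun B _ =>
      Finset.sum_congr rfl fun Y _ => ?_
    by_cases hh : ∃ v, (∃ N : X1 → Bool, (θ : ℝ) < J * Pr (rho J)
          (fun B1 => Uc v (Function.update B c true) (B1 \ N))) ∧
          Real.exp (-(θ : ℝ)) ≤ Pr (1 / 2)
            (fun Y1 => ∃ p, Tc v c (Function.update Y c true) Y1 p)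
    · rw [if_pos hh, if_pos hh]
    · rw [if_neg hh, if_neg hh]
  · rintro v v' c A Y ⟨N, hN⟩ hY hne hAc hAY
    have h := bb1_exp J hJ (fun B1 : X1 → Bool => Uc v' A (B1 \ N))
      (fun Y1 => ∃ p, Tc v c Y Y1 p) (by
        rintro B C hBC ⟨p, hp⟩ hU
        exact hR.Z2 v' v c A (B \ N) Y C p hU hp hne hAc hAY ((sdiff_le_bool B N).trans hBC))
    have h2 : Real.exp (-(θ : ℝ)) ≤
        Real.exp (-(J * Pr (rho J) (fun B1 : X1 → Bool => Uc v' A (B1 \ N)))) := hY.trans h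
    rw [Real.exp_le_exp] at h2
    linarith
  · rintro v c A Y ⟨N, hN⟩ hY hAY
    have h := bb1_exp J hJ (fun B1 : X1 → Bool => Uc v A (B1 \ N))
      (fun Y1 => ∃ p, Tc v c Y (fun x => !(Y1 x)) p) (by
        rintro B C hBC ⟨p, hp⟩ hU
        refine hR.Z3 v c A (B \ N) Y _ p hU hp hAY ?_
        intro x hx
        have h1 : B x = true := by
          have := (sdiff_le_bool B N) x
          rw [hx] at this
          exact top_le_iff.1 this
        have h2 : C x = true := by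
          have := hBC x
          rw [h1] at this
          exact top_le_iff.1 this
        simp [h2])
    rw [Pr_compl (fun Y1 : X1 → Bool => ∃ p, Tc v c Y Y1 p)] at h
    have h2 : Real.exp (-(θ : ℝ)) ≤
        Real.exp (-(J * Pr (rho J) (fun B1 : X1 → Bool => Uc v A (B1 \ N)))) := hY.trans h
    rw [Real.exp_le_exp] at h2
    linarith

theorem bad_imp (Uc : W → (X2 → Bool) → (X1 → Bool) → Prop)
    (Tc : W → X2 → (X2 → Bool) → (X1 → Bool) → X1 → Prop) (J : ℕ) (hJ : 0 < J)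
    (c : X2) (A2 Y2 : X2 → Bool)
    (h : BadAt (fun v B1 => Uc v A2 B1) (fun v Y1 p => Tc v c Y2 Y1 p) J) :
    ∃ θ < J, ∃ v, (∃ N : X1 → Bool, (θ : ℝ) < J * Pr (rho J) (fun B1 => Uc v A2 (B1 \ N))) ∧
          Real.exp (-(θ : ℝ)) ≤ Pr (1 / 2) (fun Y1 => ∃ p, Tc v c Y2 Y1 p) := by
  obtain ⟨v, N, h⟩ := h
  have h0 := rho_nonneg J hJ
  have hr1 : rho J ≤ 1 := by linarith [rho_le_half J hJ]
  have hP0 := Pr_nonneg h0 hr1 (fun B1 : X1 → Bool => Uc v A2 (B1 \ N))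
  have hP1 := Pr_le_one h0 hr1 (fun B1 : X1 → Bool => Uc v A2 (B1 \ N))
  have hy1 := Pr_le_one (X := X1) (p := 1 / 2) (by norm_num) (by norm_num)
    (fun Y1 => ∃ p, Tc v c Y2 Y1 p)
  set l := (J : ℝ) * Pr (rho J) (fun B1 : X1 → Bool => Uc v A2 (B1 \ N)) with hl
  have hJ' : (0 : ℝ) < J := by exact_mod_cast hJ
  have hl0 : 0 ≤ l := mul_nonneg hJ'.le hP0
  have hlJ : l ≤ J := by
    rw [hl]; nlinarith
  -- l > 0 because otherwise the bound is `e > 1`
  have hlpos : 0 < l := by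
    rcases hl0.lt_or_eq with h' | h'
    · exact h'
    · exfalso
      have h2 : Real.exp (1 - l) < 1 := h.trans_le hy1
      rw [← h'] at h2
      have := Real.add_one_le_exp (1 - (0 : ℝ))
      linarith
  refine ⟨⌈l⌉₊ - 1, ?_, v, ⟨N, ?_⟩, ?_⟩
  · have : ⌈l⌉₊ ≤ J := Nat.ceil_le.2 hlJ
    omega
  · have h1 : 1 ≤ ⌈l⌉₊ := Nat.one_le_iff_ne_zero.2 (by
      intro h'
      rw [Nat.ceil_eq_zero] at h'
      linarith)
    have h2 : (⌈l⌉₊ : ℝ) < l + 1 := Nat.ceil_lt_add_one hl0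
    push_cast [Nat.cast_sub h1]
    linarith
  · refine le_trans ?_ h.le
    apply Real.exp_le_exp.2
    have h1 : 1 ≤ ⌈l⌉₊ := Nat.one_le_iff_ne_zero.2 (by
      intro h'
      rw [Nat.ceil_eq_zero] at h'
      linarith)
    have h2 : l ≤ (⌈l⌉₊ : ℝ) := Nat.le_ceil l
    push_cast [Nat.cast_sub h1]
    linarith

theorem bad_total (Uc : W → (X2 → Bool) → (X1 → Bool) → Prop)
    (Tc : W → X2 → (X2 → Bool) → (X1 → Bool) → X1 → Prop) (hR : IsRect Uc Tc)
    (e : ℕ) (he : 10 ≤ e) (hX : Fintype.card X2 = 2 ^ (10 * e)) (hW : Fintype.card W = 2 ^ (10 * e))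
    (t0 L : ℕ) :
    ∑ c : X2, ∑ B : X2 → Bool, ∑ Y : X2 → Bool, qw (rho (2 ^ (7 * e))) B Y *
      (if ∃ t < L, BadAt (fun v B1 => Uc v (Function.update B c true) B1)
          (fun v Y1 p => Tc v c (Function.update Y c true) Y1 p) (2 ^ (t0 + t)) then 1 else 0) ≤
      2 ^ (t0 + L) * ((1 / 2 : ℝ) ^ e * Fintype.card X2) := by
  have hJe : 0 < 2 ^ (7 * e) := by positivity
  have hq := fun B Y : X2 → Bool => qw_nonneg (rho_nonneg _ hJe) (rho_le_half _ hJe) B Y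
  have hJ : ∀ t, 0 < 2 ^ (t0 + t) := fun t => by positivity
  set P : ℕ → ℕ → X2 → (X2 → Bool) → (X2 → Bool) → Prop := fun t θ c B Y =>
    ∃ v, (∃ N : X1 → Bool, (θ : ℝ) < ((2 ^ (t0 + t) : ℕ) : ℝ) * Pr (rho (2 ^ (t0 + t)))
          (fun B1 => Uc v (Function.update B c true) (B1 \ N))) ∧
          Real.exp (-(θ : ℝ)) ≤ Pr (1 / 2)
            (fun Y1 => ∃ p, Tc v c (Function.update Y c true) Y1 p) with hP
  have h1 : ∀ c B Y, (if ∃ t < L, BadAt (fun v B1 => Uc v (Function.update B c true) B1)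
          (fun v Y1 p => Tc v c (Function.update Y c true) Y1 p) (2 ^ (t0 + t)) then (1 : ℝ) else 0)
        ≤ ∑ t ∈ range L, ∑ θ ∈ range (2 ^ (t0 + t)), (if P t θ c B Y then 1 else 0) := by
    intro c B Y
    have hnn : ∀ t ∈ range L, (0 : ℝ) ≤ ∑ θ ∈ range (2 ^ (t0 + t)),
        (if P t θ c B Y then (1 : ℝ) else 0) := fun t _ =>
      Finset.sum_nonneg fun θ _ => by split_ifs <;> norm_num
    by_cases hb : ∃ t < L, BadAt (fun v B1 => Uc v (Function.update B c true) B1)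
          (fun v Y1 p => Tc v c (Function.update Y c true) Y1 p) (2 ^ (t0 + t))
    · rw [if_pos hb]
      obtain ⟨t, ht, hb⟩ := hb
      obtain ⟨θ, hθ, hb⟩ := bad_imp Uc Tc _ (hJ t) c _ _ hb
      have hPt : P t θ c B Y := hb
      calc (1 : ℝ) = (if P t θ c B Y then 1 else 0) := by rw [if_pos hPt]
        _ ≤ ∑ θ ∈ range (2 ^ (t0 + t)), (if P t θ c B Y then (1 : ℝ) else 0) :=
            Finset.single_le_sum (f := fun θ => (if P t θ c B Y then (1 : ℝ) else 0))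
              (fun θ _ => by split_ifs <;> norm_num) (Finset.mem_range.2 hθ)
        _ ≤ _ := Finset.single_le_sum (f := fun t => ∑ θ ∈ range (2 ^ (t0 + t)),
              (if P t θ c B Y then (1 : ℝ) else 0)) hnn (Finset.mem_range.2 ht)
    · rw [if_neg hb]
      exact Finset.sum_nonneg hnn
  calc _ ≤ ∑ c : X2, ∑ B : X2 → Bool, ∑ Y : X2 → Bool, qw (rho (2 ^ (7 * e))) B Y *
        ∑ t ∈ range L, ∑ θ ∈ range (2 ^ (t0 + t)), (if P t θ c B Y then 1 else 0) := by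
        refine Finset.sum_le_sum fun c _ => Finset.sum_le_sum fun B _ =>
          Finset.sum_le_sum fun Y _ => mul_le_mul_of_nonneg_left (h1 c B Y) (hq B Y)
    _ = ∑ t ∈ range L, ∑ θ ∈ range (2 ^ (t0 + t)), ∑ c : X2, ∑ B : X2 → Bool, ∑ Y : X2 → Bool,
        qw (rho (2 ^ (7 * e))) B Y * (if P t θ c B Y then 1 else 0) := by
        simp_rw [Finset.mul_sum]
        have e1 : ∀ (f : X2 → (X2 → Bool) → (X2 → Bool) → ℕ → ℕ → ℝ),
            ∑ c : X2, ∑ B : X2 → Bool, ∑ Y : X2 → Bool, ∑ t ∈ range L,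
              ∑ θ ∈ range (2 ^ (t0 + t)), f c B Y t θ =
            ∑ t ∈ range L, ∑ θ ∈ range (2 ^ (t0 + t)), ∑ c : X2, ∑ B : X2 → Bool,
              ∑ Y : X2 → Bool, f c B Y t θ := by
          intro f
          have a1 : ∀ c B, ∑ Y : X2 → Bool, ∑ t ∈ range L, ∑ θ ∈ range (2 ^ (t0 + t)), f c B Y t θ =
              ∑ t ∈ range L, ∑ θ ∈ range (2 ^ (t0 + t)), ∑ Y : X2 → Bool, f c B Y t θ := by
            intro c B
            rw [Finset.sum_comm]
            refine Finset.sum_congr rfl fun t _ => ?_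
            rw [Finset.sum_comm]
          simp_rw [a1]
          have a2 : ∀ c, ∑ B : X2 → Bool, ∑ t ∈ range L, ∑ θ ∈ range (2 ^ (t0 + t)),
              ∑ Y : X2 → Bool, f c B Y t θ =
              ∑ t ∈ range L, ∑ θ ∈ range (2 ^ (t0 + t)), ∑ B : X2 → Bool,
              ∑ Y : X2 → Bool, f c B Y t θ := by
            intro c
            rw [Finset.sum_comm]
            refine Finset.sum_congr rfl fun t _ => ?_
            rw [Finset.sum_comm]
          simp_rw [a2]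
          rw [Finset.sum_comm]
          refine Finset.sum_congr rfl fun t _ => ?_
          rw [Finset.sum_comm]
        exact e1 _
    _ ≤ ∑ t ∈ range L, ∑ θ ∈ range (2 ^ (t0 + t)), ((1 / 2 : ℝ) ^ e * Fintype.card X2) :=
        Finset.sum_le_sum fun t _ => Finset.sum_le_sum fun θ _ =>
          bad_outer Uc Tc hR e he hX hW _ (hJ t) θ
    _ = (∑ t ∈ range L, (2 : ℝ) ^ (t0 + t)) * ((1 / 2 : ℝ) ^ e * Fintype.card X2) := by
        rw [Finset.sum_mul]
        refine Finset.sum_congr rfl fun t _ => ?_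
        rw [Finset.sum_const, Finset.card_range, nsmul_eq_mul]
        push_cast
        ring
    _ ≤ _ := by
        refine mul_le_mul_of_nonneg_right ?_ (by positivity)
        have : ∀ t, (2 : ℝ) ^ (t0 + t) = 2 ^ t0 * 2 ^ t := fun t => pow_add _ _ _
        simp_rw [this]
        rw [← Finset.mul_sum, geom_sum_eq (by norm_num)]
        have h0 : (0 : ℝ) < 2 ^ t0 := by positivity
        refine mul_le_mul_of_nonneg_left ?_ h0.le
        norm_num

end rect

end Pool.Agent.Helper9.SpTree
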