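import Pool.Agent.Helper9.STP.Rect

/-!
# The rectangle bound, continued
-/

namespace Pool.Agent.Helper9.SpTree

open Finset
open scoped Classical

section rect

variable {W X2 X1 : Type} [Fintype W] [Fintype X2] [Fintype X1]

/-- mass of a rectangle at scale `J` (outer scale `J'`) -/
noncomputable def MM (J' J : ℕ) (Uc : W → (X2 → Bool) → (X1 → Bool) → Prop)
    (Tc : W → X2 → (X2 → Bool) → (X1 → Bool) → X1 → Prop) : ℝ :=
  ∑ c : X2, ∑ B : X2 → Bool, ∑ Y : X2 → Bool, qw (rho J') B Y *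
    SS (fun v B1 => Uc v (Function.update B c true) B1)
      (fun v Y1 p => Tc v c (Function.update Y c true) Y1 p) J

theorem update_le_update {X : Type} (c : X) {B Y : X → Bool} (h : B ≤ Y) :
    Function.update B c true ≤ Function.update Y c true := by
  intro x
  by_cases hx : x = c
  · subst hx; simp
  · simp only [Function.update_of_ne hx]; exact h x

theorem sum_qw_total {X : Type} [Fintype X] (ρ : ℝ) :
    ∑ B : X → Bool, ∑ Y : X → Bool, qw ρ B Y = 1 := by
  simp_rw [sum_qw_right]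
  exact sum_bw ρ

theorem MM_upper (Uc : W → (X2 → Bool) → (X1 → Bool) → Prop)
    (Tc : W → X2 → (X2 → Bool) → (X1 → Bool) → X1 → Prop) (hR : IsRect Uc Tc)
    (e : ℕ) (he : 10 ≤ e) (hX : Fintype.card X2 = 2 ^ (10 * e)) (hW : Fintype.card W = 2 ^ (10 * e))
    (t0 L : ℕ) (hL : 1 ≤ L) (hte : 2 * (t0 + L) ≤ e) (ε : ℝ) (hε0 : 0 ≤ ε)
    (hε : ∀ x : ℕ, 2 ^ t0 ≤ x → (x : ℝ) * (9 / 10) ^ x ≤ ε)
    (hε1 : L * (Fintype.card W * ε) ≤ 1) :
    ∑ t ∈ range L, MM (2 ^ (7 * e)) (2 ^ (t0 + t)) Uc Tc ≤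
      450 * Real.sqrt L * Fintype.card X2 := by
  have hJe : 0 < 2 ^ (7 * e) := by positivity
  have hq := fun B Y : X2 → Bool => qw_nonneg (rho_nonneg _ hJe) (rho_le_half _ hJe) B Y
  have hs : (1 : ℝ) ≤ Real.sqrt L := by
    rw [Real.one_le_sqrt]
    exact_mod_cast hL
  have key : ∀ c B Y, qw (rho (2 ^ (7 * e))) B Y * ∑ t ∈ range L,
      SS (fun v B1 => Uc v (Function.update B c true) B1)
        (fun v Y1 p => Tc v c (Function.update Y c true) Y1 p) (2 ^ (t0 + t)) ≤
      qw (rho (2 ^ (7 * e))) B Y * (417 * Real.sqrt L) + 33 * 2 ^ (t0 + L) *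
      (qw (rho (2 ^ (7 * e))) B Y *
      (if ∃ t < L, BadAt (fun v B1 => Uc v (Function.update B c true) B1)
          (fun v Y1 p => Tc v c (Function.update Y c true) Y1 p) (2 ^ (t0 + t)) then 1 else 0)) := by
    intro c B Y
    by_cases hBY : B ≤ Y
    swap
    · rw [qw_eq_zero hBY]; simp
    have Z1 : ∀ v B1 Y1 p, (fun v B1 => Uc v (Function.update B c true) B1) v B1 →
        (fun v Y1 p => Tc v c (Function.update Y c true) Y1 p) v Y1 p → B1 p = false := by
      intro v B1 Y1 p h1 h2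
      exact hR.Z1 v c _ B1 _ Y1 p h1 h2 (by simp)
    have Z2 : ∀ v v' B1 Y1 p, (fun v B1 => Uc v (Function.update B c true) B1) v B1 →
        (fun v Y1 p => Tc v c (Function.update Y c true) Y1 p) v' Y1 p → v ≠ v' → ¬ B1 ≤ Y1 := by
      intro v v' B1 Y1 p h1 h2 hne
      exact hR.Z2 v v' c _ B1 _ Y1 p h1 h2 hne (by simp) (update_le_update c hBY)
    have e33 : (0 : ℝ) ≤ 33 * 2 ^ (t0 + L) := by positivity
    by_cases hb : ∃ t < L, BadAt (fun v B1 => Uc v (Function.update B c true) B1)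
          (fun v Y1 p => Tc v c (Function.update Y c true) Y1 p) (2 ^ (t0 + t))
    · rw [if_pos hb, mul_one]
      have h := inner_all _ _ t0 L ε hε0 hε hε1 Z1 Z2
      calc _ ≤ qw (rho (2 ^ (7 * e))) B Y * (33 * 2 ^ (t0 + L)) :=
            mul_le_mul_of_nonneg_left h (hq B Y)
        _ ≤ _ := by
            have : 0 ≤ qw (rho (2 ^ (7 * e))) B Y * (417 * Real.sqrt L) :=
              mul_nonneg (hq B Y) (by positivity)
            linarith
    · rw [if_neg hb, mul_zero, mul_zero, add_zero]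
      refine mul_le_mul_of_nonneg_left ?_ (hq B Y)
      refine inner_good _ _ t0 L hL ε hε0 hε hε1 Z1 Z2 ?_
      intro v t ht N
      by_contra hcon
      push Not at hcon
      exact hb ⟨t, ht, v, N, hcon⟩
  have hbad := bad_total Uc Tc hR e he hX hW t0 L
  have e1 : ∑ t ∈ range L, MM (2 ^ (7 * e)) (2 ^ (t0 + t)) Uc Tc =
      ∑ c : X2, ∑ B : X2 → Bool, ∑ Y : X2 → Bool, qw (rho (2 ^ (7 * e))) B Y * ∑ t ∈ range L,
      SS (fun v B1 => Uc v (Function.update B c true) B1)
        (fun v Y1 p => Tc v c (Function.update Y c true) Y1 p) (2 ^ (t0 + t)) := by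
    unfold MM
    rw [Finset.sum_comm]
    refine Finset.sum_congr rfl fun c _ => ?_
    rw [Finset.sum_comm]
    refine Finset.sum_congr rfl fun B _ => ?_
    rw [Finset.sum_comm]
    refine Finset.sum_congr rfl fun Y _ => ?_
    rw [Finset.mul_sum]
  have hpow : (2 : ℝ) ^ (t0 + L) * ((2 : ℝ) ^ (t0 + L) * (1 / 2 : ℝ) ^ e) ≤ 1 := by
    have h2 : (2 : ℝ) ^ (t0 + L) * (2 : ℝ) ^ (t0 + L) = 2 ^ (2 * (t0 + L)) := by
      rw [← pow_add]; congr 1; ring
    rw [← mul_assoc, h2, one_div, inv_pow, ← div_eq_mul_inv, div_le_one (by positivity)]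
    exact pow_le_pow_right₀ (by norm_num) hte
  rw [e1]
  calc _ ≤ ∑ c : X2, ∑ B : X2 → Bool, ∑ Y : X2 → Bool,
        (qw (rho (2 ^ (7 * e))) B Y * (417 * Real.sqrt L) + 33 * 2 ^ (t0 + L) *
      (qw (rho (2 ^ (7 * e))) B Y *
      (if ∃ t < L, BadAt (fun v B1 => Uc v (Function.update B c true) B1)
          (fun v Y1 p => Tc v c (Function.update Y c true) Y1 p) (2 ^ (t0 + t)) then 1 else 0))) :=
        Finset.sum_le_sum fun c _ => Finset.sum_le_sum fun B _ => Finset.sum_le_sum fun Y _ =>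
          key c B Y
    _ = Fintype.card X2 * (417 * Real.sqrt L) + 33 * 2 ^ (t0 + L) *
        ∑ c : X2, ∑ B : X2 → Bool, ∑ Y : X2 → Bool, (qw (rho (2 ^ (7 * e))) B Y *
      (if ∃ t < L, BadAt (fun v B1 => Uc v (Function.update B c true) B1)
          (fun v Y1 p => Tc v c (Function.update Y c true) Y1 p) (2 ^ (t0 + t)) then 1 else 0)) := by
        simp_rw [Finset.sum_add_distrib, ← Finset.sum_mul, ← Finset.mul_sum]
        congr 1
        rw [sum_qw_total, Finset.sum_const, nsmul_eq_mul, Finset.card_univ, mul_one]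
    _ ≤ Fintype.card X2 * (417 * Real.sqrt L) + 33 * 2 ^ (t0 + L) *
        (2 ^ (t0 + L) * ((1 / 2 : ℝ) ^ e * Fintype.card X2)) := by
        have := mul_le_mul_of_nonneg_left hbad (show (0 : ℝ) ≤ 33 * 2 ^ (t0 + L) by positivity)
        linarith
    _ = Fintype.card X2 * (417 * Real.sqrt L) +
        33 * ((2 : ℝ) ^ (t0 + L) * ((2 : ℝ) ^ (t0 + L) * (1 / 2 : ℝ) ^ e)) * Fintype.card X2 := by
        ring
    _ ≤ Fintype.card X2 * (417 * Real.sqrt L) + 33 * Real.sqrt L * Fintype.card X2 := by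
        have hc : (0 : ℝ) ≤ Fintype.card X2 := by positivity
        have : 33 * ((2 : ℝ) ^ (t0 + L) * ((2 : ℝ) ^ (t0 + L) * (1 / 2 : ℝ) ^ e)) ≤
          33 * Real.sqrt L := by linarith
        have := mul_le_mul_of_nonneg_right this hc
        linarith
    _ = _ := by ring

theorem sum_false {X : Type} [Fintype X] :
    ∑ Y : X → Bool, bw (1 / 2) Y * ((univ.filter fun p => Y p = false).card : ℝ) =
      Fintype.card X / 2 := by
  have h1 : ∀ Y : X → Bool, ((univ.filter fun p => Y p = false).card : ℝ) =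
      ∑ p, if Y p = false then 1 else 0 := by
    intro Y
    rw [Finset.card_filter]
    push_cast
    rfl
  simp_rw [h1, Finset.mul_sum]
  rw [Finset.sum_comm]
  have h2 : ∀ p : X, ∑ Y : X → Bool, bw (1 / 2) Y * (if Y p = false then 1 else 0) = 1 / 2 := by
    intro p
    rw [sum_bw_update (1 / 2) p (fun Y => if Y p = false then 1 else 0)]
    simp only [Function.update_self, Bool.true_eq_false, if_false, if_true, mul_zero, mul_one,
      Finset.sum_const_zero, zero_add]
    rw [sum_bw]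
    norm_num
  simp_rw [h2]
  rw [Finset.sum_const, nsmul_eq_mul, Finset.card_univ]
  ring

theorem MM_lower {r : ℕ} (Uc : Fin r → W → (X2 → Bool) → (X1 → Bool) → Prop)
    (Tc : Fin r → W → X2 → (X2 → Bool) → (X1 → Bool) → X1 → Prop) (J' J : ℕ)
    (hJ' : 0 < J') (hJ : 0 < J)
    (cover : ∀ v c A2 Y2 A1 Y1 p, A2 c = true → A2 ≤ Y2 → A1 ≤ Y1 → Y1 p = false →
      ∃ k, Uc k v A2 A1 ∧ Tc k v c Y2 Y1 p) :
    (Fintype.card X2 * (Fintype.card W * (Fintype.card X1 / 2)) : ℝ) ≤
      ∑ k, MM J' J (Uc k) (Tc k) := by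
  have hq' := fun B Y : X2 → Bool => qw_nonneg (rho_nonneg _ hJ') (rho_le_half _ hJ') B Y
  have hq := fun B Y : X1 → Bool => qw_nonneg (rho_nonneg _ hJ) (rho_le_half _ hJ) B Y
  -- pointwise bound
  have h1 : ∀ (c : X2) (B Y : X2 → Bool), B ≤ Y → ((Fintype.card W : ℝ) * (Fintype.card X1 / 2)) ≤
      ∑ k, SS (fun v B1 => Uc k v (Function.update B c true) B1)
        (fun v Y1 p => Tc k v c (Function.update Y c true) Y1 p) J := by
    intro c B Y hBY
    unfold SS
    rw [Finset.sum_comm]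
    have h2 : ∀ v : W, (Fintype.card X1 / 2 : ℝ) ≤
        ∑ k, ∑ B1 : X1 → Bool, ∑ Y1 : X1 → Bool, qw (rho J) B1 Y1 *
          (if Uc k v (Function.update B c true) B1 then
            ((univ.filter fun p => Tc k v c (Function.update Y c true) Y1 p).card : ℝ) else 0) := by
      intro v
      have h3 : (Fintype.card X1 / 2 : ℝ) = ∑ B1 : X1 → Bool, ∑ Y1 : X1 → Bool, qw (rho J) B1 Y1 *
          ((univ.filter fun p => Y1 p = false).card : ℝ) := by
        rw [Finset.sum_comm]
        simp_rw [← Finset.sum_mul, sum_qw_left]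
        rw [sum_false]
      rw [h3]
      conv_rhs => rw [Finset.sum_comm]
      refine Finset.sum_le_sum fun B1 _ => ?_
      conv_rhs => rw [Finset.sum_comm]
      refine Finset.sum_le_sum fun Y1 _ => ?_
      rw [← Finset.mul_sum]
      by_cases hBY1 : B1 ≤ Y1
      swap
      · rw [qw_eq_zero hBY1, zero_mul, zero_mul]
      refine mul_le_mul_of_nonneg_left ?_ (hq B1 Y1)
      have h4 : (univ.filter fun p => Y1 p = false) ⊆
          (univ.filter fun k => Uc k v (Function.update B c true) B1).biUnion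
            (fun k => univ.filter fun p => Tc k v c (Function.update Y c true) Y1 p) := by
        intro p hp
        simp only [Finset.mem_filter, Finset.mem_univ, true_and] at hp
        obtain ⟨k, hk1, hk2⟩ := cover v c (Function.update B c true) (Function.update Y c true)
          B1 Y1 p (by simp) (update_le_update c hBY) hBY1 hp
        simp only [Finset.mem_biUnion, Finset.mem_filter, Finset.mem_univ, true_and]
        exact ⟨k, hk1, hk2⟩
      have h5 := (Finset.card_le_card h4).trans Finset.card_biUnion_le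
      calc ((univ.filter fun p => Y1 p = false).card : ℝ) ≤
          ((∑ k ∈ univ.filter (fun k => Uc k v (Function.update B c true) B1),
            (univ.filter fun p => Tc k v c (Function.update Y c true) Y1 p).card : ℕ) : ℝ) := by
            exact_mod_cast h5
        _ = _ := by
            push_cast
            rw [Finset.sum_filter]
    calc ((Fintype.card W : ℝ) * (Fintype.card X1 / 2)) = ∑ v : W, (Fintype.card X1 / 2 : ℝ) := by
          rw [Finset.sum_const, nsmul_eq_mul, Finset.card_univ]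
      _ ≤ _ := Finset.sum_le_sum fun v _ => h2 v
  calc (Fintype.card X2 * (Fintype.card W * (Fintype.card X1 / 2)) : ℝ) =
      ∑ c : X2, ∑ B : X2 → Bool, ∑ Y : X2 → Bool, qw (rho J') B Y *
        (Fintype.card W * (Fintype.card X1 / 2)) := by
        simp_rw [← Finset.sum_mul]
        rw [sum_qw_total, Finset.sum_const, nsmul_eq_mul, Finset.card_univ]
        ring
    _ ≤ ∑ c : X2, ∑ B : X2 → Bool, ∑ Y : X2 → Bool, qw (rho J') B Y *
        ∑ k, SS (fun v B1 => Uc k v (Function.update B c true) B1)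
        (fun v Y1 p => Tc k v c (Function.update Y c true) Y1 p) J := by
        refine Finset.sum_le_sum fun c _ => Finset.sum_le_sum fun B _ =>
          Finset.sum_le_sum fun Y _ => ?_
        by_cases hBY : B ≤ Y
        · exact mul_le_mul_of_nonneg_left (h1 c B Y hBY) (hq' B Y)
        · rw [qw_eq_zero hBY, zero_mul, zero_mul]
    _ = _ := by
        unfold MM
        conv_rhs => rw [Finset.sum_comm]
        refine Finset.sum_congr rfl fun c _ => ?_
        conv_rhs => rw [Finset.sum_comm]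
        refine Finset.sum_congr rfl fun B _ => ?_
        conv_rhs => rw [Finset.sum_comm]
        refine Finset.sum_congr rfl fun Y _ => ?_
        rw [Finset.mul_sum]

/-- **The rectangle bound** -/
theorem rect_bound {r : ℕ} (Uc : Fin r → W → (X2 → Bool) → (X1 → Bool) → Prop)
    (Tc : Fin r → W → X2 → (X2 → Bool) → (X1 → Bool) → X1 → Prop)
    (hR : ∀ k, IsRect (Uc k) (Tc k))
    (cover : ∀ v c A2 Y2 A1 Y1 p, A2 c = true → A2 ≤ Y2 → A1 ≤ Y1 → Y1 p = false →
      ∃ k, Uc k v A2 A1 ∧ Tc k v c Y2 Y1 p)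
    (L : ℕ) (hL : 3 ≤ L) (hX : Fintype.card X2 = 2 ^ (40 * L)) (hW : Fintype.card W = 2 ^ (40 * L))
    (ε : ℝ) (hε0 : 0 ≤ ε)
    (hε : ∀ x : ℕ, 2 ^ L ≤ x → (x : ℝ) * (9 / 10) ^ x ≤ ε)
    (hε1 : L * (Fintype.card W * ε) ≤ 1) :
    Real.sqrt L * Fintype.card W * Fintype.card X1 ≤ 900 * r := by
  have hX' : Fintype.card X2 = 2 ^ (10 * (4 * L)) := by rw [hX]; congr 1; ring
  have hW' : Fintype.card W = 2 ^ (10 * (4 * L)) := by rw [hW]; congr 1; ring
  have up := fun k => MM_upper (Uc k) (Tc k) (hR k) (4 * L) (by omega) hX' hW' L L (by omega)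
    (by omega) ε hε0 hε hε1
  have lo := fun t : ℕ => MM_lower Uc Tc (2 ^ (7 * (4 * L))) (2 ^ (L + t)) (by positivity)
    (by positivity) cover
  have h1 : (L : ℝ) * (Fintype.card X2 * (Fintype.card W * (Fintype.card X1 / 2)) : ℝ) ≤
      r * (450 * Real.sqrt L * Fintype.card X2) := by
    calc _ = ∑ t ∈ range L, (Fintype.card X2 * (Fintype.card W * (Fintype.card X1 / 2)) : ℝ) := by
          rw [Finset.sum_const, nsmul_eq_mul, Finset.card_range]
      _ ≤ ∑ t ∈ range L, ∑ k, MM (2 ^ (7 * (4 * L))) (2 ^ (L + t)) (Uc k) (Tc k) :=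
          Finset.sum_le_sum fun t _ => lo t
      _ = ∑ k, ∑ t ∈ range L, MM (2 ^ (7 * (4 * L))) (2 ^ (L + t)) (Uc k) (Tc k) :=
          Finset.sum_comm
      _ ≤ ∑ k : Fin r, 450 * Real.sqrt L * Fintype.card X2 := Finset.sum_le_sum fun k _ => up k
      _ = _ := by rw [Finset.sum_const, nsmul_eq_mul, Finset.card_univ, Fintype.card_fin]
  have hX0 : (0 : ℝ) < Fintype.card X2 := by
    rw [hX]; positivity
  have hL0 : (0 : ℝ) < L := by
    have : 0 < L := by omega
    exact_mod_cast this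
  have hs0 : 0 < Real.sqrt L := Real.sqrt_pos.2 hL0
  have hs : Real.sqrt L * Real.sqrt L = L := Real.mul_self_sqrt hL0.le
  have h2 : (Real.sqrt L * Fintype.card X2) * (Real.sqrt L * Fintype.card W * Fintype.card X1) ≤
      (Real.sqrt L * Fintype.card X2) * (900 * r) := by
    calc _ = 2 * ((Real.sqrt L * Real.sqrt L) *
            (Fintype.card X2 * (Fintype.card W * (Fintype.card X1 / 2)) : ℝ)) := by ring
      _ = 2 * ((L : ℝ) * (Fintype.card X2 * (Fintype.card W * (Fintype.card X1 / 2)) : ℝ)) := by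
          rw [hs]
      _ ≤ 2 * (r * (450 * Real.sqrt L * Fintype.card X2)) := by linarith
      _ = _ := by ring
  exact le_of_mul_le_mul_left h2 (by positivity)

/-- the numerical hypothesis holds for large `L` -/
theorem numeric : ∃ L0 : ℕ, ∀ L : ℕ, L0 ≤ L → ∃ ε : ℝ, 0 ≤ ε ∧
    (∀ x : ℕ, 2 ^ L ≤ x → (x : ℝ) * (9 / 10) ^ x ≤ ε) ∧
    (L : ℝ) * (((2 ^ (40 * L) : ℕ) : ℝ) * ε) ≤ 1 := by
  have h := tendsto_pow_const_mul_const_pow_of_abs_lt_one 42
    (r := (9 / 10 : ℝ)) (by rw [abs_of_pos] <;> norm_num)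
  have h1 : ∀ᶠ n : ℕ in Filter.atTop, (n : ℝ) ^ 42 * (9 / 10 : ℝ) ^ n ≤ 1 :=
    h.eventually_le_const (by norm_num)
  obtain ⟨x0, hx0⟩ := Filter.eventually_atTop.1 h1
  refine ⟨x0, fun L hL => ⟨1 / ((L + 1 : ℝ) * 2 ^ (40 * L)), by positivity, ?_, ?_⟩⟩
  · intro x hx
    have hLx : L < x := (Nat.lt_two_pow_self).trans_le hx
    have h2 := hx0 x (by omega)
    have hx1 : (0 : ℝ) < x := by
      have : 0 < x := by omega
      exact_mod_cast this
    rw [le_div_iff₀ (by positivity)]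
    have h3 : ((L : ℝ) + 1) ≤ x := by exact_mod_cast hLx
    have h4 : (2 : ℝ) ^ (40 * L) ≤ (x : ℝ) ^ 40 := by
      have : (2 : ℝ) ^ L ≤ x := by exact_mod_cast hx
      calc (2 : ℝ) ^ (40 * L) = (2 ^ L) ^ 40 := by rw [← pow_mul]; congr 1; ring
        _ ≤ _ := pow_le_pow_left₀ (by positivity) this 40
    calc (x : ℝ) * (9 / 10) ^ x * (((L : ℝ) + 1) * 2 ^ (40 * L)) ≤
        (x : ℝ) * (9 / 10) ^ x * ((x : ℝ) * (x : ℝ) ^ 40) := by
          refine mul_le_mul_of_nonneg_left ?_ (by positivity)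
          exact mul_le_mul h3 h4 (by positivity) hx1.le
      _ = (x : ℝ) ^ 42 * (9 / 10 : ℝ) ^ x := by ring
      _ ≤ 1 := h2
  · push_cast
    have h5 : (0 : ℝ) < 2 ^ (40 * L) := by positivity
    have h6 : (0 : ℝ) < (L : ℝ) + 1 := by positivity
    have : (L : ℝ) * (2 ^ (40 * L) * (1 / (((L : ℝ) + 1) * 2 ^ (40 * L)))) = L / (L + 1) := by
      field_simp
    rw [this, div_le_one h6]
    linarith

end rect

end Pool.Agent.Helper9.SpTree
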