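import Pool.Agent.Helper9.STP.Defs
import Pool.Agent.Helper9.STP.Graphs
import Pool.Agent.Helper9.STP.Rect2
import Pool.Agent.Helper20.STP.X
import Pool.Agent.Helper20.STP.G1a
import Pool.Agent.Helper71.STPG1b

/-!
# The lower bound for the comb graphs
-/

namespace Pool.Agent.Helper9.SpTree

open Finset
open scoped Classical

section xc

variable {W X2 X1 : Type} [Fintype W] [Fintype X2] [Fintype X1]

theorem comb_xc {N s : ℕ} (hs : 0 < s) (e : (W ⊕ X2 ⊕ X1) ≃ Fin N)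
    (L : ℕ) (hL : 3 ≤ L) (hX : Fintype.card X2 = 2 ^ (40 * L)) (hW : Fintype.card W = 2 ^ (40 * L))
    (hX1 : 0 < Fintype.card X1)
    (ε : ℝ) (hε0 : 0 ≤ ε)
    (hε : ∀ x : ℕ, 2 ^ L ≤ x → (x : ℝ) * (9 / 10) ^ x ≤ ε)
    (hε1 : L * (Fintype.card W * ε) ≤ 1) {r : ℕ}
    (h : HasExt (STP (lift N s e (⊤ : SimpleGraph (W ⊕ X2 ⊕ X1)))) r) :
    Real.sqrt L * Fintype.card W * Fintype.card X1 ≤ 900 * r := by
  obtain ⟨p0⟩ : Nonempty X1 := Fintype.card_pos_iff.1 hX1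
  have hW2 : 1 < Fintype.card W := by
    rw [hW]
    exact Nat.one_lt_two_pow (by omega)
  -- rows and columns
  let R : Type := {x : W × (X2 → Bool) × (X1 → Bool) // ∃ c, x.2.1 c = true}
  let C : Type := {x : W × X2 × (X2 → Bool) × (X1 → Bool) × X1 //
    x.2.2.1 x.2.1 = true ∧ x.2.2.2.1 x.2.2.2.2 = false}
  let U : R → Set (CV (W ⊕ X2 ⊕ X1) N s) := fun x => {y | CV.proj y ∈ US x.1.1 x.1.2.1 x.1.2.2}
  let T0 : C → SimpleGraph (W ⊕ X2 ⊕ X1) := fun x =>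
    DS x.1.1 x.1.2.1 x.1.2.2.1 x.1.2.2.2.1 x.1.2.2.2.2
  let T : C → SimpleGraph (CV (W ⊕ X2 ⊕ X1) N s) := fun x => lift N s e (T0 x)
  have hT : ∀ c, T c ≤ lift N s e (⊤ : SimpleGraph (W ⊕ X2 ⊕ X1)) ∧ (T c).IsTree := by
    rintro ⟨⟨v, c, Y2, Y1, p⟩, h1, h2⟩
    exact ⟨Pool.Agent.Helper71.STPG1b.lift_mono e le_top,
      Pool.Agent.Helper71.STPG1b.lift_isTree hs e _
        (Pool.Agent.Helper20.SpTreeG1a.DS_isTree v c Y2 Y1 p h1 h2)⟩
  have hiff : ∀ (i : R) (c : C), ((T c).induce (U i)).Connected ↔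
      ((T0 c).induce (US i.1.1 i.1.2.1 i.1.2.2)).Connected := fun i c =>
    Pool.Agent.Helper71.STPG1b.lift_induce_connected_iff hs e (T0 c) _
  have hU : ∀ i, ∃ T' : SimpleGraph (CV (W ⊕ X2 ⊕ X1) N s),
      T' ≤ lift N s e (⊤ : SimpleGraph (W ⊕ X2 ⊕ X1)) ∧ T'.IsTree ∧
        (T'.induce (U i)).Connected := by
    rintro ⟨⟨v, A2, A1⟩, c, hc⟩
    have hc : A2 c = true := hc
    by_cases hp : A1 p0 = true
    · let cc : C := ⟨(v, c, (fun _ => true), (fun _ => false), p0), rfl, rfl⟩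
      refine ⟨T cc, (hT cc).1, (hT cc).2, ?_⟩
      rw [hiff]
      exact Pool.Agent.Helper20.SpTreeG1a.DS_Z1 v c (fun _ => true) A2 (fun _ => false) A1 p0
        rfl rfl hc hp
    · obtain ⟨v0, hv0⟩ := Fintype.exists_ne_of_one_lt_card hW2 v
      let cc : C := ⟨(v0, c, (fun _ => true), Function.update (fun _ => true) p0 false, p0), rfl,
        by simp⟩
      refine ⟨T cc, (hT cc).1, (hT cc).2, ?_⟩
      rw [hiff]
      refine Pool.Agent.Helper20.SpTreeG1a.DS_Z2 v0 v hv0.symm c (fun _ => true) A2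
        (Function.update (fun _ => true) p0 false) A1 p0 hc (fun x => le_top) ?_ (by simp)
      intro x
      by_cases hx : x = p0
      · subst hx
        simp only [Function.update_self]
        simp only [Bool.not_eq_true] at hp
        rw [hp]
      · rw [Function.update_of_ne hx]
        exact le_top
  obtain ⟨rows, cols, h1, h2⟩ := Pool.Agent.Helper20.SpTreeX.rect_of_ext _ h U T hT hU
  -- the rectangles
  let Uc : Fin r → W → (X2 → Bool) → (X1 → Bool) → Prop := fun k v A2 A1 =>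
    ∃ hh : (∃ c, A2 c = true), (⟨(v, A2, A1), hh⟩ : R) ∈ rows k
  let Tc : Fin r → W → X2 → (X2 → Bool) → (X1 → Bool) → X1 → Prop := fun k v c Y2 Y1 p =>
    ∃ hh : (Y2 c = true ∧ Y1 p = false), (⟨(v, c, Y2, Y1, p), hh⟩ : C) ∈ cols k
  refine rect_bound Uc Tc ?_ ?_ L hL hX hW ε hε0 hε hε1
  · intro k
    refine ⟨?_, ?_, ?_, ?_⟩
    · rintro v c Y2 Y1 p ⟨hh, -⟩
      exact hh.2
    · rintro v c A2 A1 Y2 Y1 p ⟨hh, hU⟩ ⟨hh', hT⟩ hc
      by_contra hcon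
      rw [Bool.not_eq_false] at hcon
      refine h1 k _ _ hU hT ?_
      rw [hiff]
      exact Pool.Agent.Helper20.SpTreeG1a.DS_Z1 v c Y2 A2 Y1 A1 p hh'.1 hh'.2 hc hcon
    · rintro v v' c A2 A1 Y2 Y1 p ⟨hh, hU⟩ ⟨hh', hT⟩ hne hc h2' h1'
      refine h1 k _ _ hU hT ?_
      rw [hiff]
      exact Pool.Agent.Helper20.SpTreeG1a.DS_Z2 v' v hne c Y2 A2 Y1 A1 p hc h2' h1' hh'.2
    · rintro v c A2 A1 Y2 Y1 p ⟨hh, hU⟩ ⟨hh', hT⟩ h2' h1'
      refine h1 k _ _ hU hT ?_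
      rw [hiff]
      exact Pool.Agent.Helper20.SpTreeG1a.DS_Z3 v c Y2 A2 Y1 A1 p hh'.1 hh'.2 h2' h1'
  · intro v c A2 Y2 A1 Y1 p hc h2' h1' hp
    have hY : Y2 c = true := by
      have := h2' c
      rw [hc] at this
      exact top_le_iff.1 this
    have hnot := Pool.Agent.Helper20.SpTreeG1a.DS_hard v c Y2 A2 Y1 A1 p hc h2' h1' hp
    obtain ⟨k, hk1, hk2⟩ := h2 ⟨(v, A2, A1), c, hc⟩ ⟨(v, c, Y2, Y1, p), hY, hp⟩ (by
      rw [hiff]
      exact hnot)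
    exact ⟨k, ⟨⟨c, hc⟩, hk1⟩, ⟨⟨hY, hp⟩, hk2⟩⟩

end xc

end Pool.Agent.Helper9.SpTree
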